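import Mathlib

/-!
# Combinatorics of a triangulation seen from the poles

A vertex `v` is a ray `(c v, s v)` of `ℝ³` with `c v` on the unit circle (its longitude) and height `s v`.
-/

namespace Pool.Agent.Work.MP_e680c3_co

/-- Cross product in the plane. -/
def X (u w : ℝ × ℝ) : ℝ := u.1 * w.2 - u.2 * w.1

theorem X_self (u : ℝ × ℝ) : X u u = 0 := by simp only [X]; ring

theorem X_swap (u w : ℝ × ℝ) : X u w = - X w u := by simp only [X]; ring

/-- Grassmann-Pluecker relation. -/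
theorem X_gp (a b x d : ℝ × ℝ) : X b x * X a d + X x a * X b d + X a b * X x d = 0 := by
  simp only [X]; ring

variable {V : Type*}

/-- The orientation determinant of the face `a b x`. -/
def Lf (c : V → ℝ × ℝ) (s : V → ℝ) (a b x : V) : ℝ :=
  s a * X (c b) (c x) + s b * X (c x) (c a) + s x * X (c a) (c b)

theorem Lf_rot (c : V → ℝ × ℝ) (s : V → ℝ) (a b x : V) : Lf c s b x a = Lf c s a b x := by
  simp only [Lf]; ring

/-- The face `a b x` winds positively around the axis. -/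
def Nt (c : V → ℝ × ℝ) (a b x : V) : Prop :=
  0 < X (c a) (c b) ∧ 0 < X (c b) (c x) ∧ 0 < X (c x) (c a)

/-- The face `a b x` winds negatively around the axis. -/
def St (c : V → ℝ × ℝ) (a b x : V) : Prop :=
  X (c a) (c b) < 0 ∧ X (c b) (c x) < 0 ∧ X (c x) (c a) < 0

theorem Nt.rot {c : V → ℝ × ℝ} {a b x : V} (h : Nt c a b x) : Nt c b x a := ⟨h.2.1, h.2.2, h.1⟩

theorem St.rot {c : V → ℝ × ℝ} {a b x : V} (h : St c a b x) : St c b x a := ⟨h.2.1, h.2.2, h.1⟩

/-- `(a', b', x')` is a rotation of `(a, b, x)`. -/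
def Rot3 (a b x a' b' x' : V) : Prop :=
  (a' = a ∧ b' = b ∧ x' = x) ∨ (a' = b ∧ b' = x ∧ x' = a) ∨ (a' = x ∧ b' = a ∧ x' = b)

/-- The combinatorial data of a triangulated sphere, with its longitudes. -/
structure Comb (F : Set (V × V × V)) (c : V → ℝ × ℝ) : Prop where
  unit : ∀ v, (c v).1 ^ 2 + (c v).2 ^ 2 = 1
  rot : ∀ {a b x : V}, (a, b, x) ∈ F → (b, x, a) ∈ F
  uniq : ∀ {a b x y : V}, (a, b, x) ∈ F → (a, b, y) ∈ F → x = y
  symm : ∀ {a b x : V}, (a, b, x) ∈ F → ∃ y, (b, a, y) ∈ F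
  vert : ∀ v : V, ∃ a b, (v, a, b) ∈ F
  ne : ∀ {a b x : V}, (a, b, x) ∈ F → a ≠ b
  noN : ∀ {a b x : V}, (a, b, x) ∈ F → X (c a) (c b) = 0 →
    c a = c b ∨ (c a = - c b ∧ X (c b) (c x) < 0)
  nuniq : ∀ {a b x a' b' x' : V}, (a, b, x) ∈ F → Nt c a b x → (a', b', x') ∈ F → Nt c a' b' x' →
    Rot3 a b x a' b' x'
  nex : ∃ a b x, (a, b, x) ∈ F ∧ Nt c a b x

/-- All faces, except the polar ones, are positively oriented for the heights `s`. -/
def Good (F : Set (V × V × V)) (c : V → ℝ × ℝ) (s : V → ℝ) : Prop :=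
  ∀ a b x, (a, b, x) ∈ F → Nt c a b x ∨ St c a b x ∨ 0 < Lf c s a b x

theorem Comb.rot' {F : Set (V × V × V)} {c : V → ℝ × ℝ} (hC : Comb F c) {a b x : V}
    (h : (a, b, x) ∈ F) : (x, a, b) ∈ F := hC.rot (hC.rot h)

/-! ### Crossing a longitude -/

/-- The edge `a b` crosses the longitude of `d` eastward. -/
def Cr (c : V → ℝ × ℝ) (d : ℝ × ℝ) (a b : V) : Prop :=
  0 < X (c a) d ∧ 0 < X d (c b) ∧ 0 < X (c a) (c b)

/-- The height of the edge `a b` at the longitude of `d`. -/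
noncomputable def H (c : V → ℝ × ℝ) (s : V → ℝ) (d : ℝ × ℝ) (a b : V) : ℝ :=
  (s a * X d (c b) + s b * X (c a) d) / X (c a) (c b)

theorem H_mul {c : V → ℝ × ℝ} {s : V → ℝ} {d : ℝ × ℝ} {a b : V} (h : X (c a) (c b) ≠ 0) :
    H c s d a b * X (c a) (c b) = s a * X d (c b) + s b * X (c a) d := by
  rw [H, div_mul_cancel₀ _ h]

/-- Upper edge minus lower edge, common eastern endpoint. -/
theorem H_sub_east {c : V → ℝ × ℝ} {s : V → ℝ} {d : ℝ × ℝ} {a b x : V}
    (h1 : X (c a) (c b) ≠ 0) (h2 : X (c x) (c b) ≠ 0) :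
    H c s d x b - H c s d a b = Lf c s a b x * X d (c b) / (X (c a) (c b) * X (c x) (c b)) := by
  rw [H, H, div_sub_div _ _ h2 h1, div_eq_div_iff (mul_ne_zero h2 h1) (mul_ne_zero h1 h2)]
  simp only [Lf, X]; ring

/-- Upper edge minus lower edge, common western endpoint. -/
theorem H_sub_west {c : V → ℝ × ℝ} {s : V → ℝ} {d : ℝ × ℝ} {a b x : V}
    (h1 : X (c a) (c b) ≠ 0) (h2 : X (c a) (c x) ≠ 0) :
    H c s d a x - H c s d a b = Lf c s a b x * X (c a) d / (X (c a) (c b) * X (c a) (c x)) := by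
  rw [H, H, div_sub_div _ _ h2 h1, div_eq_div_iff (mul_ne_zero h2 h1) (mul_ne_zero h1 h2)]
  simp only [Lf, X]; ring

/-- `d` is not on the great circle through the poles and a vertex. -/
def Gen (c : V → ℝ × ℝ) (d : ℝ × ℝ) : Prop := ∀ v, X (c v) d ≠ 0

/-- The up relation: `e'` is the upper edge at `d` of the face above `e`. -/
def Up (F : Set (V × V × V)) (c : V → ℝ × ℝ) (d : ℝ × ℝ) (e e' : V × V) : Prop :=
  ∃ x, (e.1, e.2, x) ∈ F ∧ Cr c d e.1 e.2 ∧
    ((e' = (x, e.2) ∧ Cr c d x e.2) ∨ (e' = (e.1, x) ∧ Cr c d e.1 x))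

/-- Eastward crossing edges at `d`. -/
def Ed (F : Set (V × V × V)) (c : V → ℝ × ℝ) (d : ℝ × ℝ) : Set (V × V) :=
  {e | Cr c d e.1 e.2 ∧ ∃ x, (e.1, e.2, x) ∈ F}

variable {F : Set (V × V × V)} {c : V → ℝ × ℝ} {s : V → ℝ} {d : ℝ × ℝ}

theorem X_zero_unit {u w : ℝ × ℝ} (hu : u.1 ^ 2 + u.2 ^ 2 = 1) (hw : w.1 ^ 2 + w.2 ^ 2 = 1)
    (h : X u w = 0) : u = w ∨ u = - w := by
  simp only [X] at h
  have h1 : (u.1 * w.1 + u.2 * w.2) ^ 2 = 1 := by nlinarith [h, hu, hw]
  have h2 : (u.1 * w.1 + u.2 * w.2 - 1) * (u.1 * w.1 + u.2 * w.2 + 1) = 0 := by nlinarith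
  rcases mul_eq_zero.1 h2 with h3 | h3
  · left
    have h4 : (u.1 - w.1) ^ 2 + (u.2 - w.2) ^ 2 = 0 := by nlinarith
    have h5 : u.1 - w.1 = 0 := by nlinarith [sq_nonneg (u.1 - w.1), sq_nonneg (u.2 - w.2)]
    have h6 : u.2 - w.2 = 0 := by nlinarith [sq_nonneg (u.1 - w.1), sq_nonneg (u.2 - w.2)]
    ext <;> linarith
  · right
    have h4 : (u.1 + w.1) ^ 2 + (u.2 + w.2) ^ 2 = 0 := by nlinarith
    have h5 : u.1 + w.1 = 0 := by nlinarith [sq_nonneg (u.1 + w.1), sq_nonneg (u.2 + w.2)]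
    have h6 : u.2 + w.2 = 0 := by nlinarith [sq_nonneg (u.1 + w.1), sq_nonneg (u.2 + w.2)]
    ext
    · simp; linarith
    · simp; linarith

/-- A non-polar face crossed eastward by `a b` is crossed westward by one of the other sides. -/
theorem exists_upper (hC : Comb F c) (hd : Gen c d) {a b x : V} (hf : (a, b, x) ∈ F)
    (hcr : Cr c d a b) (hN : ¬ Nt c a b x) : Cr c d x b ∨ Cr c d a x := by
  obtain ⟨h1, h2, h3⟩ := hcr
  have gp := X_gp (c a) (c b) (c x) d
  rcases lt_or_gt_of_ne (hd x) with hx | hx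
  · -- `x` on the east side
    right
    refine ⟨h1, by rw [X_swap]; linarith, ?_⟩
    by_contra hk
    push Not at hk
    -- `X (c x) (c a) ≥ 0`
    have hxa : 0 ≤ X (c x) (c a) := by rw [X_swap]; linarith
    rcases hxa.eq_or_lt with h0 | h0
    · rcases hC.noN (hC.rot' hf) h0.symm with h4 | ⟨h4, h5⟩
      · rw [h4] at hx; linarith
      · linarith
    · by_cases hbx : 0 < X (c b) (c x)
      · exact hN ⟨h3, hbx, h0⟩
      · push Not at hbx
        have hbd : X (c b) d < 0 := by rw [X_swap]; linarith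
        nlinarith [mul_nonneg_of_nonpos_of_nonpos hbx (le_of_lt (neg_neg_of_pos h1)),
          mul_pos_of_neg_of_neg hbd (neg_neg_of_pos h0), mul_pos_of_neg_of_neg hx (neg_neg_of_pos h3)]
  · left
    refine ⟨hx, h2, ?_⟩
    by_contra hk
    push Not at hk
    have hbx : 0 ≤ X (c b) (c x) := by rw [X_swap]; linarith
    rcases hbx.eq_or_lt with h0 | h0
    · rcases hC.noN (hC.rot hf) h0.symm with h4 | ⟨h4, h5⟩
      · have : X (c x) d = X (c b) d := by rw [h4]
        have h6 : X (c b) d < 0 := by rw [X_swap]; linarith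
        linarith
      · have h7 : X (c x) (c a) = X (c a) (c b) := by
          rw [h4]; simp only [X, Prod.fst_neg, Prod.snd_neg]; ring
        linarith
    · by_cases hxa : 0 < X (c x) (c a)
      · exact hN ⟨h3, h0, hxa⟩
      · push Not at hxa
        have hbd : X (c b) d < 0 := by rw [X_swap]; linarith
        nlinarith [mul_pos h0 h1, mul_nonneg_of_nonpos_of_nonpos hxa hbd.le, mul_pos h3 hx]

end Pool.Agent.Work.MP_e680c3_co
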