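import Pool.Agent.Work.MP_e680c3_co.Basic

/-!
# The edges crossed by a longitude form a chain
-/

namespace Pool.Agent.Work.MP_e680c3_co

variable {V : Type*} {F : Set (V × V × V)} {c : V → ℝ × ℝ} {s : V → ℝ} {d : ℝ × ℝ}

theorem Up.mem_right (hC : Comb F c) {e e' : V × V} (h : Up F c d e e') : e' ∈ Ed F c d := by
  obtain ⟨x, hf, hcr, (⟨rfl, h1⟩ | ⟨rfl, h1⟩)⟩ := h
  · obtain ⟨y, hy⟩ := hC.symm (hC.rot hf)
    exact ⟨h1, y, hy⟩
  · obtain ⟨y, hy⟩ := hC.symm (hC.rot' hf)
    exact ⟨h1, y, hy⟩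

theorem Up.mem_left {e e' : V × V} (h : Up F c d e e') : e ∈ Ed F c d := by
  obtain ⟨x, hf, hcr, _⟩ := h
  exact ⟨hcr, x, hf⟩

/-- A face with an upper edge is not polar. -/
theorem Up.pos (hG : Good F c s) {a b x : V} (hf : (a, b, x) ∈ F) (hcr : Cr c d a b)
    (h : Cr c d x b ∨ Cr c d a x) : 0 < Lf c s a b x := by
  rcases hG a b x hf with h1 | h1 | h1
  · exfalso
    rcases h with h | h
    · have := h.2.2; rw [X_swap] at this; linarith [h1.2.1]
    · have := h.2.2; rw [X_swap] at this; linarith [h1.2.2]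
  · exfalso; linarith [h1.1, hcr.2.2]
  · exact h1

theorem Up.lt (hG : Good F c s) {e e' : V × V} (h : Up F c d e e') :
    H c s d e.1 e.2 < H c s d e'.1 e'.2 := by
  obtain ⟨x, hf, hcr, (⟨rfl, h1⟩ | ⟨rfl, h1⟩)⟩ := h
  · have hL := Up.pos hG hf hcr (Or.inl h1)
    have := H_sub_east (s := s) (d := d) (ne_of_gt hcr.2.2) (ne_of_gt h1.2.2)
    have h2 : 0 < Lf c s e.1 e.2 x * X d (c e.2) / (X (c e.1) (c e.2) * X (c x) (c e.2)) :=
      div_pos (mul_pos hL hcr.2.1) (mul_pos hcr.2.2 h1.2.2)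
    linarith
  · have hL := Up.pos hG hf hcr (Or.inr h1)
    have := H_sub_west (s := s) (d := d) (ne_of_gt hcr.2.2) (ne_of_gt h1.2.2)
    have h2 : 0 < Lf c s e.1 e.2 x * X (c e.1) d / (X (c e.1) (c e.2) * X (c e.1) (c x)) :=
      div_pos (mul_pos hL hcr.1) (mul_pos hcr.2.2 h1.2.2)
    linarith

theorem Up.right_unique (hC : Comb F c) {e g g' : V × V} (h : Up F c d e g) (h' : Up F c d e g') :
    g = g' := by
  obtain ⟨x, hf, hcr, h1⟩ := h
  obtain ⟨x', hf', hcr', h1'⟩ := h'
  have hx := hC.uniq hf hf'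
  subst hx
  have key : Cr c d x e.2 → Cr c d e.1 x → False := by
    intro k1 k2
    have := k1.1; have := k2.2.1; rw [X_swap] at this; linarith
  rcases h1 with ⟨rfl, h1⟩ | ⟨rfl, h1⟩ <;> rcases h1' with ⟨rfl, h1'⟩ | ⟨rfl, h1'⟩
  · rfl
  · exact (key h1 h1').elim
  · exact (key h1' h1).elim
  · rfl

theorem Up.left_unique (hC : Comb F c) {e e' g : V × V} (h : Up F c d e g) (h' : Up F c d e' g) :
    e = e' := by
  obtain ⟨x, hf, hcr, h1⟩ := h
  obtain ⟨x', hf', hcr', h1'⟩ := h'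
  obtain ⟨a, b⟩ := e
  obtain ⟨a', b'⟩ := e'
  simp only at hf hf' hcr hcr' h1 h1'
  rcases h1 with ⟨rfl, h1⟩ | ⟨rfl, h1⟩ <;> rcases h1' with ⟨h2, h1'⟩ | ⟨h2, h1'⟩
  · -- g = (x, b) = (x', b')
    obtain ⟨rfl, rfl⟩ := Prod.mk.inj h2
    have := hC.uniq (hC.rot hf) (hC.rot hf')
    rw [this]
  · -- g = (x, b) = (a', x')
    obtain ⟨rfl, rfl⟩ := Prod.mk.inj h2
    have := hC.uniq (hC.rot hf) (hC.rot' hf')
    exfalso
    have h3 := hcr.1
    have h4 := hcr'.2.1
    rw [this, X_swap] at h3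
    linarith
  · obtain ⟨rfl, rfl⟩ := Prod.mk.inj h2
    have := hC.uniq (hC.rot' hf) (hC.rot hf')
    exfalso
    have h3 := hcr.2.1
    have h4 := hcr'.1
    rw [this, X_swap] at h3
    linarith
  · obtain ⟨rfl, rfl⟩ := Prod.mk.inj h2
    have := hC.uniq (hC.rot' hf) (hC.rot' hf')
    rw [this]

/-- The left face of the edge is the north face. -/
def Top (F : Set (V × V × V)) (c : V → ℝ × ℝ) (d : ℝ × ℝ) (e : V × V) : Prop :=
  Cr c d e.1 e.2 ∧ ∃ x, (e.1, e.2, x) ∈ F ∧ Nt c e.1 e.2 x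

theorem exists_up (hC : Comb F c) (hd : Gen c d) {e : V × V} (he : e ∈ Ed F c d)
    (ht : ¬ Top F c d e) : ∃ e', Up F c d e e' := by
  obtain ⟨hcr, x, hf⟩ := he
  have hN : ¬ Nt c e.1 e.2 x := fun h => ht ⟨hcr, x, hf, h⟩
  rcases exists_upper hC hd hf hcr hN with h | h
  · exact ⟨_, x, hf, hcr, Or.inl ⟨rfl, h⟩⟩
  · exact ⟨_, x, hf, hcr, Or.inr ⟨rfl, h⟩⟩

theorem Up.not_top (hC : Comb F c) {e e' : V × V} (h : Up F c d e e') : ¬ Top F c d e := by
  obtain ⟨x, hf, hcr, h1⟩ := h
  rintro ⟨_, y, hy, hN⟩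
  have := hC.uniq hf hy
  subst this
  rcases h1 with ⟨rfl, h1⟩ | ⟨rfl, h1⟩
  · have := h1.2.2; rw [X_swap] at this; linarith [hN.2.1]
  · have := h1.2.2; rw [X_swap] at this; linarith [hN.2.2]

theorem top_unique (hC : Comb F c) {e e' : V × V} (h : Top F c d e) (h' : Top F c d e') :
    e = e' := by
  obtain ⟨hcr, x, hf, hN⟩ := h
  obtain ⟨hcr', x', hf', hN'⟩ := h'
  obtain ⟨a, b⟩ := e
  obtain ⟨a', b'⟩ := e'
  simp only at *
  rcases hC.nuniq hf hN hf' hN' with ⟨rfl, rfl, _⟩ | ⟨rfl, rfl, _⟩ | ⟨rfl, rfl, _⟩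
  · rfl
  · exfalso
    have h1 := hcr.2.1; have h2 := hcr'.1; rw [X_swap] at h1; linarith
  · exfalso
    have h1 := hcr.1; have h2 := hcr'.2.1; rw [X_swap] at h1; linarith

/-- Induction along the chain, from the top. -/
theorem chain_induction [Finite V] (hC : Comb F c) (hG : Good F c s) (hd : Gen c d)
    (P : V × V → Prop) (htop : ∀ e, Top F c d e → P e)
    (hstep : ∀ e e', Up F c d e e' → P e' → P e) : ∀ e ∈ Ed F c d, P e := by
  have hwf : WellFounded (fun e e' : V × V => H c s d e'.1 e'.2 < H c s d e.1 e.2) := by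
    have : IsTrans (V × V) (fun e e' : V × V => H c s d e'.1 e'.2 < H c s d e.1 e.2) :=
      ⟨fun a b x h1 h2 => lt_trans h2 h1⟩
    have : Std.Irrefl (fun e e' : V × V => H c s d e'.1 e'.2 < H c s d e.1 e.2) :=
      ⟨fun a h => lt_irrefl _ h⟩
    exact Finite.wellFounded_of_trans_of_irrefl _
  intro e
  induction e using hwf.induction with
  | _ e ih =>
    intro he
    by_cases ht : Top F c d e
    · exact htop e ht
    · obtain ⟨e', h⟩ := exists_up hC hd he ht
      exact hstep e e' h (ih e' (h.lt hG) (h.mem_right hC))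

theorem reach_top [Finite V] (hC : Comb F c) (hG : Good F c s) (hd : Gen c d) :
    ∀ e ∈ Ed F c d, ∃ t, Top F c d t ∧ Relation.ReflTransGen (Up F c d) e t := by
  apply chain_induction hC hG hd
  · intro e he
    exact ⟨e, he, Relation.ReflTransGen.refl⟩
  · rintro e e' h ⟨t, ht, hr⟩
    exact ⟨t, ht, Relation.ReflTransGen.head h hr⟩

theorem reach_le (hG : Good F c s) {e e' : V × V} (h : Relation.ReflTransGen (Up F c d) e e') :
    H c s d e.1 e.2 ≤ H c s d e'.1 e'.2 := by
  induction h with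
  | refl => exact le_refl _
  | tail _ h ih => exact ih.trans (h.lt hG).le

/-- Linearity of the chain. -/
theorem chain_total [Finite V] (hC : Comb F c) (hG : Good F c s) (hd : Gen c d) {e e' : V × V}
    (he : e ∈ Ed F c d) (he' : e' ∈ Ed F c d) :
    Relation.ReflTransGen (Up F c d) e e' ∨ Relation.ReflTransGen (Up F c d) e' e := by
  obtain ⟨t, ht, hr⟩ := reach_top hC hG hd e he
  obtain ⟨t', ht', hr'⟩ := reach_top hC hG hd e' he'
  have := top_unique hC ht ht'
  subst this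
  have hU : Relator.RightUnique (Function.swap (Up F c d)) := by
    intro g e1 e2 h1 h2
    exact Up.left_unique hC h1 h2
  have h1 : Relation.ReflTransGen (Function.swap (Up F c d)) t e := by
    rw [Relation.reflTransGen_swap]; exact hr
  have h2 : Relation.ReflTransGen (Function.swap (Up F c d)) t e' := by
    rw [Relation.reflTransGen_swap]; exact hr'
  rcases Relation.ReflTransGen.total_of_right_unique hU h1 h2 with h | h
  · right; rwa [Relation.reflTransGen_swap] at h
  · left; rwa [Relation.reflTransGen_swap] at h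

/-- If `g` is just below `e'`, then every other edge is either above `e'` or below `g`. -/
theorem chain_below [Finite V] (hC : Comb F c) (hG : Good F c s) (hd : Gen c d) {e e' g : V × V}
    (he : e ∈ Ed F c d) (hg : Up F c d g e') (hne : e ≠ e') :
    H c s d e'.1 e'.2 < H c s d e.1 e.2 ∨ H c s d e.1 e.2 ≤ H c s d g.1 g.2 := by
  rcases chain_total hC hG hd he (hg.mem_right hC) with h | h
  · right
    rcases Relation.ReflTransGen.cases_tail h with h1 | ⟨g', h1, h2⟩
    · exact (hne h1.symm).elim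
    · have := Up.left_unique hC h2 hg
      subst this
      exact reach_le hG h1
  · left
    rcases Relation.ReflTransGen.cases_head h with h1 | ⟨g', h1, h2⟩
    · exact (hne h1.symm).elim
    · exact lt_of_lt_of_le (h1.lt hG) (reach_le hG h2)

/-- If `g` is just above `e'`, then every other edge is either below `e'` or above `g`. -/
theorem chain_above [Finite V] (hC : Comb F c) (hG : Good F c s) (hd : Gen c d) {e e' g : V × V}
    (he : e ∈ Ed F c d) (hg : Up F c d e' g) (hne : e ≠ e') :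
    H c s d e.1 e.2 < H c s d e'.1 e'.2 ∨ H c s d g.1 g.2 ≤ H c s d e.1 e.2 := by
  rcases chain_total hC hG hd he hg.mem_left with h | h
  · left
    rcases Relation.ReflTransGen.cases_head h with h1 | ⟨g', h1, h2⟩
    · exact (hne h1).elim
    · exact lt_of_lt_of_le (h1.lt hG) (reach_le hG h2)
  · right
    rcases Relation.ReflTransGen.cases_head h with h1 | ⟨g', h1, h2⟩
    · exact (hne h1.symm).elim
    · have := Up.right_unique hC h1 hg
      subst this
      exact reach_le hG h2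

end Pool.Agent.Work.MP_e680c3_co
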