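import Mathlib

/-!
# Gordan's theorem of the alternative
-/

open scoped BigOperators

namespace Pool.Agent.Work.MP_e680c3_co

theorem gordan {ι : Type*} [Fintype ι] {Y : Type*} [AddCommGroup Y] [Module ℝ Y]
    (g : ι → Y →ₗ[ℝ] ℝ) : (∃ x, ∀ i, g i x < 0) ∨
      (∃ y : ι → ℝ, (∀ i, 0 ≤ y i) ∧ (∃ i, 0 < y i) ∧ ∀ x, ∑ i, y i * g i x = 0) := by
  classical
  by_cases hx : ∃ x, ∀ i, g i x < 0
  · exact Or.inl hx
  right
  set S : Set (ι → ℝ) := {u | ∀ i, u i < 0} with hS
  set T : Set (ι → ℝ) := Set.range (fun x i => g i x) with hT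
  have hSc : Convex ℝ S := by
    intro u hu w hw a b ha hb hab i
    simp only [Pi.add_apply, Pi.smul_apply, smul_eq_mul]
    have h1 := hu i
    have h2 := hw i
    rcases ha.eq_or_lt with h | h
    · have : b = 1 := by linarith
      rw [← h, this]; linarith
    · nlinarith [mul_nonneg hb (neg_nonneg.2 h2.le), mul_pos h (neg_pos.2 h1)]
  have hSo : IsOpen S := by
    have : S = ⋂ i, {u : ι → ℝ | u i < 0} := by ext u; simp [hS]
    rw [this]
    exact isOpen_iInter_of_finite (fun i => isOpen_lt (continuous_apply i) continuous_const)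
  have hTc : Convex ℝ T := by
    rintro _ ⟨x, rfl⟩ _ ⟨x', rfl⟩ a b ha hb hab
    refine ⟨a • x + b • x', ?_⟩
    ext i; simp
  have hdisj : Disjoint S T := by
    rw [Set.disjoint_left]
    rintro _ hu ⟨x, rfl⟩
    exact hx ⟨x, hu⟩
  obtain ⟨f, u0, h1, h2⟩ := geometric_hahn_banach_open hSc hSo hTc hdisj
  have hu0 : u0 ≤ 0 := by
    have h3 := h2 (fun i => g i 0) ⟨0, rfl⟩
    have h4 : (fun i => g i 0) = (0 : ι → ℝ) := by ext i; simp
    rw [h4, map_zero] at h3
    exact h3
  have hft : ∀ x, f (fun i => g i x) = 0 := by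
    intro x
    have key : ∀ r : ℝ, u0 ≤ r * f (fun i => g i x) := by
      intro r
      have h3 := h2 (fun i => g i (r • x)) ⟨r • x, rfl⟩
      have h4 : (fun i => g i (r • x)) = r • (fun i => g i x) := by ext i; simp
      rw [h4, map_smul, smul_eq_mul] at h3
      exact h3
    by_contra hne
    have h5 := key ((u0 - 1) / f (fun i => g i x))
    rw [div_mul_cancel₀ _ hne] at h5
    linarith
  have hfs : ∀ u : ι → ℝ, f u = ∑ i, f (Pi.single i 1) * u i := by
    intro u
    have h3 : u = ∑ i, u i • (Pi.single i (1 : ℝ) : ι → ℝ) := by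
      ext j
      simp [Finset.sum_apply, Pi.single_apply]
    conv_lhs => rw [h3]
    rw [map_sum]
    refine Finset.sum_congr rfl (fun i _ => ?_)
    rw [map_smul, smul_eq_mul, mul_comm]
  refine ⟨fun i => f (Pi.single i 1), ?_, ?_, ?_⟩
  · intro i
    by_contra hneg
    push Not at hneg
    set R := ∑ j ∈ Finset.univ.erase i, f (Pi.single j 1) with hR
    -- choose `u` equal to `-M` at `i` and `-1` elsewhere
    obtain ⟨M, hM0, hM⟩ : ∃ M : ℝ, 0 < M ∧ 0 < - M * f (Pi.single i 1) - R := by
      refine ⟨(|R| + 1) / (- f (Pi.single i 1)), ?_, ?_⟩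
      · apply div_pos (by positivity); linarith
      · have h3 : (|R| + 1) / (- f (Pi.single i 1)) * (- f (Pi.single i 1)) = |R| + 1 :=
          div_mul_cancel₀ _ (by linarith : (- f (Pi.single i 1)) ≠ 0)
        have h4 := le_abs_self R
        nlinarith
    have h3 := h1 (fun j => if j = i then -M else -1) (by
      intro j
      by_cases hj : j = i
      · simp [hj, hM0]
      · simp [hj])
    rw [hfs, ← Finset.add_sum_erase _ _ (Finset.mem_univ i)] at h3
    have h4 : ∑ x ∈ Finset.univ.erase i, f (Pi.single x 1) * (if x = i then -M else -1) = - R := by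
      rw [hR, ← Finset.sum_neg_distrib]
      refine Finset.sum_congr rfl (fun j hj => ?_)
      rw [if_neg (Finset.ne_of_mem_erase hj)]; ring
    rw [h4] at h3
    simp only [if_true] at h3
    linarith
  · by_contra hall
    push Not at hall
    have h3 := h1 (fun _ => -1) (fun i => by norm_num)
    rw [hfs] at h3
    have h4 : 0 ≤ ∑ i, f (Pi.single i 1) * (-1 : ℝ) := by
      apply Finset.sum_nonneg
      intro i _
      have := hall i
      linarith
    linarith
  · intro x
    have := hft x
    rw [hfs] at this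
    exact this

end Pool.Agent.Work.MP_e680c3_co
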