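import Pool.Agent.Work.MP_e680c3_co.Slots
import Pool.Agent.Work.MP_e680c3_co.Gordan

/-!
# The core theorem: lowering the upper part of the triangulation
-/

open Filter Topology

namespace Pool.Agent.Work.MP_e680c3_co

variable {V : Type*} {F Fp : Set (V × V × V)} {c : V → ℝ × ℝ} {s : V → ℝ} {I E : Set V}

/-- Hypotheses of the core theorem: `Fp` is the upper part, `I` its interior vertices and `E` its
boundary vertices. -/
structure Upper (F Fp : Set (V × V × V)) (c : V → ℝ × ℝ) (s : V → ℝ) (I E : Set V) : Prop where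
  sub : ∀ {a b x : V}, (a, b, x) ∈ Fp → (a, b, x) ∈ F
  rot : ∀ {a b x : V}, (a, b, x) ∈ Fp → (b, x, a) ∈ Fp
  pos : ∀ {a b x : V}, (a, b, x) ∈ Fp → 0 < Lf c s a b x
  top : ∀ {a b x : V}, (a, b, x) ∈ F → Nt c a b x → (a, b, x) ∈ Fp
  mem : ∀ {a b x : V}, (a, b, x) ∈ Fp → a ∈ I ∨ a ∈ E
  disj : ∀ {v : V}, v ∈ I → v ∉ E
  Ipos : ∀ {v : V}, v ∈ I → 0 < s v
  Iall : ∀ {v a b : V}, v ∈ I → (v, a, b) ∈ F → (v, a, b) ∈ Fp
  Enn : ∀ {v : V}, v ∈ E → 0 ≤ s v
  EA : ∀ {v a b : V}, v ∈ E → Aslot F c v a b → (v, a, b) ∉ Fp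
  EB : ∀ {v a b : V}, v ∈ E → Bslot F c v a b → (v, a, b) ∈ Fp
  bd : ∀ {a b x y : V}, (a, b, x) ∈ Fp → (b, a, y) ∈ F → (b, a, y) ∉ Fp →
    a ∈ E ∧ b ∈ E ∧ 0 < X (c a) (c b)

theorem Upper.rot' (hU : Upper F Fp c s I E) {a b x : V} (h : (a, b, x) ∈ Fp) : (x, a, b) ∈ Fp :=
  hU.rot (hU.rot h)

theorem Upper.nn (hU : Upper F Fp c s I E) {a b x : V} (h : (a, b, x) ∈ Fp) : 0 ≤ s a := by
  rcases hU.mem h with h1 | h1
  · exact (hU.Ipos h1).le
  · exact hU.Enn h1

theorem X_neg_left (u w : ℝ × ℝ) : X (-u) w = - X u w := by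
  simp only [X, Prod.fst_neg, Prod.snd_neg]; ring

theorem X_neg_right (u w : ℝ × ℝ) : X u (-w) = - X u w := by
  simp only [X, Prod.fst_neg, Prod.snd_neg]; ring

theorem Upper.vert (hC : Comb F c) (hU : Upper F Fp c s I E) {a b x : V} (h : (a, b, x) ∈ Fp)
    (h0 : X (c a) (c b) = 0) : c a = c b := by
  rcases hC.noN (hU.sub h) h0 with h1 | ⟨h1, h2⟩
  · exact h1
  · exfalso
    have hL := hU.pos h
    have h3 : Lf c s a b x = (s a + s b) * X (c b) (c x) := by
      simp only [Lf, h1, X_neg_left, X_neg_right, X_self]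
      rw [X_swap (c x) (c b)]; ring
    have := hU.nn h
    have := hU.nn (hU.rot h)
    rw [h3] at hL
    nlinarith

/-- The face above the lower end of a vertical edge below `u`. -/
theorem Upper.A_vert [Finite V] (hC : Comb F c) (hG : Good F c s) (hU : Upper F Fp c s I E)
    {u a v : V} (hu : u ∈ I) (hA : Aslot F c u a v) (h0 : X (c u) (c v) = 0) :
    c u = c v ∧ ∃ w, Bslot F c v w u := by
  obtain ⟨hf, ha, _⟩ := hA
  have hfp := hU.Iall hu hf
  have h1 : X (c v) (c u) = 0 := by rw [X_swap, h0, neg_zero]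
  have hc := hU.vert hC (hU.rot' hfp) h1
  obtain ⟨w, hw⟩ := next_mem hC hf
  refine ⟨hc.symm, w, hC.rot hw, ?_, ?_⟩
  · rw [hc]
    have hne : ¬ (c v = - c u) := by
      intro h
      have h5 : c u = - c u := by rw [← h, hc]
      have h6 := hC.unit u
      have h7 : (c u).1 = 0 := by
        have := congrArg Prod.fst h5; simp only [Prod.fst_neg] at this; linarith
      have h8 : (c u).2 = 0 := by
        have := congrArg Prod.snd h5; simp only [Prod.snd_neg] at this; linarith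
      rw [h7, h8] at h6; norm_num at h6
    rcases prev_of_zero hC hG hf h0 with ⟨h3, h4⟩ | ⟨h3, h4⟩
    · have h5 : s v - s u < 0 := by nlinarith
      rcases next_of_zero hC hG hw h0 with ⟨h6, h7⟩ | ⟨h6, h7⟩
      · nlinarith
      · exact (hne h6).elim
    · exact (hne h3).elim
  · rw [h1]

/-- The face below the upper end of a vertical edge above `v`. -/
theorem Upper.B_vert [Finite V] (hC : Comb F c) (hG : Good F c s) (hU : Upper F Fp c s I E)
    {v a u : V} (hB : Bslot F c v a u) (hBp : (v, a, u) ∈ Fp) (h0 : X (c v) (c u) = 0) :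
    c v = c u ∧ u ∈ I ∧ ∃ w, Aslot F c u w v := by
  obtain ⟨hf, ha, _⟩ := hB
  have h1 : X (c u) (c v) = 0 := by rw [X_swap, h0, neg_zero]
  have hc := hU.vert hC (hU.rot' hBp) h1
  obtain ⟨w, hw⟩ := next_mem hC hf
  have hwp : (v, u, w) ∈ Fp := by
    by_contra hn
    have := (hU.bd (hU.rot' hBp) hw hn).2.2
    linarith
  have hA : Aslot F c u w v := by
    refine ⟨hC.rot hw, ?_, by rw [h1]⟩
    rw [hc]
    have hne : ¬ (c u = - c v) := by
      intro h
      have h5 : c v = - c v := by rw [← h, hc]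
      have h6 := hC.unit v
      have h7 : (c v).1 = 0 := by
        have := congrArg Prod.fst h5; simp only [Prod.fst_neg] at this; linarith
      have h8 : (c v).2 = 0 := by
        have := congrArg Prod.snd h5; simp only [Prod.snd_neg] at this; linarith
      rw [h7, h8] at h6; norm_num at h6
    rcases prev_of_zero hC hG hf h0 with ⟨h3, h4⟩ | ⟨h3, h4⟩
    · have h5 : 0 < s u - s v := by
        by_contra hn
        push Not at hn
        nlinarith [mul_nonneg (neg_nonneg.2 hn) ha.le]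
      rcases next_of_zero hC hG hw h0 with ⟨h6, h7⟩ | ⟨h6, h7⟩
      · by_contra hn
        push Not at hn
        nlinarith [mul_nonneg h5.le hn]
      · exact (hne h6).elim
    · exact (hne h3).elim
  refine ⟨hc.symm, ?_, w, hA⟩
  rcases hU.mem (hU.rot' hBp) with h | h
  · exact h
  · exact (hU.EA h hA (hU.rot hwp)).elim

/-! ### The local terms of the identity -/

/-- The contribution of the corner `v` of the face `v a b`. -/
noncomputable def gt (c : V → ℝ × ℝ) (σ h : V → ℝ) (v a b : V) : ℝ :=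
  h v * (slope c σ v a - slope c σ v b)

/-- The contribution of a face. -/
noncomputable def Gt (c : V → ℝ × ℝ) (σ h : V → ℝ) (v a b : V) : ℝ :=
  gt c σ h v a b + gt c σ h a b v + gt c σ h b v a

theorem Gt_rot (σ h : V → ℝ) (v a b : V) : Gt c σ h a b v = Gt c σ h v a b := by
  unfold Gt; ring

theorem Gt_nonvert (hu : ∀ v, (c v).1 ^ 2 + (c v).2 ^ 2 = 1) (σ h : V → ℝ) {v a b : V}
    (h1 : X (c v) (c a) ≠ 0) (h2 : X (c a) (c b) ≠ 0) (h3 : X (c b) (c v) ≠ 0) :
    Gt c σ h v a b =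
      Lf c σ v a b * Lf c h v a b / (X (c v) (c a) * X (c a) (c b) * X (c b) (c v)) := by
  have h1' : X (c a) (c v) ≠ 0 := by rw [X_swap]; exact neg_ne_zero.2 h1
  have h2' : X (c b) (c a) ≠ 0 := by rw [X_swap]; exact neg_ne_zero.2 h2
  have h3' : X (c v) (c b) ≠ 0 := by rw [X_swap]; exact neg_ne_zero.2 h3
  have e1 := slope_sub (s := σ) hu h1 h3'
  have e2 := slope_sub (s := σ) hu h2 h1'
  have e3 := slope_sub (s := σ) hu h3 h2'
  have f1 : slope c σ v a - slope c σ v b = - (Lf c σ v a b / (X (c v) (c a) * X (c v) (c b))) := by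
    linarith
  have f2 : slope c σ a b - slope c σ a v = - (Lf c σ v a b / (X (c a) (c b) * X (c a) (c v))) := by
    rw [Lf_rot] at e2; linarith
  have f3 : slope c σ b v - slope c σ b a = - (Lf c σ v a b / (X (c b) (c v) * X (c b) (c a))) := by
    rw [Lf_rot, Lf_rot] at e3; linarith
  rw [Gt, gt, gt, gt, f1, f2, f3, X_swap (c v) (c b), X_swap (c a) (c v), X_swap (c b) (c a)]
  field_simp
  simp only [Lf]
  ring

theorem Gt_vert (σ h : V → ℝ) {v a b : V} (h1 : X (c v) (c a) ≠ 0) (h2 : c v = c b)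
    (h3 : σ v = σ b) :
    Gt c σ h v a b = (- slope c σ v a / X (c v) (c a)) * Lf c h v a b := by
  have e1 : slope c σ v b = 0 := by rw [slope, ← h2, X_self, div_zero]
  have e2 : slope c σ b v = 0 := by rw [slope, ← h2, X_self, div_zero]
  have e3 : slope c σ a b = slope c σ a v := by rw [slope, slope, h2, h3]
  have e4 : slope c σ b a = slope c σ v a := by rw [slope, slope, h2, h3]
  have e5 : Lf c h v a b = (h b - h v) * X (c v) (c a) := by
    simp only [Lf]; rw [← h2, X_self, X_swap (c a) (c v)]; ring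
  rw [Gt, gt, gt, gt, e1, e2, e3, e4, e5]
  field_simp
  ring

end Pool.Agent.Work.MP_e680c3_co
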