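import Pool.Agent.Work.MP_e680c3_co.Ident

/-!
# The core theorem, second part
-/

open Filter Topology

namespace Pool.Agent.Work.MP_e680c3_co

variable {V : Type*} {F Fp : Set (V × V × V)} {c : V → ℝ × ℝ} {s : V → ℝ} {I E : Set V}

/-- The slots of all the vertices. -/
structure SlotData (F : Set (V × V × V)) (c : V → ℝ × ℝ) where
  A1 : V → V
  A2 : V → V
  B1 : V → V
  B2 : V → V
  hA : ∀ v, Aslot F c v (A1 v) (A2 v)
  hB : ∀ v, Bslot F c v (B1 v) (B2 v)
  uA : ∀ {v a b}, Aslot F c v a b → A1 v = a ∧ A2 v = b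
  uB : ∀ {v a b}, Bslot F c v a b → B1 v = a ∧ B2 v = b

theorem exists_slotData [Finite V] (hC : Comb F c) (hG : Good F c s) :
    Nonempty (SlotData F c) := by
  have h1 : ∀ v, ∃ a b, Aslot F c v a b := fun v => (exists_slots hC hG v).1
  have h2 : ∀ v, ∃ a b, Bslot F c v a b := fun v => (exists_slots hC hG v).2
  choose A1 A2 hA using h1
  choose B1 B2 hB using h2
  exact ⟨⟨A1, A2, B1, B2, hA, hB, fun h => A_unique hC hG (hA _) h,
    fun h => B_unique hC hG (hB _) h⟩⟩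

/-- The non-polar upper slots. -/
def JJ (c : V → ℝ × ℝ) (I E : Set V) (D : SlotData F c) : Set V :=
  {v | (v ∈ I ∨ v ∈ E) ∧ ¬ Nt c v (D.B1 v) (D.B2 v)}

/-- The coefficients of the identity. -/
noncomputable def qc (c : V → ℝ × ℝ) (σ : V → ℝ) (v a b : V) : ℝ :=
  open scoped Classical in
  if X (c v) (c b) = 0 then - slope c σ v a / X (c v) (c a)
  else Lf c σ v a b / (X (c v) (c a) * X (c a) (c b) * X (c b) (c v))

theorem Upper.X_ne (hC : Comb F c) (hU : Upper F Fp c s I E) {v a b : V} (hf : (v, a, b) ∈ Fp)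
    (h1 : (X (c v) (c a) < 0 ∧ 0 ≤ X (c v) (c b)) ∨ (0 < X (c v) (c a) ∧ X (c v) (c b) ≤ 0)) :
    X (c a) (c b) ≠ 0 := by
  intro h0
  have h2 := hU.vert hC (hU.rot hf) h0
  rw [h2] at h1
  rcases h1 with h | h <;> linarith [h.1, h.2]

theorem Upper.Amem (hU : Upper F Fp c s I E) (D : SlotData F c) {v : V} (hv : v ∈ I) :
    (v, D.A1 v, D.A2 v) ∈ Fp := hU.Iall hv (D.hA v).1

theorem Upper.Bmem (hU : Upper F Fp c s I E) (D : SlotData F c) {v : V} (hv : v ∈ I ∨ v ∈ E) :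
    (v, D.B1 v, D.B2 v) ∈ Fp := by
  rcases hv with h | h
  · exact hU.Iall h (D.hB v).1
  · exact hU.EB h (D.hB v)

/-- Formula at a vertical slot. -/
theorem Lf_vert (h : V → ℝ) {v a b : V} (h2 : c v = c b) :
    Lf c h v a b = (h b - h v) * X (c v) (c a) := by
  simp only [Lf]; rw [← h2, X_self, X_swap (c a) (c v)]; ring

theorem Gt_slot (hC : Comb F c) (hU : Upper F Fp c s I E) (σ h : V → ℝ) {v a b : V}
    (hf : (v, a, b) ∈ Fp)
    (h1 : (X (c v) (c a) < 0 ∧ 0 ≤ X (c v) (c b)) ∨ (0 < X (c v) (c a) ∧ X (c v) (c b) ≤ 0))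
    (h3 : X (c v) (c b) = 0 → σ v = σ b) :
    Gt c σ h v a b = qc c σ v a b * Lf c h v a b := by
  have hva : X (c v) (c a) ≠ 0 := by
    rcases h1 with h | h
    · exact ne_of_lt h.1
    · exact ne_of_gt h.1
  by_cases h0 : X (c v) (c b) = 0
  · have hbv : X (c b) (c v) = 0 := by rw [X_swap, h0, neg_zero]
    have := hU.vert hC (hU.rot' hf) hbv
    rw [Gt_vert σ h hva this.symm (h3 h0), qc, if_pos h0]
  · have hbv : X (c b) (c v) ≠ 0 := by rw [X_swap]; exact neg_ne_zero.2 h0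
    rw [Gt_nonvert hC.unit σ h hva (hU.X_ne hC hf h1) hbv, qc, if_neg h0]
    ring

open scoped Classical in
theorem identity [Fintype V] (hC : Comb F c) (hG : Good F c s) (hU : Upper F Fp c s I E)
    (D : SlotData F c) {n1 n2 n3 : V} (hn : (n1, n2, n3) ∈ F) (hN : Nt c n1 n2 n3)
    (σ h : V → ℝ) (hσ : ∀ v, v ∉ I → σ v = 0)
    (hv : ∀ u ∈ I, X (c u) (c (D.A2 u)) = 0 → σ u = σ (D.A2 u)) :
    (∑ v : V with v ∈ I, qc c σ v (D.A1 v) (D.A2 v) * Lf c h v (D.A1 v) (D.A2 v)) +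
    (∑ v : V with v ∈ JJ c I E D, qc c σ v (D.B1 v) (D.B2 v) * Lf c h v (D.B1 v) (D.B2 v)) +
    Lf c σ n1 n2 n3 * Lf c h n1 n2 n3 / (X (c n1) (c n2) * X (c n2) (c n3) * X (c n3) (c n1))
      = 0 := by
  have h0 := telescope hC hU σ h (fun v hv => hσ v (fun h => hU.disj h hv))
  rw [regroup hC hU hn hN D.hA D.hB D.uA D.uB (gt c σ h)] at h0
  rw [← h0]
  congr 1
  · congr 1
    · refine Finset.sum_congr rfl (fun v hvI => ?_)
      simp only [Finset.mem_filter, Finset.mem_univ, true_and] at hvI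
      exact (Gt_slot hC hU σ h (hU.Amem D hvI) (Or.inl (D.hA v).2) (hv v hvI)).symm
    · refine Finset.sum_congr (Finset.filter_congr (fun v _ => Iff.rfl)) (fun v hvI => ?_)
      simp only [Finset.mem_filter, Finset.mem_univ, true_and] at hvI
      have hm := hU.Bmem D hvI.1
      refine (Gt_slot hC hU σ h hm (Or.inr (D.hB v).2) (fun hz => ?_)).symm
      obtain ⟨h1, h2, w, h3⟩ := hU.B_vert hC hG (D.hB v) hm hz
      have h4 := (D.uA h3).2
      have h5 := hv _ h2 (by rw [h4, ← h1, X_self])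
      rw [h5, h4]
  · exact (Gt_nonvert hC.unit σ h (ne_of_gt hN.1) (ne_of_gt hN.2.1) (ne_of_gt hN.2.2)).symm

theorem max_principle [Finite V] (hU : Upper F Fp c s I E) (D : SlotData F c) (σ : V → ℝ)
    (hσ : ∀ v, v ∉ I → σ v = 0) (hA : ∀ v ∈ I, 0 ≤ Lf c σ v (D.A1 v) (D.A2 v)) :
    ∀ v, 0 ≤ σ v := by
  by_contra hcon
  push Not at hcon
  obtain ⟨v0, hv0⟩ := hcon
  have hv0I : v0 ∈ I := by
    by_contra h
    rw [hσ v0 h] at hv0
    exact lt_irrefl _ hv0
  obtain ⟨v, hvI, hmax⟩ := Set.exists_max_image I (fun v => - σ v / s v) (Set.toFinite I) ⟨v0, hv0I⟩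
  set m := - σ v / s v with hm
  have hsv := hU.Ipos hvI
  have hmpos : 0 < m := lt_of_lt_of_le (div_pos (neg_pos.2 hv0) (hU.Ipos hv0I)) (hmax v0 hv0I)
  set τ : V → ℝ := fun w => σ w + m * s w with hτ
  have hτ0 : τ v = 0 := by
    simp only [hτ, hm]; field_simp; ring
  have hτn : ∀ w, w ∈ I ∨ w ∈ E → 0 ≤ τ w := by
    rintro w (hw | hw)
    · have h1 := hmax w hw
      have h2 := hU.Ipos hw
      have h3 : - σ w ≤ m * s w := by
        rwa [div_le_iff₀ h2] at h1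
      simp only [hτ]; linarith
    · have h1 := hU.Enn hw
      simp only [hτ]
      rw [hσ w (fun h => hU.disj h hw)]
      have := mul_nonneg hmpos.le h1
      linarith
  have hf := hU.Amem D hvI
  have h1 : Lf c τ v (D.A1 v) (D.A2 v) =
      Lf c σ v (D.A1 v) (D.A2 v) + m * Lf c s v (D.A1 v) (D.A2 v) := by
    simp only [Lf, hτ]; ring
  have h2 := hA v hvI
  have h3 := mul_pos hmpos (hU.pos hf)
  have h4 := hτn _ (hU.mem (hU.rot hf))
  have h5 := hτn _ (hU.mem (hU.rot' hf))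
  have h6 := (D.hA v).2
  have h7 : Lf c τ v (D.A1 v) (D.A2 v) ≤ 0 := by
    simp only [Lf, hτ0]
    rw [X_swap (c (D.A2 v)) (c v)]
    nlinarith [mul_nonneg h4 h6.2, mul_nonneg h5 (neg_nonneg.2 h6.1.le)]
  linarith

/-- `Lf` as a linear map. -/
noncomputable def LfL (c : V → ℝ × ℝ) (a b x : V) : (V → ℝ) →ₗ[ℝ] ℝ where
  toFun h := Lf c h a b x
  map_add' := by intro h h'; simp only [Lf, Pi.add_apply]; ring
  map_smul' := by intro r h; simp only [Lf, Pi.smul_apply, smul_eq_mul, RingHom.id_apply]; ring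

open scoped Classical in
theorem exists_sigma [Finite V] (hU : Upper F Fp c s I E) (D : SlotData F c) (t : V → ℝ) :
    ∃ σ : V → ℝ, (∀ v, v ∉ I → σ v = 0) ∧ ∀ v ∈ I, Lf c σ v (D.A1 v) (D.A2 v) = t v := by
  set Φ : (V → ℝ) →ₗ[ℝ] (V → ℝ) := LinearMap.pi (fun v =>
    if v ∈ I then LfL c v (D.A1 v) (D.A2 v) else LinearMap.proj v) with hΦ
  have hΦI : ∀ σ v, v ∈ I → Φ σ v = Lf c σ v (D.A1 v) (D.A2 v) := by
    intro σ v hv; simp only [hΦ, LinearMap.pi_apply, if_pos hv]; rfl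
  have hΦO : ∀ σ v, v ∉ I → Φ σ v = σ v := by
    intro σ v hv; simp only [hΦ, LinearMap.pi_apply, if_neg hv]; rfl
  have hinj : Function.Injective Φ := by
    rw [← LinearMap.ker_eq_bot, LinearMap.ker_eq_bot']
    intro σ h0
    have h1 : ∀ v, v ∉ I → σ v = 0 := by
      intro v hv; rw [← hΦO σ v hv, h0]; rfl
    have h2 : ∀ v ∈ I, Lf c σ v (D.A1 v) (D.A2 v) = 0 := by
      intro v hv; rw [← hΦI σ v hv, h0]; rfl
    have h3 := max_principle hU D σ h1 (fun v hv => (h2 v hv).ge)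
    have h4 := max_principle hU D (fun v => - σ v) (fun v hv => by rw [h1 v hv, neg_zero])
      (fun v hv => by
        have : Lf c (fun v => - σ v) v (D.A1 v) (D.A2 v) = - Lf c σ v (D.A1 v) (D.A2 v) := by
          simp only [Lf]; ring
        rw [this, h2 v hv, neg_zero])
    ext v
    have h5 := h3 v
    have h6 := h4 v
    simp only [Pi.zero_apply]
    linarith
  have hsurj := LinearMap.injective_iff_surjective.1 hinj
  obtain ⟨σ, hσ⟩ := hsurj (fun v => if v ∈ I then t v else 0)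
  refine ⟨σ, fun v hv => ?_, fun v hv => ?_⟩
  · rw [← hΦO σ v hv, hσ]; simp only [if_neg hv]
  · rw [← hΦI σ v hv, hσ]; simp only [if_pos hv]

/-- The upper side of a non-polar upper slot. -/
theorem JJ_pos (hC : Comb F c) (hU : Upper F Fp c s I E) (D : SlotData F c) {v : V}
    (hv : v ∈ JJ c I E D) : 0 < X (c (D.B2 v)) (c (D.B1 v)) := by
  have hf := hU.Bmem D hv.1
  have h1 := (D.hB v).2
  have h2 := hU.X_ne hC hf (Or.inr h1)
  by_contra hn
  push Not at hn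
  have h3 : 0 < X (c (D.B1 v)) (c (D.B2 v)) := by
    rcases lt_or_gt_of_ne h2 with h | h
    · rw [X_swap] at h; linarith
    · exact h
  have h4 : 0 ≤ X (c (D.B2 v)) (c v) := by rw [X_swap]; linarith [h1.2]
  rcases h4.eq_or_lt with h5 | h5
  · have h6 := hU.vert hC (hU.rot' hf) h5.symm
    rw [h6, X_swap] at h3
    linarith [h1.1]
  · exact hv.2 ⟨h1.1, h3, h5⟩

theorem chain_nonneg [Finite V] (hC : Comb F c) (hG : Good F c s) (hU : Upper F Fp c s I E)
    {n1 n2 n3 : V} (hn : (n1, n2, n3) ∈ F) (hN : Nt c n1 n2 n3) {h : V → ℝ}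
    (h1 : h n1 = 0) (h2 : h n2 = 0) (h3 : h n3 = 0)
    (hL : ∀ a b x, (a, b, x) ∈ Fp → Lf c h a b x ≤ 0) {d : ℝ × ℝ} (hd : Gen c d) :
    ∀ e ∈ Ed F c d, ∀ x, (e.1, e.2, x) ∈ Fp → 0 ≤ H c h d e.1 e.2 := by
  refine chain_induction hC hG hd (fun e => ∀ x, (e.1, e.2, x) ∈ Fp → 0 ≤ H c h d e.1 e.2)
    ?_ ?_
  · rintro ⟨a, b⟩ ⟨hcr, x, hf, hNt⟩ x' _
    simp only at *
    have : h a = 0 ∧ h b = 0 := by
      rcases hC.nuniq hn hN hf hNt with ⟨rfl, rfl, rfl⟩ | ⟨rfl, rfl, rfl⟩ | ⟨rfl, rfl, rfl⟩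
      · exact ⟨h1, h2⟩
      · exact ⟨h2, h3⟩
      · exact ⟨h3, h1⟩
    rw [H, this.1, this.2]; simp
  · rintro ⟨a, b⟩ e' ⟨x, hf, hcr, hor⟩ ih x' hf'
    simp only at *
    have hx := hC.uniq hf (hU.sub hf')
    subst hx
    have hLx := hL _ _ _ hf'
    rcases hor with ⟨rfl, hc⟩ | ⟨rfl, hc⟩
    · obtain ⟨y, hy⟩ := hC.symm (hC.rot hf)
      have hyp : (x, b, y) ∈ Fp := by
        by_contra hn
        have := (hU.bd (hU.rot hf') hy hn).2.2
        have := hc.2.2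
        rw [X_swap] at this
        linarith
      have h5 := ih y hyp
      have h6 := H_sub_east (s := h) (d := d) (ne_of_gt hcr.2.2) (ne_of_gt hc.2.2)
      have h7 : Lf c h a b x * X d (c b) / (X (c a) (c b) * X (c x) (c b)) ≤ 0 :=
        div_nonpos_of_nonpos_of_nonneg (mul_nonpos_of_nonpos_of_nonneg hLx hcr.2.1.le)
          (mul_pos hcr.2.2 hc.2.2).le
      simp only at h5
      linarith
    · obtain ⟨y, hy⟩ := hC.symm (hC.rot' hf)
      have hyp : (a, x, y) ∈ Fp := by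
        by_contra hn
        have := (hU.bd (hU.rot' hf') hy hn).2.2
        have := hc.2.2
        rw [X_swap] at this
        linarith
      have h5 := ih y hyp
      have h6 := H_sub_west (s := h) (d := d) (ne_of_gt hcr.2.2) (ne_of_gt hc.2.2)
      have h7 : Lf c h a b x * X (c a) d / (X (c a) (c b) * X (c a) (c x)) ≤ 0 :=
        div_nonpos_of_nonpos_of_nonneg (mul_nonpos_of_nonpos_of_nonneg hLx hcr.1.le)
          (mul_pos hcr.2.2 hc.2.2).le
      simp only at h5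
      linarith

theorem positivity_lemma [Finite V] (hC : Comb F c) (hG : Good F c s) (hU : Upper F Fp c s I E)
    (D : SlotData F c)
    {n1 n2 n3 : V} (hn : (n1, n2, n3) ∈ F) (hN : Nt c n1 n2 n3) {h : V → ℝ}
    (h1 : h n1 = 0) (h2 : h n2 = 0) (h3 : h n3 = 0)
    (hL : ∀ a b x, (a, b, x) ∈ Fp → Lf c h a b x ≤ 0) {v : V} (hv : v ∈ JJ c I E D) :
    - (Lf c h v (D.B1 v) (D.B2 v) / X (c (D.B2 v)) (c (D.B1 v))) ≤ h v := by
  have hf := hU.Bmem D hv.1
  have hpos := JJ_pos hC hU D hv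
  have hB := (D.hB v).2
  set a := D.B1 v with ha
  set b := D.B2 v with hb
  have hNt : ¬ Nt c v a b := hv.2
  have e1 := eventually_gen hC.unit v (one_ne_zero)
  have e2 := eventually_X_right (c := c) v a (σ := 1) hB.1
  obtain ⟨y, hy⟩ := hC.symm (hU.sub (hU.rot hf))
  have hyp : (b, a, y) ∈ Fp := by
    by_contra hn
    have h4 := (hU.bd (hU.rot hf) hy hn).2.2
    rw [X_swap] at h4
    linarith
  have e3 : ∀ᶠ ε in 𝓝[>] (0 : ℝ), 0 ≤ H c h (near c v (1 * ε)) b a := by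
    filter_upwards [e1, e2, self_mem_nhdsWithin] with ε k1 k2 k3
    have k4 : 0 < X (c v) (near c v (1 * ε)) := by
      rw [X_near hC.unit, one_mul]; exact k3
    rcases exists_upper hC k1 (hU.sub hf) ⟨k4, k2, hB.1⟩ hNt with k5 | k5
    · exact chain_nonneg hC hG hU hn hN h1 h2 h3 hL k1 (b, a) ⟨k5, y, hy⟩ y hyp
    · exfalso
      have := k5.2.2
      linarith [hB.2]
  have e4 := tendsto_H (c := c) h b a (v := v) 1
  have e5 := ge_of_tendsto e4 e3
  rw [H_opp (ne_of_gt hpos)] at e5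
  linarith

end Pool.Agent.Work.MP_e680c3_co
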