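import Pool.Agent.Work.MP_e680c3_co.CoreB

/-!
# The core theorem, third part
-/

open Filter Topology

namespace Pool.Agent.Work.MP_e680c3_co

variable {V : Type*} {F Fp : Set (V × V × V)} {c : V → ℝ × ℝ} {s : V → ℝ} {I E : Set V}

theorem A_rho [Finite V] (hC : Comb F c) (hG : Good F c s) (hU : Upper F Fp c s I E)
    (D : SlotData F c) {u : V} (hu : u ∈ I) (h0 : X (c u) (c (D.A2 u)) = 0) :
    c u = c (D.A2 u) ∧ D.A2 u ∈ JJ c I E D ∧ ∃ ρ : ℝ, 0 < ρ ∧ ∀ h : V → ℝ,
      Lf c h u (D.A1 u) (D.A2 u) = ρ * Lf c h (D.A2 u) (D.B1 (D.A2 u)) (D.B2 (D.A2 u)) := by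
  obtain ⟨hc, w, hw⟩ := hU.A_vert hC hG hu (D.hA u) h0
  obtain ⟨e1, e2⟩ := D.uB hw
  have hf := hU.Amem D hu
  refine ⟨hc, ⟨hU.mem (hU.rot' hf), ?_⟩, ?_⟩
  · rw [e1, e2]
    intro h
    have := h.2.2
    rw [h0] at this
    exact lt_irrefl _ this
  · rw [e1, e2]
    refine ⟨- X (c u) (c (D.A1 u)) / X (c (D.A2 u)) (c w),
      div_pos (neg_pos.2 (D.hA u).2.1) hw.2.1, fun h => ?_⟩
    rw [Lf_vert h hc, Lf_vert h hc.symm]
    have := ne_of_gt hw.2.1
    field_simp
    ring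

theorem A_kappa (hC : Comb F c) (hU : Upper F Fp c s I E) (D : SlotData F c) {v : V}
    (hv : v ∈ I) (h0 : X (c v) (c (D.A2 v)) ≠ 0) :
    0 < X (c v) (c (D.A1 v)) * X (c (D.A1 v)) (c (D.A2 v)) * X (c (D.A2 v)) (c v) := by
  have hf := hU.Amem D hv
  have h1 := (D.hA v).2
  have h2 := hU.X_ne hC hf (Or.inl h1)
  have h3 : X (c (D.A2 v)) (c v) < 0 := by
    rw [X_swap]
    have := lt_of_le_of_ne h1.2 (Ne.symm h0)
    linarith
  have h4 : 0 < X (c (D.A1 v)) (c (D.A2 v)) := by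
    rcases lt_or_gt_of_ne h2 with h | h
    · exfalso
      have h5 := hU.pos hf
      have h6 := hU.nn hf
      have h7 := hU.nn (hU.rot hf)
      have h8 := hU.nn (hU.rot' hf)
      simp only [Lf] at h5
      nlinarith [mul_nonneg h6 (neg_nonneg.2 h.le), mul_nonneg h7 (neg_nonneg.2 h3.le),
        mul_nonneg h8 (neg_nonneg.2 h1.1.le)]
    · exact h
  have h5 : 0 < X (c v) (c (D.A1 v)) * X (c (D.A2 v)) (c v) := mul_pos_of_neg_of_neg h1.1 h3
  nlinarith [mul_pos h5 h4]

theorem face_induction (hC : Comb F c) (hU : Upper F Fp c s I E) (D : SlotData F c)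
    {n1 n2 n3 : V} (hn : (n1, n2, n3) ∈ F) (hN : Nt c n1 n2 n3) (P : V → V → V → Prop)
    (hrot : ∀ a b x, P a b x → P b x a) (hPA : ∀ v ∈ I, P v (D.A1 v) (D.A2 v))
    (hPB : ∀ v ∈ JJ c I E D, P v (D.B1 v) (D.B2 v)) (hPn : P n1 n2 n3) :
    ∀ a b x, (a, b, x) ∈ Fp → P a b x := by
  classical
  have key : ∀ a b x, (a, b, x) ∈ Fp → wt F c (n1, n2, n3) a b x ≠ 0 → P a b x := by
    intro a b x hf hw
    by_cases h1 : Aslot F c a b x
    · obtain ⟨e1, e2⟩ := D.uA h1
      rcases hU.mem hf with h | h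
      · have := hPA a h
        rwa [e1, e2] at this
      · exact (hU.EA h h1 hf).elim
    · by_cases h2 : Bslot F c a b x ∧ ¬ Nt c a b x
      · obtain ⟨e1, e2⟩ := D.uB h2.1
        have := hPB a ⟨hU.mem hf, by rw [e1, e2]; exact h2.2⟩
        rwa [e1, e2] at this
      · by_cases h3 : (a, b, x) = (n1, n2, n3)
        · simp only [Prod.mk.injEq] at h3
          obtain ⟨rfl, rfl, rfl⟩ := h3
          exact hPn
        · exfalso
          apply hw
          rw [wt, if_neg h1, if_neg h2, if_neg h3]; norm_num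
  intro a b x hf
  have hs := wt_sum hC hU hn hN hf
  by_cases h1 : wt F c (n1, n2, n3) a b x = 0
  · by_cases h2 : wt F c (n1, n2, n3) b x a = 0
    · have h3 : wt F c (n1, n2, n3) x a b ≠ 0 := by
        rw [h1, h2] at hs; intro h; rw [h] at hs; norm_num at hs
      exact hrot _ _ _ (key x a b (hU.rot' hf) h3)
    · exact hrot _ _ _ (hrot _ _ _ (key b x a (hU.rot hf) h2))
  · exact key a b x hf h1

theorem nt_not_JJ (D : SlotData F c) {n1 n2 n3 : V} (hn : (n1, n2, n3) ∈ F)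
    (hN : Nt c n1 n2 n3) : n1 ∉ JJ c I E D := by
  rintro ⟨_, h⟩
  obtain ⟨e1, e2⟩ := D.uB (v := n1) (a := n2) (b := n3)
    ⟨hn, hN.1, by rw [X_swap]; linarith [hN.2.2]⟩
  rw [e1, e2] at h
  exact h hN

open scoped Classical in
/-- The upper slots are independent. -/
theorem independence [Fintype V] (hC : Comb F c) (hG : Good F c s) (hU : Upper F Fp c s I E)
    (D : SlotData F c) {n1 n2 n3 : V} (hn : (n1, n2, n3) ∈ F) (hN : Nt c n1 n2 n3)
    (h : V → ℝ) (h0 : ∀ v, v ∉ JJ c I E D → h v = 0)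
    (h1 : ∀ v ∈ JJ c I E D, Lf c h v (D.B1 v) (D.B2 v) = 0) : h = 0 := by
  have z1 : h n1 = 0 := h0 n1 (nt_not_JJ D hn hN)
  have z2 : h n2 = 0 := h0 n2 (nt_not_JJ D (hC.rot hn) hN.rot)
  have z3 : h n3 = 0 := h0 n3 (nt_not_JJ D (hC.rot' hn) hN.rot.rot)
  have zN : Lf c h n1 n2 n3 = 0 := by simp [Lf, z1, z2, z3]
  have hvert : ∀ v ∈ I, X (c v) (c (D.A2 v)) = 0 → Lf c h v (D.A1 v) (D.A2 v) = 0 := by
    intro v hv hz
    obtain ⟨_, hJ, ρ, _, hρ⟩ := A_rho hC hG hU D hv hz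
    rw [hρ, h1 _ hJ, mul_zero]
  have hA : ∀ v ∈ I, Lf c h v (D.A1 v) (D.A2 v) = 0 := by
    intro v0 hv0
    by_cases hz : X (c v0) (c (D.A2 v0)) = 0
    · exact hvert v0 hv0 hz
    · set K := X (c v0) (c (D.A1 v0)) * X (c (D.A1 v0)) (c (D.A2 v0)) * X (c (D.A2 v0)) (c v0)
        with hK
      have hKpos : 0 < K := A_kappa hC hU D hv0 hz
      obtain ⟨σ, hσ0, hσ⟩ := exists_sigma hU D (fun v => if v = v0 then K else 0)
      have hid := identity hC hG hU D hn hN σ h hσ0 (by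
        intro u hu huz
        have hne : u ≠ v0 := by rintro rfl; exact hz huz
        have h2 := hσ u hu
        rw [if_neg hne] at h2
        obtain ⟨hc, -, -⟩ := A_rho hC hG hU D hu huz
        rw [Lf_vert σ hc] at h2
        rcases mul_eq_zero.1 h2 with h3 | h3
        · linarith
        · exact (ne_of_lt (D.hA u).2.1 h3).elim)
      rw [zN, mul_zero, zero_div, add_zero] at hid
      have e2 : ∑ v : V with v ∈ JJ c I E D,
          qc c σ v (D.B1 v) (D.B2 v) * Lf c h v (D.B1 v) (D.B2 v) = 0 := by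
        refine Finset.sum_eq_zero (fun v hv => ?_)
        simp only [Finset.mem_filter, Finset.mem_univ, true_and] at hv
        rw [h1 v hv, mul_zero]
      rw [e2, add_zero, Finset.sum_eq_single v0] at hid
      · rw [qc, if_neg hz, hσ v0 hv0, if_pos rfl, ← hK, div_self (ne_of_gt hKpos), one_mul] at hid
        exact hid
      · intro v hv hne
        simp only [Finset.mem_filter, Finset.mem_univ, true_and] at hv
        by_cases hvz : X (c v) (c (D.A2 v)) = 0
        · rw [hvert v hv hvz, mul_zero]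
        · rw [qc, if_neg hvz, hσ v hv, if_neg hne, zero_div, zero_mul]
      · intro hv
        simp only [Finset.mem_filter, Finset.mem_univ, true_and] at hv
        exact (hv hv0).elim
  have hall := face_induction hC hU D hn hN (fun a b x => Lf c h a b x = 0)
    (fun a b x hh => by rw [Lf_rot]; exact hh) hA h1 zN
  ext v
  simp only [Pi.zero_apply]
  by_cases hv : v ∈ JJ c I E D
  · have p1 := positivity_lemma hC hG hU D hn hN z1 z2 z3 (fun a b x hf => (hall a b x hf).le) hv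
    have hneg : ∀ a b x, Lf c (fun v => - h v) a b x = - Lf c h a b x := by
      intro a b x; simp only [Lf]; ring
    have p2 := positivity_lemma hC hG hU D hn hN (h := fun v => - h v) (by simp [z1])
      (by simp [z2]) (by simp [z3])
      (fun a b x hf => by rw [hneg, hall a b x hf, neg_zero]) hv
    rw [h1 v hv] at p1
    rw [hneg, h1 v hv] at p2
    simp only [neg_zero, zero_div] at p1 p2
    linarith
  · exact h0 v hv

open scoped Classical in
/-- Restriction to `J`. -/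
noncomputable def MM (J : Set V) : (V → ℝ) →ₗ[ℝ] (V → ℝ) :=
  LinearMap.pi (fun v => if v ∈ J then LinearMap.proj v else 0)

theorem MM_in {J : Set V} (h : V → ℝ) {v : V} (hv : v ∈ J) : MM J h v = h v := by
  classical
  rw [MM, LinearMap.pi_apply, if_pos hv]; rfl

theorem MM_out {J : Set V} (h : V → ℝ) {v : V} (hv : v ∉ J) : MM J h v = 0 := by
  classical
  rw [MM, LinearMap.pi_apply, if_neg hv]; rfl

open scoped Classical in
theorem exists_lift [Fintype V] (hC : Comb F c) (hG : Good F c s) (hU : Upper F Fp c s I E)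
    (D : SlotData F c) {n1 n2 n3 : V} (hn : (n1, n2, n3) ∈ F) (hN : Nt c n1 n2 n3) (t : V → ℝ) :
    ∃ x : V → ℝ, ∀ v ∈ JJ c I E D, Lf c (MM (JJ c I E D) x) v (D.B1 v) (D.B2 v) = t v := by
  set J := JJ c I E D with hJ
  set Ψ : (V → ℝ) →ₗ[ℝ] (V → ℝ) := LinearMap.pi (fun v =>
    if v ∈ J then (LfL c v (D.B1 v) (D.B2 v)).comp (MM J) else LinearMap.proj v) with hΨ
  have hΨI : ∀ σ v, v ∈ J → Ψ σ v = Lf c (MM J σ) v (D.B1 v) (D.B2 v) := by
    intro σ v hv; simp only [hΨ, LinearMap.pi_apply, if_pos hv]; rfl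
  have hΨO : ∀ σ v, v ∉ J → Ψ σ v = σ v := by
    intro σ v hv; simp only [hΨ, LinearMap.pi_apply, if_neg hv]; rfl
  have hinj : Function.Injective Ψ := by
    rw [← LinearMap.ker_eq_bot, LinearMap.ker_eq_bot']
    intro σ h0
    have h1 : ∀ v, v ∉ J → σ v = 0 := by
      intro v hv; rw [← hΨO σ v hv, h0]; rfl
    have h2 := independence hC hG hU D hn hN (MM J σ) (fun v hv => MM_out σ hv)
      (fun v hv => by rw [← hΨI σ v hv, h0]; rfl)
    ext v
    by_cases hv : v ∈ J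
    · rw [← MM_in σ hv, h2]
    · rw [h1 v hv]; rfl
  obtain ⟨x, hx⟩ := LinearMap.injective_iff_surjective.1 hinj t
  exact ⟨x, fun v hv => by rw [← hΨI x v hv, hx]⟩

end Pool.Agent.Work.MP_e680c3_co
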