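import Pool.Agent.Work.MP_e680c3_co.CoreC

/-!
# The core theorem, conclusion
-/

open Filter Topology

namespace Pool.Agent.Work.MP_e680c3_co

variable {V : Type*} {F Fp : Set (V × V × V)} {c : V → ℝ × ℝ} {s : V → ℝ} {I E : Set V}

open scoped Classical in
/-- No Gordan certificate exists. -/
theorem no_certificate [Fintype V] (hC : Comb F c) (hG : Good F c s) (hU : Upper F Fp c s I E)
    (D : SlotData F c) {n1 n2 n3 : V} (hn : (n1, n2, n3) ∈ F) (hN : Nt c n1 n2 n3)
    (y x : V → ℝ) (hy : ∀ v, 0 ≤ y v) (hx : ∀ v, 0 ≤ x v)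
    (hpos : (∃ v ∈ I, 0 < y v) ∨ ∃ v ∈ JJ c I E D, 0 < x v)
    (hcert : ∀ h : V → ℝ,
      (∑ v : V with v ∈ I, y v * Lf c (MM (JJ c I E D) h) v (D.A1 v) (D.A2 v)) +
      (∑ v : V with v ∈ JJ c I E D, x v * Lf c (MM (JJ c I E D) h) v (D.B1 v) (D.B2 v)) = 0) :
    False := by
  set J := JJ c I E D with hJ
  set K : V → ℝ := fun v => X (c v) (c (D.A1 v)) * X (c (D.A1 v)) (c (D.A2 v)) *
    X (c (D.A2 v)) (c v) with hK
  obtain ⟨σ, hσ0, hσ⟩ := exists_sigma hU D
    (fun v => if X (c v) (c (D.A2 v)) = 0 then 0 else y v * K v)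
  have hσv : ∀ u ∈ I, X (c u) (c (D.A2 u)) = 0 → σ u = σ (D.A2 u) := by
    intro u hu huz
    have h2 := hσ u hu
    rw [if_pos huz] at h2
    obtain ⟨hc, -, -⟩ := A_rho hC hG hU D hu huz
    rw [Lf_vert σ hc] at h2
    rcases mul_eq_zero.1 h2 with h3 | h3
    · linarith
    · exact (ne_of_lt (D.hA u).2.1 h3).elim
  have hσn : ∀ v, 0 ≤ σ v := by
    refine max_principle hU D σ hσ0 (fun v hv => ?_)
    rw [hσ v hv]
    by_cases hz : X (c v) (c (D.A2 v)) = 0
    · rw [if_pos hz]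
    · rw [if_neg hz]
      exact mul_nonneg (hy v) (A_kappa hC hU D hv hz).le
  have hqc : ∀ v ∈ I, X (c v) (c (D.A2 v)) ≠ 0 → qc c σ v (D.A1 v) (D.A2 v) = y v := by
    intro v hv hz
    rw [qc, if_neg hz, hσ v hv, if_neg hz]
    have := A_kappa hC hU D hv hz
    rw [mul_div_assoc, div_self (ne_of_gt this), mul_one]
  -- the difference functional
  set Dif : (V → ℝ) → ℝ := fun h =>
    (∑ v : V with v ∈ I, (y v - qc c σ v (D.A1 v) (D.A2 v)) * Lf c h v (D.A1 v) (D.A2 v)) +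
    (∑ v : V with v ∈ J, (x v - qc c σ v (D.B1 v) (D.B2 v)) * Lf c h v (D.B1 v) (D.B2 v))
    with hDif
  have hDif_id : ∀ h, Dif h = (∑ v : V with v ∈ I, y v * Lf c h v (D.A1 v) (D.A2 v)) +
      (∑ v : V with v ∈ J, x v * Lf c h v (D.B1 v) (D.B2 v)) +
      Lf c σ n1 n2 n3 * Lf c h n1 n2 n3 /
        (X (c n1) (c n2) * X (c n2) (c n3) * X (c n3) (c n1)) := by
    intro h
    have hid := identity hC hG hU D hn hN σ h hσ0 hσv
    simp only [hDif, sub_mul, Finset.sum_sub_distrib]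
    rw [← hJ] at hid
    linarith
  have hDif_sub : ∀ h h', Dif (h - h') = Dif h - Dif h' := by
    intro h h'
    have : ∀ a b x, Lf c (h - h') a b x = Lf c h a b x - Lf c h' a b x := by
      intro a b x; simp only [Lf, Pi.sub_apply]; ring
    simp only [hDif, this, mul_sub, Finset.sum_sub_distrib]
    ring
  have hDif_M : ∀ h, Dif (MM J h) = 0 := by
    intro h
    rw [hDif_id, hcert h]
    have z1 : MM J h n1 = 0 := MM_out h (nt_not_JJ D hn hN)
    have z2 : MM J h n2 = 0 := MM_out h (nt_not_JJ D (hC.rot hn) hN.rot)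
    have z3 : MM J h n3 = 0 := MM_out h (nt_not_JJ D (hC.rot' hn) hN.rot.rot)
    have : Lf c (MM J h) n1 n2 n3 = 0 := by simp [Lf, z1, z2, z3]
    rw [this]; simp
  have hDif_ker : ∀ h, (∀ v ∈ J, Lf c h v (D.B1 v) (D.B2 v) = 0) → Dif h = 0 := by
    intro h hh
    simp only [hDif]
    rw [Finset.sum_eq_zero, Finset.sum_eq_zero, add_zero]
    · intro v hv
      simp only [Finset.mem_filter, Finset.mem_univ, true_and] at hv
      rw [hh v hv, mul_zero]
    · intro v hv
      simp only [Finset.mem_filter, Finset.mem_univ, true_and] at hv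
      by_cases hz : X (c v) (c (D.A2 v)) = 0
      · obtain ⟨_, hJv, ρ, _, hρ⟩ := A_rho hC hG hU D hv hz
        rw [hρ, hh _ hJv, mul_zero, mul_zero]
      · rw [hqc v hv hz, sub_self, zero_mul]
  have hDif0 : ∀ h, Dif h = 0 := by
    intro h
    obtain ⟨z, hz⟩ := exists_lift hC hG hU D hn hN (fun v => Lf c h v (D.B1 v) (D.B2 v))
    have h1 := hDif_ker (h - MM J z) (by
      intro v hv
      have : Lf c (h - MM J z) v (D.B1 v) (D.B2 v) =
          Lf c h v (D.B1 v) (D.B2 v) - Lf c (MM J z) v (D.B1 v) (D.B2 v) := by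
        simp only [Lf, Pi.sub_apply]; ring
      rw [this, hz v hv, sub_self])
    rw [hDif_sub, hDif_M, sub_zero] at h1
    exact h1
  have hs := hDif0 s
  rw [hDif_id] at hs
  have hsN := hU.pos (hU.top hn hN)
  have hσN : 0 ≤ Lf c σ n1 n2 n3 := by
    simp only [Lf]
    have := mul_nonneg (hσn n1) hN.2.1.le
    have := mul_nonneg (hσn n2) hN.2.2.le
    have := mul_nonneg (hσn n3) hN.1.le
    linarith
  have h1 : 0 ≤ Lf c σ n1 n2 n3 * Lf c s n1 n2 n3 /
      (X (c n1) (c n2) * X (c n2) (c n3) * X (c n3) (c n1)) :=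
    div_nonneg (mul_nonneg hσN hsN.le) (mul_pos (mul_pos hN.1 hN.2.1) hN.2.2).le
  have t1 : ∀ v ∈ (Finset.univ.filter (fun v => v ∈ I)),
      0 ≤ y v * Lf c s v (D.A1 v) (D.A2 v) := by
    intro v hv
    simp only [Finset.mem_filter, Finset.mem_univ, true_and] at hv
    exact mul_nonneg (hy v) (hU.pos (hU.Amem D hv)).le
  have t2 : ∀ v ∈ (Finset.univ.filter (fun v => v ∈ J)),
      0 ≤ x v * Lf c s v (D.B1 v) (D.B2 v) := by
    intro v hv
    simp only [Finset.mem_filter, Finset.mem_univ, true_and] at hv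
    exact mul_nonneg (hx v) (hU.pos (hU.Bmem D hv.1)).le
  have h2 := Finset.sum_nonneg t1
  have h3 := Finset.sum_nonneg t2
  rcases hpos with ⟨v, hv, hvp⟩ | ⟨v, hv, hvp⟩
  · have h4 : 0 < ∑ v : V with v ∈ I, y v * Lf c s v (D.A1 v) (D.A2 v) :=
      Finset.sum_pos' t1 ⟨v, by simp [hv], mul_pos hvp (hU.pos (hU.Amem D hv))⟩
    linarith
  · have h4 : 0 < ∑ v : V with v ∈ J, x v * Lf c s v (D.B1 v) (D.B2 v) :=
      Finset.sum_pos' t2 ⟨v, by simp [hv], mul_pos hvp (hU.pos (hU.Bmem D hv.1))⟩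
    linarith

/-- The core theorem. -/
theorem core [Finite V] (hC : Comb F c) (hG : Good F c s) (hU : Upper F Fp c s I E) :
    ∃ h : V → ℝ, (∀ v, v ∈ I ∨ v ∈ E → 0 < h v) ∧
      ∀ a b x, (a, b, x) ∈ Fp → ¬ Nt c a b x → Lf c h a b x < 0 := by
  classical
  have := Fintype.ofFinite V
  obtain ⟨D⟩ := exists_slotData hC hG
  obtain ⟨n1, n2, n3, hn, hN⟩ := hC.nex
  set J := JJ c I E D with hJ
  set g : ({v // v ∈ I} ⊕ {v // v ∈ J}) → (V → ℝ) →ₗ[ℝ] ℝ := fun i => match i with
    | Sum.inl v => (LfL c v.1 (D.A1 v.1) (D.A2 v.1)).comp (MM J)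
    | Sum.inr v => (LfL c v.1 (D.B1 v.1) (D.B2 v.1)).comp (MM J) with hg
  rcases gordan g with ⟨h0, hh0⟩ | ⟨y, hy0, ⟨i, hi⟩, hy⟩
  · -- a strictly feasible direction
    set h := MM J h0 with hh
    have a1 : ∀ v ∈ I, Lf c h v (D.A1 v) (D.A2 v) < 0 := fun v hv => hh0 (Sum.inl ⟨v, hv⟩)
    have a2 : ∀ v ∈ J, Lf c h v (D.B1 v) (D.B2 v) < 0 := fun v hv => hh0 (Sum.inr ⟨v, hv⟩)
    have z1 : h n1 = 0 := MM_out h0 (nt_not_JJ D hn hN)
    have z2 : h n2 = 0 := MM_out h0 (nt_not_JJ D (hC.rot hn) hN.rot)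
    have z3 : h n3 = 0 := MM_out h0 (nt_not_JJ D (hC.rot' hn) hN.rot.rot)
    have zN : Lf c h n1 n2 n3 = 0 := by simp [Lf, z1, z2, z3]
    have hall := face_induction hC hU D hn hN (fun a b x => Lf c h a b x ≤ 0)
      (fun a b x hh => by rw [Lf_rot]; exact hh) (fun v hv => (a1 v hv).le)
      (fun v hv => (a2 v hv).le) zN.le
    have hneg := face_induction hC hU D hn hN (fun a b x => ¬ Nt c a b x → Lf c h a b x < 0)
      (fun a b x hh hr => by rw [Lf_rot]; exact hh (fun h' => hr h'.rot)) (fun v hv _ => a1 v hv)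
      (fun v hv _ => a2 v hv) (fun h' => (h' hN).elim)
    have hnn : ∀ v, 0 ≤ h v := by
      intro v
      by_cases hv : v ∈ J
      · have p1 := positivity_lemma hC hG hU D hn hN z1 z2 z3 hall hv
        have p2 : 0 ≤ - (Lf c h v (D.B1 v) (D.B2 v) / X (c (D.B2 v)) (c (D.B1 v))) := by
          rw [neg_nonneg]
          exact div_nonpos_of_nonpos_of_nonneg (a2 v hv).le (JJ_pos hC hU D hv).le
        linarith
      · rw [hh, MM_out h0 hv]
    -- lift by a small constant
    have e1 : ∀ t : V × V × V, ∀ᶠ ε in 𝓝[>] (0 : ℝ), t ∈ Fp → ¬ Nt c t.1 t.2.1 t.2.2 →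
        Lf c (fun v => h v + ε) t.1 t.2.1 t.2.2 < 0 := by
      rintro ⟨a, b, x⟩
      by_cases hf : (a, b, x) ∈ Fp ∧ ¬ Nt c a b x
      · have h1 : Tendsto (fun ε : ℝ => Lf c (fun v => h v + ε) a b x) (𝓝[>] 0)
            (𝓝 (Lf c (fun v => h v + 0) a b x)) := by
          have : Continuous (fun ε : ℝ => Lf c (fun v => h v + ε) a b x) := by
            unfold Lf; fun_prop
          exact (this.tendsto 0).mono_left nhdsWithin_le_nhds
        have h2 : Lf c (fun v => h v + 0) a b x < 0 := by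
          have : (fun v => h v + 0) = h := by ext v; simp
          rw [this]
          exact hneg a b x hf.1 hf.2
        filter_upwards [h1.eventually_lt_const h2] with ε hε _ _ using hε
      · filter_upwards with ε h1 h2
        exact (hf ⟨h1, h2⟩).elim
    have e2 := Filter.eventually_all.2 e1
    obtain ⟨ε, h1, h2⟩ := (e2.and self_mem_nhdsWithin).exists
    refine ⟨fun v => h v + ε, fun v _ => ?_, fun a b x hf hNt => h1 (a, b, x) hf hNt⟩
    have := hnn v
    have h3 : (0 : ℝ) < ε := h2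
    simp only
    linarith
  · exfalso
    set yy : V → ℝ := fun v => if hv : v ∈ I then y (Sum.inl ⟨v, hv⟩) else 0 with hyy
    set xx : V → ℝ := fun v => if hv : v ∈ J then y (Sum.inr ⟨v, hv⟩) else 0 with hxx
    refine no_certificate hC hG hU D hn hN yy xx ?_ ?_ ?_ ?_
    · intro v
      by_cases hv : v ∈ I
      · simp only [hyy, dif_pos hv]; exact hy0 _
      · simp only [hyy, dif_neg hv]; exact le_rfl
    · intro v
      by_cases hv : v ∈ J
      · simp only [hxx, dif_pos hv]; exact hy0 _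
      · simp only [hxx, dif_neg hv]; exact le_rfl
    · rcases i with ⟨v, hv⟩ | ⟨v, hv⟩
      · left
        refine ⟨v, hv, ?_⟩
        simp only [hyy, dif_pos hv]; exact hi
      · right
        refine ⟨v, hv, ?_⟩
        simp only [hxx, dif_pos hv]; exact hi
    · intro h
      have h1 := hy h
      rw [Fintype.sum_sum_type] at h1
      rw [← h1, ← hJ]
      congr 1
      · rw [Finset.sum_subtype (Finset.univ.filter (fun v => v ∈ I)) (p := fun v => v ∈ I)
          (by simp)]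
        refine Finset.sum_congr rfl (fun v _ => ?_)
        simp only [hyy, dif_pos v.2]
        rfl
      · rw [Finset.sum_subtype (Finset.univ.filter (fun v => v ∈ J)) (p := fun v => v ∈ J)
          (by simp)]
        refine Finset.sum_congr rfl (fun v _ => ?_)
        simp only [hxx, dif_pos v.2]
        rfl

end Pool.Agent.Work.MP_e680c3_co
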