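import Mathlib

/-!
# Shortest-path triangulations of the sphere and sinkability: definitions
-/

namespace Pool.Agent.Work.MP_e680c3_co

/-- The unit sphere of `ℝ³`. -/
def Sphere : Set (Fin 3 → ℝ) := {y | y 0 ^ 2 + y 1 ^ 2 + y 2 ^ 2 = 1}

/-- The determinant of three vectors. -/
def det3 (a b x : Fin 3 → ℝ) : ℝ :=
  a 0 * (b 1 * x 2 - b 2 * x 1) + a 1 * (b 2 * x 0 - b 0 * x 2) + a 2 * (b 0 * x 1 - b 1 * x 0)

/-- The shortest great-circle arc between two non-antipodal points `a`, `b` of the sphere
(endpoints included): the points of the sphere of the form `α a + β b` with `α, β ≥ 0`. -/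
def arc (a b : Fin 3 → ℝ) : Set (Fin 3 → ℝ) :=
  {y | y ∈ Sphere ∧ ∃ α β : ℝ, 0 ≤ α ∧ 0 ≤ β ∧ y = α • a + β • b}

/-- The open spherical triangle lying to the left of the closed curve `a → b → x → a` formed by
three shortest arcs. If `det (a, b, x) > 0` it is the small triangle with vertices `a, b, x`;
otherwise it is the complement of the closed triangle with these vertices
(an open hemisphere when `det (a, b, x) = 0` and the three arcs form a great circle). -/
def region (a b x : Fin 3 → ℝ) : Set (Fin 3 → ℝ) :=
  {y | y ∈ Sphere ∧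
    ((0 < det3 a b x ∧ 0 < det3 y b x ∧ 0 < det3 a y x ∧ 0 < det3 a b y) ∨
     (det3 a b x ≤ 0 ∧ (0 < det3 y b x ∨ 0 < det3 a y x ∨ 0 < det3 a b y)))}

/-- `IsTriangulation F p`: the points `p v` are the vertices of a shortest-path triangulation of
the sphere, and `F` is its set of faces, the triple `(a, b, x)` standing for the face with
vertices `a, b, x` whose boundary, traversed so that the face is on the left, is
`a → b → x → a`. The edges are the shortest arcs `arc (p a) (p b)` for `(a, b, x) ∈ F`. -/
structure IsTriangulation {V : Type*} (F : Set (V × V × V)) (p : V → Fin 3 → ℝ) : Prop where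
  /-- the vertices are points of the sphere -/
  mem_sphere : ∀ v, p v ∈ Sphere
  /-- distinct vertices are at distinct points -/
  injective : Function.Injective p
  /-- the three rotations of `(a, b, x)` stand for the same face -/
  rotate : ∀ a b x, (a, b, x) ∈ F → (b, x, a) ∈ F
  /-- the endpoints of an edge are distinct -/
  ne : ∀ a b x, (a, b, x) ∈ F → a ≠ b
  /-- every vertex is on a face -/
  vertex : ∀ v, ∃ a b, (v, a, b) ∈ F
  /-- the endpoints of an edge are not antipodal, so that its shortest arc is well defined -/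
  not_antipodal : ∀ a b x, (a, b, x) ∈ F → p a ≠ - p b
  /-- two distinct edges meet only at common endpoints -/
  edges_meet : ∀ a b x a' b' x', (a, b, x) ∈ F → (a', b', x') ∈ F →
    ¬ ((a = a' ∧ b = b') ∨ (a = b' ∧ b = a')) →
    ∀ y ∈ arc (p a) (p b), y ∈ arc (p a') (p b') →
      ∃ v, (v = a ∨ v = b) ∧ (v = a' ∨ v = b') ∧ y = p v
  /-- the open faces contain no point of an edge -/
  face_edge : ∀ a b x a' b' x', (a, b, x) ∈ F → (a', b', x') ∈ F →
    ∀ y ∈ region (p a) (p b) (p x), y ∉ arc (p a') (p b')
  /-- distinct open faces are disjoint -/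
  face_face : ∀ a b x a' b' x', (a, b, x) ∈ F → (a', b', x') ∈ F →
    ∀ y ∈ region (p a) (p b) (p x), y ∈ region (p a') (p b') (p x') →
      (a' = a ∧ b' = b ∧ x' = x) ∨ (a' = b ∧ b' = x ∧ x' = a) ∨ (a' = x ∧ b' = a ∧ x' = b)
  /-- the edges and the open faces cover the sphere -/
  cover : ∀ y ∈ Sphere, ∃ a b x, (a, b, x) ∈ F ∧
    (y ∈ arc (p a) (p b) ∨ y ∈ region (p a) (p b) (p x))

/-- The north pole. -/
def north : Fin 3 → ℝ := ![0, 0, 1]

/-- `p` and `q`, two points of the sphere other than the poles, are on the same longitude (open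
half great circle from the north pole to the south pole). -/
def SameLongitude (p q : Fin 3 → ℝ) : Prop := ∃ r : ℝ, 0 < r ∧ p 0 = r * q 0 ∧ p 1 = r * q 1

/-- Some great circle, with normal vector `n`, is crossed by no edge: no edge has points in both
open hemispheres bounded by it. -/
def HasUncrossedGreatCircle {V : Type*} (F : Set (V × V × V)) (p : V → Fin 3 → ℝ) : Prop :=
  ∃ n : Fin 3 → ℝ, n ≠ 0 ∧ ∀ a b x, (a, b, x) ∈ F →
    ¬ ((∃ y ∈ arc (p a) (p b), 0 < ∑ i, n i * y i) ∧ (∃ y ∈ arc (p a) (p b), ∑ i, n i * y i < 0))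

/-- The triangulation with faces `F` and vertices `p v` is sinkable: some longitudinal morph takes
all its vertices to the open southern hemisphere. The morph is a continuous family
`q t` (`0 ≤ t ≤ 1`) of shortest-path triangulations with the same faces `F`, starting at `p`, with
every vertex on its own longitude at all times, and with all the vertices of `q 1` in the open
southern hemisphere. -/
def Sinkable {V : Type*} (F : Set (V × V × V)) (p : V → Fin 3 → ℝ) : Prop :=
  ∃ q : ℝ → V → Fin 3 → ℝ, ContinuousOn q (Set.Icc 0 1) ∧ q 0 = p ∧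
    (∀ t ∈ Set.Icc (0 : ℝ) 1, IsTriangulation F (q t)) ∧
    (∀ t ∈ Set.Icc (0 : ℝ) 1, ∀ v, SameLongitude (q t v) (p v)) ∧
    ∀ v, q 1 v 2 < 0

end Pool.Agent.Work.MP_e680c3_co
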