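import Pool.Agent.Work.MP_e680c3_co.Slots

/-!
# Regions seen along a generic longitude
-/

open Filter Topology

namespace Pool.Agent.Work.MP_e680c3_co

variable {V : Type*} {F : Set (V × V × V)} {c : V → ℝ × ℝ} {s : V → ℝ} {d : ℝ × ℝ} {z : ℝ}

/-- `det (y, b, x)` for `y = (d, z)`. -/
def D1 (c : V → ℝ × ℝ) (s : V → ℝ) (d : ℝ × ℝ) (z : ℝ) (_a b x : V) : ℝ :=
  z * X (c b) (c x) + s b * X (c x) d + s x * X d (c b)

/-- `det (a, y, x)` for `y = (d, z)`. -/
def D2 (c : V → ℝ × ℝ) (s : V → ℝ) (d : ℝ × ℝ) (z : ℝ) (a _b x : V) : ℝ :=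
  s a * X d (c x) + z * X (c x) (c a) + s x * X (c a) d

/-- `det (a, b, y)` for `y = (d, z)`. -/
def D3 (c : V → ℝ × ℝ) (s : V → ℝ) (d : ℝ × ℝ) (z : ℝ) (a b _x : V) : ℝ :=
  s a * X (c b) d + s b * X d (c a) + z * X (c a) (c b)

/-- `(d, z)` is in the region of the face `a b x`. -/
def RegS (c : V → ℝ × ℝ) (s : V → ℝ) (d : ℝ × ℝ) (z : ℝ) (a b x : V) : Prop :=
  (0 < Lf c s a b x ∧ 0 < D1 c s d z a b x ∧ 0 < D2 c s d z a b x ∧ 0 < D3 c s d z a b x) ∨
  (Lf c s a b x ≤ 0 ∧ (0 < D1 c s d z a b x ∨ 0 < D2 c s d z a b x ∨ 0 < D3 c s d z a b x))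

theorem D1_rot (a b x : V) : D1 c s d z b x a = D2 c s d z a b x := by
  simp only [D1, D2]; ring

theorem D2_rot (a b x : V) : D2 c s d z b x a = D3 c s d z a b x := by
  simp only [D2, D3]; ring

theorem D3_rot (a b x : V) : D3 c s d z b x a = D1 c s d z a b x := by
  simp only [D1, D3]; ring

theorem RegS.rot {a b x : V} (h : RegS c s d z a b x) : RegS c s d z b x a := by
  unfold RegS at h ⊢
  rw [Lf_rot, D1_rot a b x, D2_rot a b x, D3_rot a b x]
  tauto

theorem P1 (a b x : V) : D1 c s d z a b x * X (c a) (c b) =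
    X d (c b) * Lf c s a b x + D3 c s d z a b x * X (c b) (c x) := by
  simp only [D1, D3, Lf, X]; ring

theorem P2 (a b x : V) : D2 c s d z a b x * X (c a) (c b) =
    X (c a) d * Lf c s a b x + D3 c s d z a b x * X (c x) (c a) := by
  simp only [D2, D3, Lf, X]; ring

theorem P1' (a b x : V) : D2 c s d z a b x * X (c b) (c x) =
    X d (c x) * Lf c s a b x + D1 c s d z a b x * X (c x) (c a) := by
  simp only [D1, D2, Lf, X]; ring

theorem P2' (a b x : V) : D3 c s d z a b x * X (c b) (c x) =
    X (c b) d * Lf c s a b x + D1 c s d z a b x * X (c a) (c b) := by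
  simp only [D1, D3, Lf, X]; ring

theorem P1'' (a b x : V) : D3 c s d z a b x * X (c x) (c a) =
    X d (c a) * Lf c s a b x + D2 c s d z a b x * X (c a) (c b) := by
  simp only [D2, D3, Lf, X]; ring

theorem P2'' (a b x : V) : D1 c s d z a b x * X (c x) (c a) =
    X (c x) d * Lf c s a b x + D2 c s d z a b x * X (c b) (c x) := by
  simp only [D1, D2, Lf, X]; ring

theorem P3 (a b x : V) : D1 c s d z a b x * X (c a) d + D2 c s d z a b x * X (c b) d +
    D3 c s d z a b x * X (c x) d = 0 := by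
  simp only [D1, D2, D3, X]; ring

theorem D3_H {a b x : V} (h : X (c a) (c b) ≠ 0) :
    D3 c s d z a b x = (z - H c s d a b) * X (c a) (c b) := by
  rw [sub_mul, H_mul h]; simp only [D3, X]; ring

theorem D1_H {a b x : V} (h : X (c x) (c b) ≠ 0) :
    D1 c s d z a b x = (H c s d x b - z) * X (c x) (c b) := by
  rw [sub_mul, H_mul h]; simp only [D1, X]; ring

theorem D2_H {a b x : V} (h : X (c a) (c x) ≠ 0) :
    D2 c s d z a b x = (H c s d a x - z) * X (c a) (c x) := by
  rw [sub_mul, H_mul h]; simp only [D2, X]; ring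

/-- The floor and the ceiling of the point in its face. -/
def Loc (F : Set (V × V × V)) (c : V → ℝ × ℝ) (s : V → ℝ) (d : ℝ × ℝ) (z : ℝ) (a b : V) : Prop :=
  (Cr c d a b ∧ H c s d a b < z ∧ ∀ e', Up F c d (a, b) e' → z < H c s d e'.1 e'.2) ∨
  (Cr c d b a ∧ z < H c s d b a ∧ ¬ ∃ g, Up F c d g (b, a))

theorem polar_of_nonpos (hG : Good F c s) {a b x : V} (hf : (a, b, x) ∈ F)
    (hL : Lf c s a b x ≤ 0) : Nt c a b x ∨ St c a b x := by
  rcases hG a b x hf with h | h | h
  · exact Or.inl h
  · exact Or.inr h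
  · linarith

theorem regChar0 (hC : Comb F c) (hG : Good F c s) (hd : Gen c d) {a b x : V}
    (hf : (a, b, x) ∈ F) (hR : RegS c s d z a b x) (ha : 0 < X (c a) d) (hb : X (c b) d < 0) :
    ∃ a' b' x', Rot3 a b x a' b' x' ∧ Loc F c s d z a' b' := by
  have hdb : 0 < X d (c b) := by rw [X_swap]; linarith
  have hda : X d (c a) < 0 := by rw [X_swap]; linarith
  by_cases hab : 0 < X (c a) (c b)
  · refine ⟨a, b, x, Or.inl ⟨rfl, rfl, rfl⟩, Or.inl ⟨⟨ha, hdb, hab⟩, ?_, ?_⟩⟩
    · have h3 : 0 < D3 c s d z a b x := by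
        rcases hR with ⟨_, _, _, h⟩ | ⟨hL, h⟩
        · exact h
        · by_contra hn
          push Not at hn
          have hN : Nt c a b x := by
            rcases polar_of_nonpos hG hf hL with h | h
            · exact h
            · exfalso; linarith [h.1]
          have e1 := P1 (c := c) (s := s) (d := d) (z := z) a b x
          have e2 := P2 (c := c) (s := s) (d := d) (z := z) a b x
          have k1 := mul_nonneg hdb.le (neg_nonneg.2 hL)
          have k2 := mul_nonneg ha.le (neg_nonneg.2 hL)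
          have k3 := mul_nonneg (neg_nonneg.2 hn) hN.2.1.le
          have k4 := mul_nonneg (neg_nonneg.2 hn) hN.2.2.le
          rcases h with h | h | h
          · have := mul_pos h hab; linarith
          · have := mul_pos h hab; linarith
          · linarith
      rw [D3_H (ne_of_gt hab)] at h3
      have := (mul_pos_iff_of_pos_right hab).1 h3
      linarith
    · intro e' hup
      obtain ⟨x', hf', hcr, hor⟩ := hup
      have hx := hC.uniq hf hf'
      subst hx
      have hL : 0 < Lf c s a b x := Up.pos hG hf hcr (by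
        rcases hor with h | h
        · exact Or.inl h.2
        · exact Or.inr h.2)
      rcases hR with ⟨_, h1, h2, _⟩ | ⟨h, _⟩
      · rcases hor with ⟨rfl, h⟩ | ⟨rfl, h⟩
        · simp only at h ⊢
          rw [D1_H (ne_of_gt h.2.2)] at h1
          have := (mul_pos_iff_of_pos_right h.2.2).1 h1
          linarith
        · simp only at h ⊢
          rw [D2_H (ne_of_gt h.2.2)] at h2
          have := (mul_pos_iff_of_pos_right h.2.2).1 h2
          linarith
      · linarith
  · push Not at hab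
    have hSt : Lf c s a b x ≤ 0 → St c a b x := by
      intro hL
      rcases polar_of_nonpos hG hf hL with h | h
      · exfalso; linarith [h.1]
      · exact h
    rcases lt_or_gt_of_ne (hd x) with hx | hx
    · -- x on the east side : the upper edge is `a x`
      have hdx : 0 < X d (c x) := by rw [X_swap]; linarith
      have hax : 0 < X (c a) (c x) := by
        rcases hR with ⟨hL, h1, h2, h3⟩ | ⟨hL, h⟩
        · have e2 := P2 (c := c) (s := s) (d := d) (z := z) a b x
          rw [X_swap (c x) (c a)] at e2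
          have k1 := mul_pos ha hL
          have k2 := mul_nonneg h2.le (neg_nonneg.2 hab)
          have k3 : 0 < D3 c s d z a b x * X (c a) (c x) := by linarith
          exact (mul_pos_iff_of_pos_left h3).1 k3
        · have := (hSt hL).2.2; rw [X_swap] at this; linarith
      refine ⟨x, a, b, Or.inr (Or.inr ⟨rfl, rfl, rfl⟩), Or.inr ⟨⟨ha, hdx, hax⟩, ?_, ?_⟩⟩
      · have h3 : 0 < D2 c s d z a b x := by
          rcases hR with ⟨_, _, h, _⟩ | ⟨hL, h⟩
          · exact h
          · by_contra hn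
            push Not at hn
            have hS := hSt hL
            have e1 := P1'' (c := c) (s := s) (d := d) (z := z) a b x
            have e2 := P2'' (c := c) (s := s) (d := d) (z := z) a b x
            have k1 := mul_nonneg_of_nonpos_of_nonpos hda.le hL
            have k2 := mul_nonneg_of_nonpos_of_nonpos hx.le hL
            have k3 := mul_nonneg_of_nonpos_of_nonpos hn hS.1.le
            have k4 := mul_nonneg_of_nonpos_of_nonpos hn hS.2.1.le
            rcases h with h | h | h
            · have := mul_neg_of_pos_of_neg h hS.2.2; linarith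
            · linarith
            · have := mul_neg_of_pos_of_neg h hS.2.2; linarith
        rw [D2_H (ne_of_gt hax)] at h3
        have := (mul_pos_iff_of_pos_right hax).1 h3
        linarith
      · rintro ⟨⟨g1, g2⟩, w, hw, hcr, (⟨h1, h2⟩ | ⟨h1, h2⟩)⟩
        · obtain ⟨rfl, rfl⟩ := Prod.mk.inj h1
          have h3 := hC.uniq (hC.rot hw) (hC.rot' hf)
          have h4 := hcr.1
          simp only at h3 h4
          rw [h3] at h4
          linarith
        · obtain ⟨rfl, rfl⟩ := Prod.mk.inj h1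
          have h3 := hC.uniq (hC.rot' hw) (hC.rot' hf)
          have h4 := hcr.2.2
          simp only at h3 h4
          rw [h3] at h4
          linarith
    · have hdx : X d (c x) < 0 := by rw [X_swap]; linarith
      have hxb : 0 < X (c x) (c b) := by
        rcases hR with ⟨hL, h1, h2, h3⟩ | ⟨hL, h⟩
        · have e2 := P1 (c := c) (s := s) (d := d) (z := z) a b x
          rw [X_swap (c b) (c x)] at e2
          have k1 := mul_pos hdb hL
          have k2 := mul_nonneg h1.le (neg_nonneg.2 hab)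
          have k3 : 0 < D3 c s d z a b x * X (c x) (c b) := by linarith
          exact (mul_pos_iff_of_pos_left h3).1 k3
        · have := (hSt hL).2.1; rw [X_swap] at this; linarith
      refine ⟨b, x, a, Or.inr (Or.inl ⟨rfl, rfl, rfl⟩), Or.inr ⟨⟨hx, hdb, hxb⟩, ?_, ?_⟩⟩
      · have h3 : 0 < D1 c s d z a b x := by
          rcases hR with ⟨_, h, _, _⟩ | ⟨hL, h⟩
          · exact h
          · by_contra hn
            push Not at hn
            have hS := hSt hL
            have e1 := P1' (c := c) (s := s) (d := d) (z := z) a b x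
            have e2 := P2' (c := c) (s := s) (d := d) (z := z) a b x
            have k1 := mul_nonneg_of_nonpos_of_nonpos hdx.le hL
            have k2 := mul_nonneg_of_nonpos_of_nonpos hb.le hL
            have k3 := mul_nonneg_of_nonpos_of_nonpos hn hS.2.2.le
            have k4 := mul_nonneg_of_nonpos_of_nonpos hn hS.1.le
            rcases h with h | h | h
            · linarith
            · have := mul_neg_of_pos_of_neg h hS.2.1; linarith
            · have := mul_neg_of_pos_of_neg h hS.2.1; linarith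
        rw [D1_H (ne_of_gt hxb)] at h3
        have := (mul_pos_iff_of_pos_right hxb).1 h3
        linarith
      · rintro ⟨⟨g1, g2⟩, w, hw, hcr, (⟨h1, h2⟩ | ⟨h1, h2⟩)⟩
        · obtain ⟨rfl, rfl⟩ := Prod.mk.inj h1
          have h3 := hC.uniq (hC.rot hw) (hC.rot hf)
          have h4 := hcr.2.2
          simp only at h3 h4
          rw [h3] at h4
          linarith
        · obtain ⟨rfl, rfl⟩ := Prod.mk.inj h1
          have h3 := hC.uniq (hC.rot' hw) (hC.rot hf)
          have h4 := hcr.2.1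
          simp only at h3 h4
          rw [h3] at h4
          linarith

theorem Rot3.trans1 {a b x a' b' x' : V} (h : Rot3 b x a a' b' x') : Rot3 a b x a' b' x' := by
  unfold Rot3 at h ⊢
  rcases h with ⟨rfl, rfl, rfl⟩ | ⟨rfl, rfl, rfl⟩ | ⟨rfl, rfl, rfl⟩ <;> simp

theorem Rot3.mem (hC : Comb F c) {a b x a' b' x' : V} (h : Rot3 a b x a' b' x')
    (hf : (a, b, x) ∈ F) : (a', b', x') ∈ F := by
  rcases h with ⟨rfl, rfl, rfl⟩ | ⟨rfl, rfl, rfl⟩ | ⟨rfl, rfl, rfl⟩
  · exact hf
  · exact hC.rot hf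
  · exact hC.rot' hf

theorem regChar (hC : Comb F c) (hG : Good F c s) (hd : Gen c d) {a b x : V}
    (hf : (a, b, x) ∈ F) (hR : RegS c s d z a b x) :
    ∃ a' b' x', Rot3 a b x a' b' x' ∧ Loc F c s d z a' b' := by
  have hns1 : ¬ (0 < X (c a) d ∧ 0 < X (c b) d ∧ 0 < X (c x) d) := by
    rintro ⟨h1, h2, h3⟩
    rcases hR with ⟨hL, k1, k2, k3⟩ | ⟨hL, h⟩
    · have := P3 (c := c) (s := s) (d := d) (z := z) a b x
      have := mul_pos k1 h1; have := mul_pos k2 h2; have := mul_pos k3 h3
      linarith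
    · have gp := X_gp (c a) (c b) (c x) d
      rcases polar_of_nonpos hG hf hL with h | h
      · have := mul_pos h.1 h3; have := mul_pos h.2.1 h1; have := mul_pos h.2.2 h2
        linarith
      · have := mul_neg_of_neg_of_pos h.1 h3; have := mul_neg_of_neg_of_pos h.2.1 h1
        have := mul_neg_of_neg_of_pos h.2.2 h2
        linarith
  have hns2 : ¬ (X (c a) d < 0 ∧ X (c b) d < 0 ∧ X (c x) d < 0) := by
    rintro ⟨h1, h2, h3⟩
    rcases hR with ⟨hL, k1, k2, k3⟩ | ⟨hL, h⟩
    · have := P3 (c := c) (s := s) (d := d) (z := z) a b x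
      have := mul_neg_of_pos_of_neg k1 h1; have := mul_neg_of_pos_of_neg k2 h2
      have := mul_neg_of_pos_of_neg k3 h3
      linarith
    · have gp := X_gp (c a) (c b) (c x) d
      rcases polar_of_nonpos hG hf hL with h | h
      · have := mul_neg_of_pos_of_neg h.1 h3; have := mul_neg_of_pos_of_neg h.2.1 h1
        have := mul_neg_of_pos_of_neg h.2.2 h2
        linarith
      · have := mul_pos_of_neg_of_neg h.1 h3; have := mul_pos_of_neg_of_neg h.2.1 h1
        have := mul_pos_of_neg_of_neg h.2.2 h2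
        linarith
  rcases lt_or_gt_of_ne (hd a) with ha | ha <;> rcases lt_or_gt_of_ne (hd b) with hb | hb <;>
    rcases lt_or_gt_of_ne (hd x) with hx | hx
  · exact (hns2 ⟨ha, hb, hx⟩).elim
  · -- (x, a)
    obtain ⟨a', b', x', h1, h2⟩ := regChar0 hC hG hd (hC.rot' hf) hR.rot.rot hx ha
    exact ⟨a', b', x', h1.trans1.trans1, h2⟩
  · obtain ⟨a', b', x', h1, h2⟩ := regChar0 hC hG hd (hC.rot hf) hR.rot hb hx
    exact ⟨a', b', x', h1.trans1, h2⟩
  · obtain ⟨a', b', x', h1, h2⟩ := regChar0 hC hG hd (hC.rot' hf) hR.rot.rot hx ha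
    exact ⟨a', b', x', h1.trans1.trans1, h2⟩
  · exact regChar0 hC hG hd hf hR ha hb
  · exact regChar0 hC hG hd hf hR ha hb
  · obtain ⟨a', b', x', h1, h2⟩ := regChar0 hC hG hd (hC.rot hf) hR.rot hb hx
    exact ⟨a', b', x', h1.trans1, h2⟩
  · exact (hns1 ⟨ha, hb, hx⟩).elim

/-- A located point is unique. -/
theorem loc_unique [Finite V] (hC : Comb F c) (hG : Good F c s) (hd : Gen c d)
    {a b x a' b' x' : V} (hf : (a, b, x) ∈ F) (hf' : (a', b', x') ∈ F)
    (h : Loc F c s d z a b) (h' : Loc F c s d z a' b') : a = a' ∧ b = b' := by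
  have low : ∀ {a b x a' b' x' : V}, (a, b, x) ∈ F → (a', b', x') ∈ F →
      (Cr c d a b ∧ H c s d a b < z ∧ ∀ e', Up F c d (a, b) e' → z < H c s d e'.1 e'.2) →
      (Cr c d a' b' ∧ H c s d a' b' < z) → (a, b) ≠ (a', b') →
      ¬ Relation.ReflTransGen (Up F c d) (a, b) (a', b') := by
    intro a b x a' b' x' hf hf' h h' hne hr
    rcases Relation.ReflTransGen.cases_head hr with h1 | ⟨g, h1, h2⟩
    · exact hne h1
    · have h3 := h.2.2 g h1
      have h4 := reach_le hG h2
      simp only at h4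
      linarith [h'.2]
  rcases h with h | h <;> rcases h' with h' | h'
  · have m1 : (a, b) ∈ Ed F c d := ⟨h.1, x, hf⟩
    have m2 : (a', b') ∈ Ed F c d := ⟨h'.1, x', hf'⟩
    by_contra hne
    have hne' : (a, b) ≠ (a', b') := by
      intro he; exact hne (Prod.mk.inj he)
    rcases chain_total hC hG hd m1 m2 with hr | hr
    · exact low hf hf' h ⟨h'.1, h'.2.1⟩ hne' hr
    · exact low hf' hf h' ⟨h.1, h.2.1⟩ hne'.symm hr
  · exfalso
    obtain ⟨y', hy'⟩ := hC.symm hf'
    have m1 : (a, b) ∈ Ed F c d := ⟨h.1, x, hf⟩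
    have m2 : (b', a') ∈ Ed F c d := ⟨h'.1, y', hy'⟩
    rcases chain_total hC hG hd m1 m2 with hr | hr
    · rcases Relation.ReflTransGen.cases_tail hr with h1 | ⟨g, h1, h2⟩
      · obtain ⟨rfl, rfl⟩ := Prod.mk.inj h1
        linarith [h.2.1, h'.2.1]
      · exact h'.2.2 ⟨g, h2⟩
    · have := reach_le hG hr
      simp only at this
      linarith [h.2.1, h'.2.1]
  · exfalso
    obtain ⟨y, hy⟩ := hC.symm hf
    have m1 : (b, a) ∈ Ed F c d := ⟨h.1, y, hy⟩
    have m2 : (a', b') ∈ Ed F c d := ⟨h'.1, x', hf'⟩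
    rcases chain_total hC hG hd m2 m1 with hr | hr
    · rcases Relation.ReflTransGen.cases_tail hr with h1 | ⟨g, h1, h2⟩
      · obtain ⟨rfl, rfl⟩ := Prod.mk.inj h1
        linarith [h.2.1, h'.2.1]
      · exact h.2.2 ⟨g, h2⟩
    · have := reach_le hG hr
      simp only at this
      linarith [h.2.1, h'.2.1]
  · obtain ⟨y', hy'⟩ := hC.symm hf'
    obtain ⟨y, hy⟩ := hC.symm hf
    have m1 : (b, a) ∈ Ed F c d := ⟨h.1, y, hy⟩
    have m2 : (b', a') ∈ Ed F c d := ⟨h'.1, y', hy'⟩
    rcases chain_total hC hG hd m1 m2 with hr | hr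
    · rcases Relation.ReflTransGen.cases_tail hr with h1 | ⟨g, h1, h2⟩
      · obtain ⟨rfl, rfl⟩ := Prod.mk.inj h1
        exact ⟨rfl, rfl⟩
      · exact (h'.2.2 ⟨g, h2⟩).elim
    · rcases Relation.ReflTransGen.cases_tail hr with h1 | ⟨g, h1, h2⟩
      · obtain ⟨rfl, rfl⟩ := Prod.mk.inj h1
        exact ⟨rfl, rfl⟩
      · exact (h.2.2 ⟨g, h2⟩).elim

theorem Rot3.symm {a b x a' b' x' : V} (h : Rot3 a b x a' b' x') : Rot3 a' b' x' a b x := by
  unfold Rot3 at h ⊢
  rcases h with ⟨rfl, rfl, rfl⟩ | ⟨rfl, rfl, rfl⟩ | ⟨rfl, rfl, rfl⟩ <;> simp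

theorem Rot3.trans {a b x a' b' x' a'' b'' x'' : V} (h : Rot3 a b x a' b' x')
    (h' : Rot3 a' b' x' a'' b'' x'') : Rot3 a b x a'' b'' x'' := by
  unfold Rot3 at h h' ⊢
  rcases h with ⟨rfl, rfl, rfl⟩ | ⟨rfl, rfl, rfl⟩ | ⟨rfl, rfl, rfl⟩ <;>
    rcases h' with ⟨rfl, rfl, rfl⟩ | ⟨rfl, rfl, rfl⟩ | ⟨rfl, rfl, rfl⟩ <;> simp

/-- A generic point is in at most one region. -/
theorem gen_unique [Finite V] (hC : Comb F c) (hG : Good F c s) (hd : Gen c d)
    {a b x a' b' x' : V} (hf : (a, b, x) ∈ F) (hf' : (a', b', x') ∈ F)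
    (h : RegS c s d z a b x) (h' : RegS c s d z a' b' x') : Rot3 a b x a' b' x' := by
  obtain ⟨a1, b1, x1, r1, l1⟩ := regChar hC hG hd hf h
  obtain ⟨a2, b2, x2, r2, l2⟩ := regChar hC hG hd hf' h'
  have m1 := r1.mem hC hf
  have m2 := r2.mem hC hf'
  obtain ⟨rfl, rfl⟩ := loc_unique hC hG hd m1 m2 l1 l2
  have := hC.uniq m1 m2
  subst this
  exact r1.trans r2.symm

/-- A located point is not on a crossing edge. -/
theorem loc_off [Finite V] (hC : Comb F c) (hG : Good F c s) (hd : Gen c d)
    {a b x : V} (hf : (a, b, x) ∈ F) (h : Loc F c s d z a b) {e : V × V} (he : e ∈ Ed F c d) :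
    z ≠ H c s d e.1 e.2 := by
  rintro rfl
  rcases h with h | h
  · have m1 : (a, b) ∈ Ed F c d := ⟨h.1, x, hf⟩
    rcases chain_total hC hG hd m1 he with hr | hr
    · rcases Relation.ReflTransGen.cases_head hr with h1 | ⟨g, h1, h2⟩
      · rw [← h1] at h
        exact lt_irrefl _ h.2.1
      · have := h.2.2 g h1
        have := reach_le hG h2
        linarith
    · have := reach_le hG hr
      simp only at this
      linarith [h.2.1]
  · obtain ⟨y, hy⟩ := hC.symm hf
    have m1 : (b, a) ∈ Ed F c d := ⟨h.1, y, hy⟩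
    rcases chain_total hC hG hd m1 he with hr | hr
    · have := reach_le hG hr
      simp only at this
      linarith [h.2.1]
    · rcases Relation.ReflTransGen.cases_tail hr with h1 | ⟨g, h1, h2⟩
      · rw [← h1] at h
        exact lt_irrefl _ h.2.1
      · exact h.2.2 ⟨g, h2⟩

theorem gen_off [Finite V] (hC : Comb F c) (hG : Good F c s) (hd : Gen c d)
    {a b x : V} (hf : (a, b, x) ∈ F) (h : RegS c s d z a b x) {e : V × V} (he : e ∈ Ed F c d) :
    z ≠ H c s d e.1 e.2 := by
  obtain ⟨a1, b1, x1, r1, l1⟩ := regChar hC hG hd hf h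
  exact loc_off hC hG hd (r1.mem hC hf) l1 he

/-- Converse of `regChar`, floor case. -/
theorem reg_of_floor (hC : Comb F c) (hG : Good F c s) (hd : Gen c d) {a b x : V}
    (hf : (a, b, x) ∈ F) (hcr : Cr c d a b) (hz : H c s d a b < z)
    (hup : ∀ e', Up F c d (a, b) e' → z < H c s d e'.1 e'.2) : RegS c s d z a b x := by
  have h3 : 0 < D3 c s d z a b x := by
    rw [D3_H (ne_of_gt hcr.2.2)]
    exact mul_pos (by linarith) hcr.2.2
  have e1 := P1 (c := c) (s := s) (d := d) (z := z) a b x
  have e2 := P2 (c := c) (s := s) (d := d) (z := z) a b x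
  have e3 := P1' (c := c) (s := s) (d := d) (z := z) a b x
  have e4 := P2'' (c := c) (s := s) (d := d) (z := z) a b x
  by_cases hN : Nt c a b x
  · by_cases hL : 0 < Lf c s a b x
    · left
      refine ⟨hL, ?_, ?_, h3⟩
      · have k1 := mul_pos hcr.2.1 hL
        have k2 := mul_pos h3 hN.2.1
        exact (mul_pos_iff_of_pos_right hcr.2.2).1 (by linarith)
      · have k1 := mul_pos hcr.1 hL
        have k2 := mul_pos h3 hN.2.2
        exact (mul_pos_iff_of_pos_right hcr.2.2).1 (by linarith)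
    · push Not at hL
      exact Or.inr ⟨hL, Or.inr (Or.inr h3)⟩
  · have hor := exists_upper hC hd hf hcr hN
    have hL := Up.pos hG hf hcr hor
    left
    refine ⟨hL, ?_, ?_, h3⟩
    · rcases hor with h | h
      · have hz' := hup (x, b) ⟨x, hf, hcr, Or.inl ⟨rfl, h⟩⟩
        simp only at hz'
        rw [D1_H (ne_of_gt h.2.2)]
        exact mul_pos (by linarith) h.2.2
      · have hz' := hup (a, x) ⟨x, hf, hcr, Or.inr ⟨rfl, h⟩⟩
        simp only at hz'
        have h2 : 0 < D2 c s d z a b x := by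
          rw [D2_H (ne_of_gt h.2.2)]
          exact mul_pos (by linarith) h.2.2
        by_cases hbx : 0 ≤ X (c b) (c x)
        · have k1 := mul_pos hcr.2.1 hL
          have k2 := mul_nonneg h3.le hbx
          exact (mul_pos_iff_of_pos_right hcr.2.2).1 (by linarith)
        · push Not at hbx
          have k1 : X (c x) d < 0 := by rw [X_swap]; linarith [h.2.1]
          have k2 := mul_neg_of_neg_of_pos k1 hL
          have k3 := mul_neg_of_pos_of_neg h2 hbx
          have k4 : X (c x) (c a) < 0 := by rw [X_swap]; linarith [h.2.2]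
          by_contra hn
          push Not at hn
          have := mul_nonneg_of_nonpos_of_nonpos hn k4.le
          linarith
    · rcases hor with h | h
      · have hz' := hup (x, b) ⟨x, hf, hcr, Or.inl ⟨rfl, h⟩⟩
        simp only at hz'
        have h1 : 0 < D1 c s d z a b x := by
          rw [D1_H (ne_of_gt h.2.2)]
          exact mul_pos (by linarith) h.2.2
        by_cases hxa : 0 ≤ X (c x) (c a)
        · have k1 := mul_pos hcr.1 hL
          have k2 := mul_nonneg h3.le hxa
          exact (mul_pos_iff_of_pos_right hcr.2.2).1 (by linarith)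
        · push Not at hxa
          have k1 : X d (c x) < 0 := by rw [X_swap]; linarith [h.1]
          have k2 := mul_neg_of_neg_of_pos k1 hL
          have k3 := mul_neg_of_pos_of_neg h1 hxa
          have k4 : X (c b) (c x) < 0 := by rw [X_swap]; linarith [h.2.2]
          by_contra hn
          push Not at hn
          have := mul_nonneg_of_nonpos_of_nonpos hn k4.le
          linarith
      · have hz' := hup (a, x) ⟨x, hf, hcr, Or.inr ⟨rfl, h⟩⟩
        simp only at hz'
        rw [D2_H (ne_of_gt h.2.2)]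
        exact mul_pos (by linarith) h.2.2

/-- Converse of `regChar`, bottom case. -/
theorem reg_of_bottom (hC : Comb F c) (hd : Gen c d) {a b w : V}
    (hf : (b, a, w) ∈ F) (hcr : Cr c d a b) (hz : z < H c s d a b)
    (hlow : ¬ ∃ g, Up F c d g (a, b)) : RegS c s d z b a w := by
  have hba : X (c b) (c a) < 0 := by rw [X_swap]; linarith [hcr.2.2]
  have h3 : 0 < D3 c s d z b a w := by
    rw [D3_H (ne_of_lt hba)]
    have : H c s d b a = H c s d a b := by
      rw [H, H, X_swap (c b) (c a), X_swap (c b) d, X_swap d (c a)]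
      have := ne_of_gt hcr.2.2
      field_simp
      ring
    rw [this]
    exact mul_pos_of_neg_of_neg (by linarith) hba
  by_cases hL : 0 < Lf c s b a w
  · have e1 := P1 (c := c) (s := s) (d := d) (z := z) b a w
    have e2 := P2 (c := c) (s := s) (d := d) (z := z) b a w
    have gp := X_gp (c a) (c b) (c w) d
    have n1 : ¬ Cr c d w b := fun h => hlow ⟨(w, b), a, hC.rot' hf, h, Or.inl ⟨rfl, hcr⟩⟩
    have n2 : ¬ Cr c d a w := fun h => hlow ⟨(a, w), b, hC.rot hf, h, Or.inr ⟨rfl, hcr⟩⟩
    have hbd : X (c b) d < 0 := by rw [X_swap]; linarith [hcr.2.1]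
    have hAW : X (c a) (c w) ≤ 0 := by
      by_contra hn
      push Not at hn
      have hwd : 0 < X (c w) d := by
        rcases lt_or_gt_of_ne (hd w) with h | h
        · exact (n2 ⟨hcr.1, by rw [X_swap]; linarith, hn⟩).elim
        · exact h
      have hwb : X (c w) (c b) ≤ 0 := by
        by_contra hh
        push Not at hh
        exact n1 ⟨hwd, hcr.2.1, hh⟩
      rcases hwb.eq_or_lt with h0 | h0
      · rcases hC.noN (hC.rot' hf) h0 with h4 | ⟨h4, h5⟩
        · rw [h4] at hwd; linarith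
        · rw [h4] at hn
          have : X (c a) (-c b) = - X (c a) (c b) := by
            simp only [X, Prod.fst_neg, Prod.snd_neg]; ring
          rw [this] at hn
          linarith [hcr.2.2]
      · have k1 : 0 < X (c b) (c w) * X (c a) d := mul_pos (by rw [X_swap]; linarith) hcr.1
        have k2 : 0 < X (c w) (c a) * X (c b) d :=
          mul_pos_of_neg_of_neg (by rw [X_swap]; linarith) hbd
        have k3 := mul_pos hcr.2.2 hwd
        linarith
    have hWB : X (c w) (c b) ≤ 0 := by
      by_contra hn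
      push Not at hn
      have hwd : X (c w) d < 0 := by
        rcases lt_or_gt_of_ne (hd w) with h | h
        · exact h
        · exact (n1 ⟨h, hcr.2.1, hn⟩).elim
      have hdw : 0 < X d (c w) := by rw [X_swap]; linarith
      rcases hAW.eq_or_lt with h0 | h0
      · rcases hC.noN (hC.rot hf) h0 with h4 | ⟨h4, h5⟩
        · rw [← h4] at hwd; linarith [hcr.1]
        · linarith
      · have k1 : X (c b) (c w) * X (c a) d < 0 :=
          mul_neg_of_neg_of_pos (by rw [X_swap]; linarith) hcr.1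
        have k2 : X (c w) (c a) * X (c b) d < 0 :=
          mul_neg_of_pos_of_neg (by rw [X_swap]; linarith) hbd
        have k3 := mul_neg_of_pos_of_neg hcr.2.2 hwd
        linarith
    have hda : X d (c a) < 0 := by rw [X_swap]; linarith [hcr.1]
    left
    refine ⟨hL, ?_, ?_, h3⟩
    · have k1 := mul_neg_of_neg_of_pos hda hL
      have k2 := mul_nonneg h3.le (neg_nonneg.2 hAW)
      by_contra hn
      push Not at hn
      have := mul_nonneg_of_nonpos_of_nonpos hn hba.le
      linarith
    · have k1 := mul_neg_of_neg_of_pos hbd hL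
      have k2 := mul_nonneg h3.le (neg_nonneg.2 hWB)
      by_contra hn
      push Not at hn
      have := mul_nonneg_of_nonpos_of_nonpos hn hba.le
      linarith
  · push Not at hL
    exact Or.inr ⟨hL, Or.inr (Or.inr h3)⟩

theorem ed_nonempty (hC : Comb F c) (hd : Gen c d) : ∃ e, e ∈ Ed F c d := by
  obtain ⟨a, b, x, hf, hN⟩ := hC.nex
  have gp := X_gp (c a) (c b) (c x) d
  have h1 := hC.rot hf
  have h2 := hC.rot' hf
  rcases lt_or_gt_of_ne (hd a) with ha | ha <;> rcases lt_or_gt_of_ne (hd b) with hb | hb <;>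
    rcases lt_or_gt_of_ne (hd x) with hx | hx
  · exfalso
    have := mul_neg_of_pos_of_neg hN.1 hx; have := mul_neg_of_pos_of_neg hN.2.1 ha
    have := mul_neg_of_pos_of_neg hN.2.2 hb
    linarith
  · exact ⟨(x, a), ⟨hx, by rw [X_swap]; linarith, hN.2.2⟩, b, h2⟩
  · exact ⟨(b, x), ⟨hb, by rw [X_swap]; linarith, hN.2.1⟩, a, h1⟩
  · exact ⟨(x, a), ⟨hx, by rw [X_swap]; linarith, hN.2.2⟩, b, h2⟩
  · exact ⟨(a, b), ⟨ha, by rw [X_swap]; linarith, hN.1⟩, x, hf⟩
  · exact ⟨(a, b), ⟨ha, by rw [X_swap]; linarith, hN.1⟩, x, hf⟩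
  · exact ⟨(b, x), ⟨hb, by rw [X_swap]; linarith, hN.2.1⟩, a, h1⟩
  · exfalso
    have := mul_pos hN.1 hx; have := mul_pos hN.2.1 ha
    have := mul_pos hN.2.2 hb
    linarith

/-- A generic point which is on no crossing edge is in a region. -/
theorem gen_cover [Finite V] (hC : Comb F c) (hG : Good F c s) (hd : Gen c d)
    (hz : ∀ e ∈ Ed F c d, z ≠ H c s d e.1 e.2) :
    ∃ a b x, (a, b, x) ∈ F ∧ RegS c s d z a b x := by
  have hfin : (Ed F c d).Finite := Set.toFinite _
  by_cases hex : ∃ e ∈ Ed F c d, H c s d e.1 e.2 < z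
  · obtain ⟨e0, he0, he0z⟩ := hex
    set S : Set (V × V) := {e | e ∈ Ed F c d ∧ H c s d e.1 e.2 < z} with hS
    obtain ⟨e, he, hmax⟩ := Set.exists_max_image S (fun e => H c s d e.1 e.2) (Set.toFinite S)
      ⟨e0, he0, he0z⟩
    obtain ⟨⟨hcr, x, hf⟩, hez⟩ := he
    refine ⟨e.1, e.2, x, hf, reg_of_floor hC hG hd hf hcr hez ?_⟩
    intro e' hup
    have h1 := hup.lt hG
    have h2 := hup.mem_right hC
    by_contra hn
    push Not at hn
    have h3 : H c s d e'.1 e'.2 < z := lt_of_le_of_ne hn (fun h => hz e' h2 h.symm)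
    have h4 := hmax e' ⟨h2, h3⟩
    simp only at h1
    linarith
  · push Not at hex
    obtain ⟨e0, he0⟩ := ed_nonempty hC hd
    obtain ⟨e, he, hmin⟩ := Set.exists_min_image (Ed F c d) (fun e => H c s d e.1 e.2) hfin
      ⟨e0, he0⟩
    obtain ⟨hcr, x, hf⟩ := he
    obtain ⟨w, hw⟩ := hC.symm hf
    refine ⟨e.2, e.1, w, hw, reg_of_bottom hC hd hw hcr ?_ ?_⟩
    · exact lt_of_le_of_ne (hex e ⟨hcr, x, hf⟩) (hz e ⟨hcr, x, hf⟩)
    · rintro ⟨g, hg⟩
      have h1 := hg.lt hG
      have h2 := hmin g hg.mem_left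
      simp only at h1
      linarith

end Pool.Agent.Work.MP_e680c3_co
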