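import Pool.Agent.Work.MP_e680c3_co.Vec

/-!
# From the combinatorial conditions to a ray triangulation
-/

open Filter Topology

namespace Pool.Agent.Work.MP_e680c3_co

variable {V : Type*} {F : Set (V × V × V)} {c : V → ℝ × ℝ} {s : V → ℝ}

/-- The point of `ℝ³` with horizontal part `d` and height `z`. -/
def pt (d : ℝ × ℝ) (z : ℝ) : Fin 3 → ℝ := ![d.1, d.2, z]

/-- The rays of the vertices. -/
def PP (c : V → ℝ × ℝ) (s : V → ℝ) (v : V) : Fin 3 → ℝ := pt (c v) (s v)

theorem pt_eta (y : Fin 3 → ℝ) : pt (y 0, y 1) (y 2) = y := by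
  ext i; fin_cases i <;> rfl

theorem det3_pt (d1 d2 d3 : ℝ × ℝ) (z1 z2 z3 : ℝ) : det3 (pt d1 z1) (pt d2 z2) (pt d3 z3) =
    z1 * X d2 d3 + z2 * X d3 d1 + z3 * X d1 d2 := by
  simp [det3, pt, X]; ring

theorem det3_PP (a b x : V) : det3 (PP c s a) (PP c s b) (PP c s x) = Lf c s a b x := by
  rw [PP, PP, PP, det3_pt]; rfl

theorem RegS_iff (d : ℝ × ℝ) (z : ℝ) (a b x : V) :
    RegS c s d z a b x ↔ Reg (PP c s a) (PP c s b) (PP c s x) (pt d z) := by
  unfold RegS Reg
  rw [det3_PP]
  have e1 : det3 (pt d z) (PP c s b) (PP c s x) = D1 c s d z a b x := by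
    rw [PP, PP, det3_pt]; rfl
  have e2 : det3 (PP c s a) (pt d z) (PP c s x) = D2 c s d z a b x := by
    rw [PP, PP, det3_pt]; rfl
  have e3 : det3 (PP c s a) (PP c s b) (pt d z) = D3 c s d z a b x := by
    rw [PP, PP, det3_pt]; rfl
  rw [e1, e2, e3]

theorem pt_line (y : Fin 3 → ℝ) (u : ℝ × ℝ) (ε : ℝ) :
    y + ε • pt u 0 = pt (y 0 + ε * u.1, y 1 + ε * u.2) (y 2) := by
  ext i; fin_cases i <;> simp [pt]

theorem exists_gen_dir [Finite V] (hC : Comb F c) : ∃ u, Gen c u := by
  obtain ⟨a, b, x, hf, _⟩ := hC.nex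
  obtain ⟨ε, hε⟩ := (eventually_gen hC.unit a (one_ne_zero)).exists
  exact ⟨_, hε⟩

theorem eventually_gen_line [Finite V] {u : ℝ × ℝ} (hu : Gen c u) (y : Fin 3 → ℝ) :
    ∀ᶠ ε in 𝓝[>] (0 : ℝ), Gen c (y 0 + ε * u.1, y 1 + ε * u.2) := by
  have : ∀ v : V, ∀ᶠ ε in 𝓝[>] (0 : ℝ), X (c v) (y 0 + ε * u.1, y 1 + ε * u.2) ≠ 0 := by
    intro v
    have h1 : ∀ ε : ℝ, X (c v) (y 0 + ε * u.1, y 1 + ε * u.2) =
        X (c v) (y 0, y 1) + ε * X (c v) u := by
      intro ε; simp only [X]; ring
    by_cases h0 : X (c v) (y 0, y 1) = 0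
    · filter_upwards [self_mem_nhdsWithin] with ε hε
      rw [h1, h0, zero_add]
      exact mul_ne_zero (ne_of_gt hε) (hu v)
    · have h2 : Tendsto (fun ε : ℝ => X (c v) (y 0, y 1) + ε * X (c v) u) (𝓝[>] 0)
          (𝓝 (X (c v) (y 0, y 1) + 0 * X (c v) u)) := by
        have : Continuous (fun ε : ℝ => X (c v) (y 0, y 1) + ε * X (c v) u) := by fun_prop
        exact (this.tendsto 0).mono_left nhdsWithin_le_nhds
      rw [zero_mul, add_zero] at h2
      filter_upwards [h2.eventually_ne h0] with ε hε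
      rw [h1]; exact hε
  exact Filter.eventually_all.2 this

theorem geo_disj [Finite V] (hC : Comb F c) (hG : Good F c s) {a b x a' b' x' : V}
    (hf : (a, b, x) ∈ F) (hf' : (a', b', x') ∈ F) {y : Fin 3 → ℝ}
    (h : Reg (PP c s a) (PP c s b) (PP c s x) y)
    (h' : Reg (PP c s a') (PP c s b') (PP c s x') y) : Rot3 a b x a' b' x' := by
  obtain ⟨u, hu⟩ := exists_gen_dir hC
  obtain ⟨ε, h1, h2, h3⟩ := ((eventually_gen_line hu y).and
    ((Reg_open h (pt u 0)).and (Reg_open h' (pt u 0)))).exists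
  rw [pt_line, ← RegS_iff] at h2 h3
  exact gen_unique hC hG h1 hf hf' h2 h3

theorem geo_crs (hG : Good F c s) {a b x : V} (hf : (a, b, x) ∈ F) :
    crs (PP c s a) (PP c s b) ≠ 0 := by
  intro h
  have h1 : X (c a) (c b) = 0 := by
    have := congrFun h 2
    simp [crs, PP, pt] at this
    simp only [X]; linarith
  have h2 : Lf c s a b x = 0 := by
    rw [← det3_PP, det3_eq_dt, h]; simp [dt]
  rcases hG a b x hf with h3 | h3 | h3
  · linarith [h3.1]
  · linarith [h3.1]
  · linarith

theorem rot3_absurd (hC : Comb F c) {a b x a' b' x' y' : V} (hf' : (a', b', x') ∈ F)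
    (h : Rot3 a b x a' b' x') (h' : Rot3 a b x b' a' y') : False := by
  have h1 := hC.ne hf'
  have h2 := hC.ne (hC.rot hf')
  have h3 := hC.ne (hC.rot' hf')
  rcases h.symm.trans h' with ⟨e1, e2, e3⟩ | ⟨e1, e2, e3⟩ | ⟨e1, e2, e3⟩
  · exact h1 e2
  · exact h3 e2.symm
  · exact h2 e1

theorem geo_off_open [Finite V] (hC : Comb F c) (hG : Good F c s) {a b x a' b' x' : V}
    (hf : (a, b, x) ∈ F) (hf' : (a', b', x') ∈ F) {y : Fin 3 → ℝ}
    (h : Reg (PP c s a) (PP c s b) (PP c s x) y) {α β : ℝ} (hα : 0 < α) (hβ : 0 < β)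
    (hy : y = α • PP c s a' + β • PP c s b') : False := by
  obtain ⟨y', hy'⟩ := hC.symm hf'
  have hn := geo_crs hG hf'
  set n := crs (PP c s a') (PP c s b') with hndef
  have hpos := det3_crs_pos hn
  obtain ⟨ε, h1, h2⟩ := ((Reg_open h n).and
    (left_reg (x := PP c s x') hα hβ hy hpos)).exists
  have hneg : 0 < det3 (PP c s b') (PP c s a') (-n) := by
    have : det3 (PP c s b') (PP c s a') (-n) = det3 (PP c s a') (PP c s b') n := by
      simp only [det3, Pi.neg_apply]; ring
    rw [this]; exact hpos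
  obtain ⟨ε', h3, h4⟩ := ((Reg_open h (-n)).and
    (left_reg (x := PP c s y') hβ hα (hy.trans (add_comm _ _)) hneg)).exists
  exact rot3_absurd hC hf' (geo_disj hC hG hf hf' h1 h2) (geo_disj hC hG hf hy' h3 h4)

theorem geo_off [Finite V] (hC : Comb F c) (hG : Good F c s) {a b x a' b' x' : V}
    (hf : (a, b, x) ∈ F) (hf' : (a', b', x') ∈ F) {y : Fin 3 → ℝ}
    (h : Reg (PP c s a) (PP c s b) (PP c s x) y) : ¬ Cone (PP c s a') (PP c s b') y := by
  rintro ⟨α, β, hα, hβ, hy⟩
  rcases hα.eq_or_lt with h0 | hα'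
  · rcases hβ.eq_or_lt with h1 | hβ'
    · rw [← h0, ← h1, zero_smul, zero_smul, add_zero] at hy
      exact h.ne_zero hy
    · obtain ⟨ε, h2, h3⟩ := ((Reg_open h (PP c s a')).and self_mem_nhdsWithin).exists
      refine geo_off_open hC hG hf hf' h2 (α := ε) (β := β) h3 hβ' ?_
      rw [hy, ← h0, zero_smul, zero_add, add_comm]
  · rcases hβ.eq_or_lt with h1 | hβ'
    · obtain ⟨ε, h2, h3⟩ := ((Reg_open h (PP c s b')).and self_mem_nhdsWithin).exists
      refine geo_off_open hC hG hf hf' h2 (α := α) (β := ε) hα' h3 ?_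
      rw [hy, ← h1, zero_smul, add_zero]
    · exact geo_off_open hC hG hf hf' h hα' hβ' hy

/-- A vertex is in the closure of the region of each of its faces. -/
theorem vertex_closure {P1 P2 P3 : Fin 3 → ℝ} (h : crs P1 P2 ≠ 0) :
    ∃ w, ∀ᶠ ε in 𝓝[>] (0 : ℝ), Reg P1 P2 P3 (P1 + ε • w) := by
  by_cases hL : 0 < det3 P1 P2 P3
  · refine ⟨P2 + P3, ?_⟩
    filter_upwards [self_mem_nhdsWithin] with ε hε
    have hε' : (0 : ℝ) < ε := hε
    refine Or.inl ⟨hL, ?_, ?_, ?_⟩
    · have : det3 (P1 + ε • (P2 + P3)) P2 P3 = det3 P1 P2 P3 := by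
        rw [det3_add1, det3_smul1, det3_add1, det3_self1, det3_self2]; ring
      rw [this]; exact hL
    · have : det3 P1 (P1 + ε • (P2 + P3)) P3 = ε * det3 P1 P2 P3 := by
        rw [det3_add2, det3_smul2, det3_add2, det3_self1, det3_self3]; ring
      rw [this]; exact mul_pos hε' hL
    · have : det3 P1 P2 (P1 + ε • (P2 + P3)) = ε * det3 P1 P2 P3 := by
        rw [det3_add3, det3_smul3, det3_add3, det3_self2, det3_self3]; ring
      rw [this]; exact mul_pos hε' hL
  · push Not at hL
    refine ⟨crs P1 P2, ?_⟩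
    filter_upwards [self_mem_nhdsWithin] with ε hε
    have hε' : (0 : ℝ) < ε := hε
    refine Or.inr ⟨hL, Or.inr (Or.inr ?_)⟩
    rw [det3_add3, det3_smul3, det3_self2, zero_add]
    exact mul_pos hε' (det3_crs_pos h)

theorem crs_par {a b : Fin 3 → ℝ} {α β : ℝ} (h : a = α • a + β • b) (hβ : β ≠ 0) :
    crs a b = 0 := by
  have h1 : ∀ i, a i = α * a i + β * b i := by
    intro i
    have := congrFun h i
    simpa using this
  have h2 : ∀ i, β * b i = (1 - α) * a i := by
    intro i; linarith [h1 i]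
  ext i
  fin_cases i
  · simp only [crs, Fin.zero_eta, Matrix.cons_val_zero, Pi.zero_apply]
    have : β * (a 1 * b 2 - a 2 * b 1) = 0 := by
      have e1 := h2 1; have e2 := h2 2
      linear_combination (a 1) * e2 - (a 2) * e1
    exact (mul_eq_zero.1 this).resolve_left hβ
  · simp only [crs, Fin.mk_one, Matrix.cons_val_one, Matrix.cons_val_zero, Pi.zero_apply]
    have : β * (a 2 * b 0 - a 0 * b 2) = 0 := by
      have e1 := h2 0; have e2 := h2 2
      linear_combination (a 2) * e1 - (a 0) * e2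
    exact (mul_eq_zero.1 this).resolve_left hβ
  · have : β * (a 0 * b 1 - a 1 * b 0) = 0 := by
      have e1 := h2 0; have e2 := h2 1
      linear_combination (a 0) * e2 - (a 1) * e1
    have h3 := (mul_eq_zero.1 this).resolve_left hβ
    simpa [crs] using h3

/-- No vertex is in the interior of an edge. -/
theorem geo_ve [Finite V] (hC : Comb F c) (hG : Good F c s) {a b x v : V}
    (hf : (a, b, x) ∈ F) {α β : ℝ} (hα : 0 < α) (hβ : 0 < β)
    (hv : PP c s v = α • PP c s a + β • PP c s b) : False := by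
  obtain ⟨x', hf'⟩ := hC.symm hf
  obtain ⟨a1, b1, hf1⟩ := hC.vert v
  obtain ⟨w, hw⟩ := vertex_closure (P3 := PP c s b1) (geo_crs hG hf1)
  have hab := geo_crs hG hf
  have hba := geo_crs hG hf'
  have ha : v ≠ a := by
    rintro rfl
    exact hab (crs_par hv (ne_of_gt hβ))
  have hb : v ≠ b := by
    rintro rfl
    exact hba (crs_par (by rw [add_comm] at hv; exact hv) (ne_of_gt hα))
  -- projection of the relation
  have hcx : ∀ i : Fin 3, PP c s v i = α * PP c s a i + β * PP c s b i := by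
    intro i
    have := congrFun hv i
    simpa using this
  have c0 : (c v).1 = α * (c a).1 + β * (c b).1 := hcx 0
  have c1 : (c v).2 = α * (c a).2 + β * (c b).2 := hcx 1
  have hXb : X (c b) (c v) = - (α * X (c a) (c b)) := by
    simp only [X, c0, c1]; ring
  have hXa : X (c a) (c v) = β * X (c a) (c b) := by
    simp only [X, c0, c1]; ring
  have hL0 : Lf c s a b v = 0 := by
    rw [← det3_PP, hv, det3_add3, det3_smul3, det3_smul3, det3_self2, det3_self3]; ring
  have hx : x ≠ v := by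
    rintro rfl
    rcases hG a b x hf with h | h | h
    · have := h.2.1
      rw [hXb] at this
      have := mul_pos hα h.1
      linarith
    · have := h.2.1
      rw [hXb] at this
      have := mul_neg_of_pos_of_neg hα h.1
      linarith
    · linarith
  have hx' : x' ≠ v := by
    rintro rfl
    rcases hG b a x' hf' with h | h | h
    · have h1 := h.2.1
      rw [hXa] at h1
      have h2 := h.1
      rw [X_swap] at h2
      have := (mul_pos_iff_of_pos_left hβ).1 h1
      linarith
    · have h1 := h.2.1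
      rw [hXa] at h1
      have h2 := h.1
      rw [X_swap] at h2
      have : 0 < β * X (c a) (c b) := mul_pos hβ (by linarith)
      linarith
    · have : Lf c s b a x' = - Lf c s a b x' := by simp only [Lf, X]; ring
      rw [this, hL0] at h
      linarith
  rcases lt_trichotomy (det3 (PP c s a) (PP c s b) w) 0 with h | h | h
  · have h1 : 0 < det3 (PP c s b) (PP c s a) w := by rw [det3_swap12]; linarith
    obtain ⟨ε, h2, h3⟩ := (hw.and (left_reg (x := PP c s x') hβ hα
      (hv.trans (add_comm _ _)) h1)).exists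
    rcases geo_disj hC hG hf' hf1 h3 h2 with ⟨e1, e2, e3⟩ | ⟨e1, e2, e3⟩ | ⟨e1, e2, e3⟩
    · exact hb e1
    · exact ha e1
    · exact hx' e1.symm
  · obtain ⟨ε, h2, h3⟩ := (hw.and (along_cone hα hβ hv hab h)).exists
    exact geo_off hC hG hf1 hf h2 h3
  · obtain ⟨ε, h2, h3⟩ := (hw.and (left_reg (x := PP c s x) hα hβ hv h)).exists
    rcases geo_disj hC hG hf hf1 h3 h2 with ⟨e1, e2, e3⟩ | ⟨e1, e2, e3⟩ | ⟨e1, e2, e3⟩
    · exact ha e1
    · exact hb e1
    · exact hx e1.symm

/-- Points slightly above and east of a vertex are in its upper slot. -/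
theorem bslot_point (hC : Comb F c) (hG : Good F c s) {v a b : V} (hB : Bslot F c v a b) :
    ∀ᶠ ε in 𝓝[>] (0 : ℝ), RegS c s (near c v (ε ^ 2)) (s v + ε) v a b := by
  obtain ⟨hf, ha, hb⟩ := hB
  have hu := hC.unit v
  -- the three determinants
  have e3 : ∀ ε : ℝ, D3 c s (near c v (ε ^ 2)) (s v + ε) v a b =
      ε * (X (c v) (c a) + ε * (s v * X (c a) (- (c v).2, (c v).1) - s a)) := by
    intro ε
    simp only [D3, near, X]
    linear_combination (- s a * ε ^ 2) * hu
  have e2 : ∀ ε : ℝ, D2 c s (near c v (ε ^ 2)) (s v + ε) v a b =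
      ε * (X (c b) (c v) + ε * (s v * X (- (c v).2, (c v).1) (c b) + s b)) := by
    intro ε
    simp only [D2, near, X]
    linear_combination (s b * ε ^ 2) * hu
  have e1 : Continuous (fun ε : ℝ => D1 c s (near c v (ε ^ 2)) (s v + ε) v a b) := by
    unfold D1 near X; fun_prop
  have p3 : ∀ᶠ ε in 𝓝[>] (0 : ℝ), 0 < D3 c s (near c v (ε ^ 2)) (s v + ε) v a b := by
    have := eventually_pos_of_continuous
      (f := fun ε => X (c v) (c a) + ε * (s v * X (c a) (- (c v).2, (c v).1) - s a))
      (by fun_prop) (by simp only [zero_mul, add_zero]; exact ha)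
    filter_upwards [this, self_mem_nhdsWithin] with ε q1 q2
    rw [e3]; exact mul_pos q2 q1
  by_cases hL : 0 < Lf c s v a b
  · have p1 := eventually_pos_of_continuous e1 (by
      have h0 : (0 : ℝ) ^ 2 = 0 := by norm_num
      rw [h0, near_zero, add_zero]
      have : D1 c s (c v) (s v) v a b = Lf c s v a b := by
        simp only [D1, Lf]
      rw [this]; exact hL)
    have p2 : ∀ᶠ ε in 𝓝[>] (0 : ℝ), 0 < D2 c s (near c v (ε ^ 2)) (s v + ε) v a b := by
      rcases hb.eq_or_lt with h0 | h0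
      · have hbv : X (c b) (c v) = 0 := by rw [X_swap, h0, neg_zero]
        rcases prev_of_zero hC hG hf h0 with ⟨h1, h2⟩ | ⟨h1, h2⟩
        · have h3 : 0 < s b - s v := (mul_pos_iff_of_pos_right ha).1 h2
          filter_upwards [self_mem_nhdsWithin] with ε hε
          rw [e2, hbv, h1]
          have h4 : X (- (c v).2, (c v).1) (c v) = -1 := by
            simp only [X]; linarith
          rw [h4]
          have hε' : (0 : ℝ) < ε := hε
          have : ε * (0 + ε * (s v * -1 + s b)) = ε * (ε * (s b - s v)) := by ring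
          rw [this]
          positivity
        · exfalso; linarith
      · have hbv : 0 < X (c b) (c v) := by rw [X_swap]; linarith
        have := eventually_pos_of_continuous
          (f := fun ε => X (c b) (c v) + ε * (s v * X (- (c v).2, (c v).1) (c b) + s b))
          (by fun_prop) (by simp only [zero_mul, add_zero]; exact hbv)
        filter_upwards [this, self_mem_nhdsWithin] with ε q1 q2
        rw [e2]; exact mul_pos q2 q1
    filter_upwards [p1, p2, p3] with ε q1 q2 q3 using Or.inl ⟨hL, q1, q2, q3⟩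
  · push Not at hL
    filter_upwards [p3] with ε q3 using Or.inr ⟨hL, Or.inr (Or.inr q3)⟩

theorem geo_inj0 [Finite V] (hC : Comb F c) (hG : Good F c s) {v w : V}
    (h1 : c v = c w) (h2 : s v = s w) : v = w := by
  by_contra hne
  obtain ⟨-, a, b, hB⟩ := exists_slots hC hG v
  obtain ⟨-, a', b', hB'⟩ := exists_slots hC hG w
  have p2 := bslot_point hC hG hB'
  have hnear : ∀ ε : ℝ, near c w ε = near c v ε := by intro ε; unfold near; rw [h1]
  simp only [hnear, ← h2] at p2
  obtain ⟨ε, q1, q2⟩ := ((bslot_point hC hG hB).and p2).exists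
  rw [RegS_iff] at q1 q2
  rcases geo_disj hC hG hB.1 hB'.1 q1 q2 with ⟨e1, e2, e3⟩ | ⟨e1, e2, e3⟩ | ⟨e1, e2, e3⟩
  · exact hne e1.symm
  · have := hB.2.1
    rw [← e1, ← h1, X_self] at this
    exact lt_irrefl _ this
  · have h0 : X (c v) (c b) = 0 := by rw [← e1, ← h1, X_self]
    rcases prev_of_zero hC hG hB.1 h0 with ⟨_, h3⟩ | ⟨_, h3⟩
    · rw [← e1, ← h2, sub_self, zero_mul] at h3
      exact lt_irrefl _ h3
    · linarith [hB.2.1]

theorem PP_smul_unit (hC : Comb F c) {v w : V} {r : ℝ} (hr : 0 < r) {σ : ℝ} (hσ : σ ^ 2 = 1)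
    (h : PP c s v = (σ * r) • PP c s w) : r = 1 := by
  have h0 : (c v).1 = σ * r * (c w).1 := by simpa [PP, pt] using congrFun h 0
  have h1 : (c v).2 = σ * r * (c w).2 := by simpa [PP, pt] using congrFun h 1
  have hv := hC.unit v
  have hw := hC.unit w
  rw [h0, h1] at hv
  have : r ^ 2 = 1 := by
    have e : (σ * r * (c w).1) ^ 2 + (σ * r * (c w).2) ^ 2 =
        σ ^ 2 * r ^ 2 * ((c w).1 ^ 2 + (c w).2 ^ 2) := by ring
    rw [e, hσ, hw] at hv
    linarith
  nlinarith

theorem geo_inj [Finite V] (hC : Comb F c) (hG : Good F c s) {v w : V} {r : ℝ} (hr : 0 < r)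
    (h : PP c s v = r • PP c s w) : v = w := by
  have h1 := PP_smul_unit hC hr (σ := 1) (by norm_num) (by rw [one_mul]; exact h)
  rw [h1, one_smul] at h
  refine geo_inj0 hC hG (s := s) ?_ ?_
  · have h2 := congrFun h 0
    have h3 := congrFun h 1
    simp [PP, pt] at h2 h3
    exact Prod.ext h2 h3
  · have h2 := congrFun h 2
    simpa [PP, pt] using h2

theorem geo_anti (hG : Good F c s) {a b x : V} (hf : (a, b, x) ∈ F) {r : ℝ} :
    PP c s a ≠ - (r • PP c s b) := by
  intro h
  apply geo_crs hG hf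
  rw [h]
  ext i
  fin_cases i <;> simp [crs] <;> ring

theorem crs_smul_left (r : ℝ) (a b : Fin 3 → ℝ) : crs (r • a) b = r • crs a b := by
  ext i
  fin_cases i <;> simp [crs] <;> ring

/-- Two edges with a common interior point are equal. -/
theorem geo_ee_aux [Finite V] (hC : Comb F c) (hG : Good F c s) {a b x a' b' x' : V}
    (hf : (a, b, x) ∈ F) (hf' : (a', b', x') ∈ F) {α β α' β' : ℝ} (hα : 0 < α) (hβ : 0 < β)
    (hα' : 0 < α') (hβ' : 0 < β')
    (hy : α • PP c s a + β • PP c s b = α' • PP c s a' + β' • PP c s b') : a' = a ∨ a' = b := by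
  obtain ⟨y0, hy0⟩ := hC.symm hf
  have hab := geo_crs hG hf
  have ha'b' := geo_crs hG hf'
  set y := α • PP c s a + β • PP c s b with hydef
  -- the point `a'` is in the plane of `a`, `b`
  have hcone : ∀ᶠ ε in 𝓝[>] (0 : ℝ), Cone (PP c s a') (PP c s b') (y + ε • PP c s a') := by
    filter_upwards [self_mem_nhdsWithin] with ε hε
    have hε' : (0 : ℝ) < ε := hε
    refine ⟨α' + ε, β', by positivity, hβ'.le, ?_⟩
    rw [hy]; module
  have hdet : det3 (PP c s a) (PP c s b) (PP c s a') = 0 := by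
    rcases lt_trichotomy (det3 (PP c s a) (PP c s b) (PP c s a')) 0 with h | h | h
    · exfalso
      have h1 : 0 < det3 (PP c s b) (PP c s a) (PP c s a') := by rw [det3_swap12]; linarith
      obtain ⟨ε, q1, q2⟩ := (hcone.and (left_reg (x := PP c s y0) hβ hα
        (hydef.trans (add_comm _ _)) h1)).exists
      exact geo_off hC hG hy0 hf' q2 q1
    · exact h
    · exfalso
      obtain ⟨ε, q1, q2⟩ := (hcone.and (left_reg (x := PP c s x) hα hβ hydef h)).exists
      exact geo_off hC hG hf hf' q2 q1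
  have hsp := span_of_det hab hdet
  set α1 := det3 (PP c s a') (PP c s b) (crs (PP c s a) (PP c s b)) /
    det3 (PP c s a) (PP c s b) (crs (PP c s a) (PP c s b))
  set β1 := det3 (PP c s a) (PP c s a') (crs (PP c s a) (PP c s b)) /
    det3 (PP c s a) (PP c s b) (crs (PP c s a) (PP c s b))
  -- no vertex `a`, `b` in the open cone of `a'`, `b'`
  have key : ∀ τ : ℝ, 0 < τ → τ ≤ 1 → ∀ v : V, ∀ r : ℝ, 0 < r →
      τ • y + (1 - τ) • PP c s a' = r • PP c s v → False := by
    intro τ hτ hτ1 v r hr he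
    refine geo_ve hC hG hf' (v := v) (α := r⁻¹ * (τ * α' + (1 - τ))) (β := r⁻¹ * (τ * β')) ?_ ?_ ?_
    · have : 0 ≤ 1 - τ := by linarith
      positivity
    · positivity
    · have : PP c s v = r⁻¹ • (r • PP c s v) := by
        rw [smul_smul, inv_mul_cancel₀ (ne_of_gt hr), one_smul]
      rw [this, ← he, hy]
      module
  -- and the combinations with both coefficients zero are excluded
  have key0 : ∀ τ : ℝ, 0 < τ → τ ≤ 1 → τ • y + (1 - τ) • PP c s a' ≠ 0 := by
    intro τ hτ hτ1 he
    rw [hy] at he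
    have h1 : det3 (PP c s a') (τ • (α' • PP c s a' + β' • PP c s b') + (1 - τ) • PP c s a')
        (crs (PP c s a') (PP c s b')) = 0 := by rw [he, det3_zero2]
    rw [det3_add2, det3_smul2, det3_smul2, det3_add2, det3_smul2, det3_smul2, det3_self1] at h1
    have h2 := det3_crs_pos ha'b'
    have h3 := mul_pos hτ (mul_pos hβ' h2)
    linarith
  have hco : ∀ τ : ℝ, τ • y + (1 - τ) • PP c s a' =
      (τ * α + (1 - τ) * α1) • PP c s a + (τ * β + (1 - τ) * β1) • PP c s b := by
    intro τ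
    rw [hydef, hsp]; module
  by_cases h1 : 0 ≤ α1 ∧ 0 ≤ β1
  · rcases h1.1.eq_or_lt with h2 | h2
    · right
      rw [← h2, zero_smul, zero_add] at hsp
      have h3 : 0 < β1 := by
        rcases h1.2.eq_or_lt with h4 | h4
        · exfalso
          rw [← h4, zero_smul] at hsp
          apply ha'b'
          rw [hsp]
          ext i; fin_cases i <;> simp [crs]
        · exact h4
      exact geo_inj hC hG h3 hsp
    · rcases h1.2.eq_or_lt with h4 | h4
      · left
        rw [← h4, zero_smul, add_zero] at hsp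
        exact geo_inj hC hG h2 hsp
      · exact (geo_ve hC hG hf h2 h4 hsp).elim
  · exfalso
    by_cases h2 : α1 * β ≤ β1 * α
    · -- the first coordinate vanishes last
      have hα1 : α1 < 0 := by
        by_contra hn
        push Not at hn
        apply h1
        refine ⟨hn, ?_⟩
        by_contra hb
        push Not at hb
        nlinarith [mul_nonneg hn hβ.le, mul_neg_of_neg_of_pos hb hα]
      have hden : 0 < α - α1 := by linarith
      set τ := - α1 / (α - α1) with hτ
      have hτ0 : 0 < τ := div_pos (by linarith) hden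
      have hτ1 : τ ≤ 1 := by rw [hτ, div_le_one hden]; linarith
      have hz : τ * α + (1 - τ) * α1 = 0 := by
        rw [hτ]; field_simp; ring
      have hw : 0 ≤ τ * β + (1 - τ) * β1 := by
        have : τ * β + (1 - τ) * β1 = (β1 * α - α1 * β) / (α - α1) := by
          rw [hτ]; field_simp; ring
        rw [this]
        exact div_nonneg (by linarith) hden.le
      have he := hco τ
      rw [hz, zero_smul, zero_add] at he
      rcases hw.eq_or_lt with h3 | h3
      · rw [← h3, zero_smul] at he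
        exact key0 τ hτ0 hτ1 he
      · exact key τ hτ0 hτ1 b _ h3 he
    · push Not at h2
      have hβ1 : β1 < 0 := by
        by_contra hn
        push Not at hn
        apply h1
        refine ⟨?_, hn⟩
        by_contra hb
        push Not at hb
        nlinarith [mul_nonneg hn hα.le, mul_neg_of_neg_of_pos hb hβ]
      have hden : 0 < β - β1 := by linarith
      set τ := - β1 / (β - β1) with hτ
      have hτ0 : 0 < τ := div_pos (by linarith) hden
      have hτ1 : τ ≤ 1 := by rw [hτ, div_le_one hden]; linarith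
      have hz : τ * β + (1 - τ) * β1 = 0 := by
        rw [hτ]; field_simp; ring
      have hw : 0 ≤ τ * α + (1 - τ) * α1 := by
        have : τ * α + (1 - τ) * α1 = (α1 * β - β1 * α) / (β - β1) := by
          rw [hτ]; field_simp; ring
        rw [this]
        exact div_nonneg (by linarith) hden.le
      have he := hco τ
      rw [hz, zero_smul, add_zero] at he
      rcases hw.eq_or_lt with h3 | h3
      · rw [← h3, zero_smul] at he
        exact key0 τ hτ0 hτ1 he
      · exact key τ hτ0 hτ1 a _ h3 he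

theorem geo_meet [Finite V] (hC : Comb F c) (hG : Good F c s) {a b x a' b' x' : V}
    (hf : (a, b, x) ∈ F) (hf' : (a', b', x') ∈ F)
    (hne : ¬ ((a = a' ∧ b = b') ∨ (a = b' ∧ b = a'))) {y : Fin 3 → ℝ} (hy0 : y ≠ 0)
    (h : Cone (PP c s a) (PP c s b) y) (h' : Cone (PP c s a') (PP c s b') y) :
    ∃ v, (v = a ∨ v = b) ∧ (v = a' ∨ v = b') ∧ ∃ r : ℝ, 0 < r ∧ y = r • PP c s v := by
  obtain ⟨x'', hx''⟩ := hC.symm hf'
  obtain ⟨α, β, hα, hβ, hy⟩ := h
  obtain ⟨α', β', hα', hβ', hy'⟩ := h'
  have ends : ∀ {a b : V} {α β : ℝ}, 0 ≤ α → 0 ≤ β → y = α • PP c s a + β • PP c s b →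
      (0 < α ∧ 0 < β) ∨ ∃ v, (v = a ∨ v = b) ∧ ∃ r : ℝ, 0 < r ∧ y = r • PP c s v := by
    intro a b α β hα hβ hy
    rcases hα.eq_or_lt with h0 | h0
    · rcases hβ.eq_or_lt with h1 | h1
      · exfalso
        rw [← h0, ← h1, zero_smul, zero_smul, add_zero] at hy
        exact hy0 hy
      · right
        rw [← h0, zero_smul, zero_add] at hy
        exact ⟨b, Or.inr rfl, β, h1, hy⟩
    · rcases hβ.eq_or_lt with h1 | h1
      · right
        rw [← h1, zero_smul, add_zero] at hy
        exact ⟨a, Or.inl rfl, α, h0, hy⟩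
      · exact Or.inl ⟨h0, h1⟩
  have interior : ∀ {a b x v : V} {α β r : ℝ}, (a, b, x) ∈ F → 0 < α → 0 < β → 0 < r →
      y = α • PP c s a + β • PP c s b → y = r • PP c s v → False := by
    intro a b x v α β r hf hα hβ hr h1 h2
    refine geo_ve hC hG hf (v := v) (α := r⁻¹ * α) (β := r⁻¹ * β) (by positivity) (by positivity) ?_
    have : PP c s v = r⁻¹ • (r • PP c s v) := by
      rw [smul_smul, inv_mul_cancel₀ (ne_of_gt hr), one_smul]
    rw [this, ← h2, h1]
    module
  rcases ends hα hβ hy with h1 | ⟨v, hv, r, hr, hvy⟩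
  · rcases ends hα' hβ' hy' with h2 | ⟨v', hv', r', hr', hvy'⟩
    · exfalso
      have e1 := geo_ee_aux hC hG hf hf' h1.1 h1.2 h2.1 h2.2 (by rw [← hy, ← hy'])
      have e2 := geo_ee_aux hC hG hf hx'' h1.1 h1.2 h2.2 h2.1
        (by rw [← hy, hy', add_comm])
      have e3 := hC.ne hf'
      apply hne
      rcases e1 with e1 | e1 <;> rcases e2 with e2 | e2
      · exact (e3 (e1.trans e2.symm)).elim
      · exact Or.inl ⟨e1.symm, e2.symm⟩
      · exact Or.inr ⟨e2.symm, e1.symm⟩
      · exact (e3 (e1.trans e2.symm)).elim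
    · exact (interior hf h1.1 h1.2 hr' hy hvy').elim
  · rcases ends hα' hβ' hy' with h2 | ⟨v', hv', r', hr', hvy'⟩
    · exact (interior hf' h2.1 h2.2 hr hy' hvy).elim
    · have : v = v' := by
        refine geo_inj hC hG (r := r⁻¹ * r') (s := s) (by positivity) ?_
        have : PP c s v = r⁻¹ • (r • PP c s v) := by
          rw [smul_smul, inv_mul_cancel₀ (ne_of_gt hr), one_smul]
        rw [this, ← hvy, hvy', smul_smul]
      subst this
      exact ⟨v, hv, hv', r, hr, hvy⟩

theorem geo_nd (hG : Good F c s) {a b x : V} (hf : (a, b, x) ∈ F) :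
    ND (PP c s a) (PP c s b) (PP c s x) := by
  refine ⟨geo_crs hG hf, fun h0 => ?_⟩
  rw [det3_PP] at h0
  have key : ∀ σ : ℝ, (σ * X (c b) (c x)) • PP c s a + (σ * X (c x) (c a)) • PP c s b +
      (σ * X (c a) (c b)) • PP c s x = 0 := by
    intro σ
    have h0' : s a * X (c b) (c x) + s b * X (c x) (c a) + s x * X (c a) (c b) = 0 := h0
    ext i
    fin_cases i
    · simp [PP, pt, X]; ring
    · simp [PP, pt, X]; ring
    · simp only [PP, pt, Pi.add_apply, Pi.smul_apply, smul_eq_mul, Pi.zero_apply,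
        Fin.reduceFinMk, Matrix.cons_val]
      linear_combination σ * h0'
  rcases hG a b x hf with h | h | h
  · exact ⟨_, _, _, by linarith [h.2.1], by linarith [h.2.2], by linarith [h.1], key 1⟩
  · exact ⟨_, _, _, by linarith [h.2.1], by linarith [h.2.2], by linarith [h.1], key (-1)⟩
  · linarith

theorem geo_cover [Finite V] (hC : Comb F c) (hG : Good F c s) {y : Fin 3 → ℝ} :
    ∃ a b x, (a, b, x) ∈ F ∧
      (Cone (PP c s a) (PP c s b) y ∨ Reg (PP c s a) (PP c s b) (PP c s x) y) := by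
  obtain ⟨u, hu⟩ := exists_gen_dir hC
  have h1 : ∀ᶠ ε in 𝓝[>] (0 : ℝ), ∃ t : V × V × V, t ∈ F ∧
      (Cone (PP c s t.1) (PP c s t.2.1) (y + ε • pt u 0) ∨
        Reg (PP c s t.1) (PP c s t.2.1) (PP c s t.2.2) (y + ε • pt u 0)) := by
    filter_upwards [eventually_gen_line hu y] with ε hε
    rw [pt_line]
    by_cases hz : ∀ e ∈ Ed F c (y 0 + ε * u.1, y 1 + ε * u.2),
        y 2 ≠ H c s (y 0 + ε * u.1, y 1 + ε * u.2) e.1 e.2
    · obtain ⟨a, b, x, hf, hR⟩ := gen_cover hC hG hε hz
      exact ⟨(a, b, x), hf, Or.inr ((RegS_iff _ _ _ _ _).1 hR)⟩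
    · push Not at hz
      obtain ⟨⟨a, b⟩, ⟨hcr, x, hf⟩, hz⟩ := hz
      refine ⟨(a, b, x), hf, Or.inl ?_⟩
      set d : ℝ × ℝ := (y 0 + ε * u.1, y 1 + ε * u.2) with hd
      simp only at hf hz hcr ⊢
      refine ⟨X d (c b) / X (c a) (c b), X (c a) d / X (c a) (c b),
        (div_pos hcr.2.1 hcr.2.2).le, (div_pos hcr.1 hcr.2.2).le, ?_⟩
      have hne := ne_of_gt hcr.2.2
      ext i
      fin_cases i
      · simp only [PP, pt, Pi.add_apply, Pi.smul_apply, smul_eq_mul, Fin.zero_eta,
          Matrix.cons_val_zero]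
        field_simp
        simp only [X]; ring
      · simp only [PP, pt, Pi.add_apply, Pi.smul_apply, smul_eq_mul, Fin.mk_one,
          Matrix.cons_val_one, Matrix.cons_val_zero]
        field_simp
        simp only [X]; ring
      · simp only [PP, pt, Pi.add_apply, Pi.smul_apply, smul_eq_mul, Fin.reduceFinMk,
          Matrix.cons_val]
        rw [hz, H]
        field_simp
  have h2 : ∃ t : V × V × V, ∃ᶠ ε in 𝓝[>] (0 : ℝ), t ∈ F ∧
      (Cone (PP c s t.1) (PP c s t.2.1) (y + ε • pt u 0) ∨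
        Reg (PP c s t.1) (PP c s t.2.1) (PP c s t.2.2) (y + ε • pt u 0)) := by
    by_contra hn
    push Not at hn
    have h3 := Filter.eventually_all.2 hn
    obtain ⟨ε, ⟨t, ht, hor⟩, h4⟩ := (h1.and h3).exists
    rcases hor with h5 | h5
    · exact (h4 t ht).1 h5
    · exact (h4 t ht).2 h5
  obtain ⟨⟨a, b, x⟩, ht⟩ := h2
  obtain ⟨ε, hf, _⟩ := ht.exists
  have ht' : ∃ᶠ ε in 𝓝[>] (0 : ℝ), Cone (PP c s a) (PP c s b) (y + ε • pt u 0) ∨
      Reg (PP c s a) (PP c s b) (PP c s x) (y + ε • pt u 0) := ht.mono (fun ε h => h.2)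
  rw [Filter.frequently_or_distrib] at ht'
  rcases ht' with h | h
  · exact ⟨a, b, x, hf, Or.inl (Cone_closed (geo_crs hG hf) h)⟩
  · rcases Reg_closure (geo_nd hG hf) h with h | h | h | h
    · exact ⟨a, b, x, hf, Or.inr h⟩
    · exact ⟨a, b, x, hf, Or.inl h⟩
    · exact ⟨b, x, a, hC.rot hf, Or.inl h⟩
    · exact ⟨x, a, b, hC.rot' hf, Or.inl h⟩

/-- The combinatorial conditions give a triangulation. -/
theorem rt_of_good [Finite V] (hC : Comb F c) (hG : Good F c s) : RT F (PP c s) where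
  nz := by
    intro v h
    have h0 := congrFun h 0
    have h1 := congrFun h 1
    simp [PP, pt] at h0 h1
    have := hC.unit v
    rw [h0, h1] at this
    norm_num at this
  inj := fun v w r hr h => geo_inj hC hG hr h
  rot := hC.rot
  ne := hC.ne
  vert := hC.vert
  anti := fun hf r _ => geo_anti hG hf
  meet := fun hf hf' hne _ hy h h' => geo_meet hC hG hf hf' hne hy h h'
  off := fun hf hf' _ h => geo_off hC hG hf hf' h
  disj := fun hf hf' _ h h' => geo_disj hC hG hf hf' h h'
  cover := fun _ _ => geo_cover hC hG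

end Pool.Agent.Work.MP_e680c3_co
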