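import Pool.Agent.Work.MP_e680c3_co.Core

/-!
# The bilinear identity
-/

open Filter Topology

namespace Pool.Agent.Work.MP_e680c3_co

variable {V : Type*} {F Fp : Set (V × V × V)} {c : V → ℝ × ℝ} {s : V → ℝ} {I E : Set V}

open scoped Classical in
/-- The sum over the corners of `Fp` telescopes. -/
theorem telescope [Fintype V] (hC : Comb F c) (hU : Upper F Fp c s I E) (σ h : V → ℝ)
    (hσ : ∀ v ∈ E, σ v = 0) :
    ∑ t : V × V × V with t ∈ Fp, gt c σ h t.1 t.2.1 t.2.2 = 0 := by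
  -- each half is a sum over directed edges
  have h1 : ∑ t : V × V × V with t ∈ Fp, h t.1 * slope c σ t.1 t.2.1 =
      ∑ p : V × V, if ∃ b, (p.1, p.2, b) ∈ Fp then h p.1 * slope c σ p.1 p.2 else 0 := by
    rw [← Finset.sum_filter]
    refine Finset.sum_nbij (fun t => (t.1, t.2.1)) ?_ ?_ ?_ ?_
    · rintro ⟨v, a, b⟩ ht
      simp only [Finset.mem_filter, Finset.mem_univ, true_and] at ht ⊢
      exact ⟨b, ht⟩
    · rintro ⟨v, a, b⟩ ht ⟨v', a', b'⟩ ht' hh
      simp only [Finset.coe_filter, Finset.mem_univ, true_and, Set.mem_ofPred_eq] at ht ht'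
      simp only [Prod.mk.injEq] at hh ⊢
      obtain ⟨rfl, rfl⟩ := hh
      exact ⟨rfl, rfl, hC.uniq (hU.sub ht) (hU.sub ht')⟩
    · rintro ⟨v, a⟩ ht
      simp only [Finset.coe_filter, Finset.mem_univ, true_and, Set.mem_ofPred_eq] at ht
      obtain ⟨b, hb⟩ := ht
      refine ⟨(v, a, b), ?_, rfl⟩
      simp only [Finset.coe_filter, Finset.mem_univ, true_and, Set.mem_ofPred_eq]
      exact hb
    · rintro ⟨v, a, b⟩ _
      rfl
  have h2 : ∑ t : V × V × V with t ∈ Fp, h t.1 * slope c σ t.1 t.2.2 =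
      ∑ p : V × V, if ∃ a, (p.1, a, p.2) ∈ Fp then h p.1 * slope c σ p.1 p.2 else 0 := by
    rw [← Finset.sum_filter]
    refine Finset.sum_nbij (fun t => (t.1, t.2.2)) ?_ ?_ ?_ ?_
    · rintro ⟨v, a, b⟩ ht
      simp only [Finset.mem_filter, Finset.mem_univ, true_and] at ht ⊢
      exact ⟨a, ht⟩
    · rintro ⟨v, a, b⟩ ht ⟨v', a', b'⟩ ht' hh
      simp only [Finset.coe_filter, Finset.mem_univ, true_and, Set.mem_ofPred_eq] at ht ht'
      simp only [Prod.mk.injEq] at hh ⊢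
      obtain ⟨rfl, rfl⟩ := hh
      exact ⟨rfl, hC.uniq (hC.rot' (hU.sub ht)) (hC.rot' (hU.sub ht')), rfl⟩
    · rintro ⟨v, b⟩ ht
      simp only [Finset.coe_filter, Finset.mem_univ, true_and, Set.mem_ofPred_eq] at ht
      obtain ⟨a, ha⟩ := ht
      refine ⟨(v, a, b), ?_, rfl⟩
      simp only [Finset.coe_filter, Finset.mem_univ, true_and, Set.mem_ofPred_eq]
      exact ha
    · rintro ⟨v, a, b⟩ _
      rfl
  have h3 : ∀ v ∈ E, ∀ a ∈ E, slope c σ v a = 0 := by
    intro v hv a ha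
    rw [slope, hσ v hv, hσ a ha]; simp
  simp only [gt, mul_sub]
  rw [Finset.sum_sub_distrib, h1, h2, sub_eq_zero]
  refine Finset.sum_congr rfl ?_
  rintro ⟨v, a⟩ _
  simp only
  by_cases k1 : ∃ b, (v, a, b) ∈ Fp
  · obtain ⟨b, hb⟩ := k1
    by_cases k2 : ∃ b, (v, b, a) ∈ Fp
    · rw [if_pos ⟨b, hb⟩, if_pos k2]
    · rw [if_pos ⟨b, hb⟩, if_neg k2]
      obtain ⟨y, hy⟩ := hC.symm (hU.sub hb)
      have hn : (a, v, y) ∉ Fp := fun hh => k2 ⟨y, hU.rot hh⟩
      obtain ⟨e1, e2, _⟩ := hU.bd hb hy hn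
      rw [h3 v e1 a e2, mul_zero]
  · by_cases k2 : ∃ b, (v, b, a) ∈ Fp
    · rw [if_neg k1, if_pos k2]
      obtain ⟨b, hb⟩ := k2
      obtain ⟨y, hy⟩ := next_mem hC (hU.sub hb)
      have hn : (v, a, y) ∉ Fp := fun hh => k1 ⟨y, hh⟩
      obtain ⟨e1, e2, _⟩ := hU.bd (hU.rot' hb) hy hn
      rw [h3 v e2 a e1, mul_zero]
    · rw [if_neg k1, if_neg k2]

open scoped Classical in
/-- Sum over rotations. -/
theorem sum_rot [Fintype V] (hU : Upper F Fp c s I E) (f : V → V → V → ℝ) :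
    ∑ t : V × V × V with t ∈ Fp, f t.2.1 t.2.2 t.1 = ∑ t : V × V × V with t ∈ Fp, f t.1 t.2.1 t.2.2 := by
  refine Finset.sum_nbij (fun t => (t.2.1, t.2.2, t.1)) ?_ ?_ ?_ ?_
  · rintro ⟨v, a, b⟩ ht
    simp only [Finset.mem_filter, Finset.mem_univ, true_and] at ht ⊢
    exact hU.rot ht
  · rintro ⟨v, a, b⟩ ht ⟨v', a', b'⟩ ht' hh
    simp only [Prod.mk.injEq] at hh ⊢
    exact ⟨hh.2.2, hh.1, hh.2.1⟩
  · rintro ⟨v, a, b⟩ ht
    simp only [Finset.coe_filter, Finset.mem_univ, true_and, Set.mem_ofPred_eq] at ht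
    refine ⟨(b, v, a), ?_, rfl⟩
    simp only [Finset.coe_filter, Finset.mem_univ, true_and, Set.mem_ofPred_eq]
    exact hU.rot' ht
  · rintro ⟨v, a, b⟩ _
    rfl

open scoped Classical in
/-- The weight selecting one rotation of every face. -/
noncomputable def wt (F : Set (V × V × V)) (c : V → ℝ × ℝ) (n : V × V × V) (a b x : V) : ℝ :=
  (if Aslot F c a b x then 1 else 0) + (if Bslot F c a b x ∧ ¬ Nt c a b x then 1 else 0) +
    (if (a, b, x) = n then 1 else 0)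

theorem wt_sum (hC : Comb F c) (hU : Upper F Fp c s I E) {n : V × V × V} (hn : n ∈ F)
    (hN : Nt c n.1 n.2.1 n.2.2) {a b x : V} (hf : (a, b, x) ∈ Fp) :
    wt F c n a b x + wt F c n b x a + wt F c n x a b = 1 := by
  have hF := hU.sub hf
  have hF1 := hC.rot hF
  have hF2 := hC.rot' hF
  have hL := hU.pos hf
  have sa := hU.nn hf
  have sb := hU.nn (hU.rot hf)
  have sx := hU.nn (hU.rot' hf)
  have v1 := hU.vert hC hf
  have v2 := hU.vert hC (hU.rot hf)
  have v3 := hU.vert hC (hU.rot' hf)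
  have w1 : ¬ (X (c a) (c b) = 0 ∧ X (c b) (c x) = 0) := by
    rintro ⟨h1, h2⟩
    have h3 := v1 h1
    simp only [Lf, h1, h2] at hL
    rw [h3, X_swap, h2] at hL
    simp at hL
  have w2 : ¬ (X (c b) (c x) = 0 ∧ X (c x) (c a) = 0) := by
    rintro ⟨h1, h2⟩
    have h3 := v2 h1
    simp only [Lf, h1, h2] at hL
    rw [h3, X_swap, h2] at hL
    simp at hL
  have w3 : ¬ (X (c x) (c a) = 0 ∧ X (c a) (c b) = 0) := by
    rintro ⟨h1, h2⟩
    have h3 := v3 h1
    simp only [Lf, h1, h2] at hL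
    rw [h3, X_swap, h2] at hL
    simp at hL
  have z1 : X (c a) (c b) = 0 → X (c x) (c a) = - X (c b) (c x) := by
    intro h; rw [v1 h, X_swap]
  have z2 : X (c b) (c x) = 0 → X (c a) (c b) = - X (c x) (c a) := by
    intro h; rw [v2 h, X_swap]
  have z3 : X (c x) (c a) = 0 → X (c b) (c x) = - X (c a) (c b) := by
    intro h; rw [v3 h, X_swap]
  have e1 : Lf c s a b x = s a * X (c b) (c x) + s b * X (c x) (c a) + s x * X (c a) (c b) := rfl
  rw [e1] at hL
  have A1 : Aslot F c a b x ↔ X (c a) (c b) < 0 ∧ X (c x) (c a) ≤ 0 := by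
    unfold Aslot; rw [X_swap (c a) (c x)]
    exact ⟨fun h => ⟨h.2.1, by linarith [h.2.2]⟩, fun h => ⟨hF, h.1, by linarith [h.2]⟩⟩
  have A2 : Aslot F c b x a ↔ X (c b) (c x) < 0 ∧ X (c a) (c b) ≤ 0 := by
    unfold Aslot; rw [X_swap (c b) (c a)]
    exact ⟨fun h => ⟨h.2.1, by linarith [h.2.2]⟩, fun h => ⟨hF1, h.1, by linarith [h.2]⟩⟩
  have A3 : Aslot F c x a b ↔ X (c x) (c a) < 0 ∧ X (c b) (c x) ≤ 0 := by
    unfold Aslot; rw [X_swap (c x) (c b)]
    exact ⟨fun h => ⟨h.2.1, by linarith [h.2.2]⟩, fun h => ⟨hF2, h.1, by linarith [h.2]⟩⟩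
  have B1 : Bslot F c a b x ↔ 0 < X (c a) (c b) ∧ 0 ≤ X (c x) (c a) := by
    unfold Bslot; rw [X_swap (c a) (c x)]
    exact ⟨fun h => ⟨h.2.1, by linarith [h.2.2]⟩, fun h => ⟨hF, h.1, by linarith [h.2]⟩⟩
  have B2 : Bslot F c b x a ↔ 0 < X (c b) (c x) ∧ 0 ≤ X (c a) (c b) := by
    unfold Bslot; rw [X_swap (c b) (c a)]
    exact ⟨fun h => ⟨h.2.1, by linarith [h.2.2]⟩, fun h => ⟨hF1, h.1, by linarith [h.2]⟩⟩
  have B3 : Bslot F c x a b ↔ 0 < X (c x) (c a) ∧ 0 ≤ X (c b) (c x) := by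
    unfold Bslot; rw [X_swap (c x) (c b)]
    exact ⟨fun h => ⟨h.2.1, by linarith [h.2.2]⟩, fun h => ⟨hF2, h.1, by linarith [h.2]⟩⟩
  by_cases hNt : Nt c a b x
  · obtain ⟨n1, n2, n3⟩ := n
    simp only at hN
    have k1 := hNt.1
    have k2 := hNt.2.1
    have k3 := hNt.2.2
    have hab := hC.ne hF
    have hbx := hC.ne hF1
    have hxa := hC.ne hF2
    have nA1 : ¬ Aslot F c a b x := by rw [A1]; rintro ⟨h, _⟩; linarith
    have nA2 : ¬ Aslot F c b x a := by rw [A2]; rintro ⟨h, _⟩; linarith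
    have nA3 : ¬ Aslot F c x a b := by rw [A3]; rintro ⟨h, _⟩; linarith
    unfold wt
    simp only [nA1, nA2, nA3, hNt, hNt.rot, hNt.rot.rot, not_true_eq_false, and_false, if_false]
    rcases hC.nuniq hF hNt hn hN with ⟨rfl, rfl, rfl⟩ | ⟨rfl, rfl, rfl⟩ | ⟨rfl, rfl, rfl⟩
    · simp [hab, hab.symm, hbx, hbx.symm, hxa, hxa.symm]
    · simp [hab, hab.symm, hbx, hbx.symm, hxa, hxa.symm]
    · simp [hab, hab.symm, hbx, hbx.symm, hxa, hxa.symm]
  · have hNt1 : ¬ Nt c b x a := fun h => hNt h.rot.rot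
    have hNt2 : ¬ Nt c x a b := fun h => hNt h.rot
    unfold wt
    rw [if_neg (c := (a, b, x) = n) (by rintro rfl; exact hNt hN),
      if_neg (c := (b, x, a) = n) (by rintro rfl; exact hNt1 hN),
      if_neg (c := (x, a, b) = n) (by rintro rfl; exact hNt2 hN)]
    simp only [hNt, hNt1, hNt2, not_false_eq_true, and_true, A1, A2, A3, B1, B2, B3]
    have hNt' : ¬ (0 < X (c a) (c b) ∧ 0 < X (c b) (c x) ∧ 0 < X (c x) (c a)) := hNt
    clear A1 A2 A3 B1 B2 B3 hNt hNt1 hNt2 v1 v2 v3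
    have hsome : 0 < X (c a) (c b) ∨ 0 < X (c b) (c x) ∨ 0 < X (c x) (c a) := by
      by_contra hh
      push Not at hh
      nlinarith [mul_nonneg sa (neg_nonneg.2 hh.2.1), mul_nonneg sb (neg_nonneg.2 hh.2.2),
        mul_nonneg sx (neg_nonneg.2 hh.1)]
    generalize X (c a) (c b) = p at *
    generalize X (c b) (c x) = q at *
    generalize X (c x) (c a) = r at *
    rcases lt_trichotomy p 0 with hp | hp | hp <;> rcases lt_trichotomy q 0 with hq | hq | hq <;>
      rcases lt_trichotomy r 0 with hr | hr | hr <;>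
      first
      | (exfalso; rcases hsome with h | h | h <;> linarith)
      | (exfalso; exact hNt' ⟨hp, hq, hr⟩)
      | (exfalso; exact w1 ⟨hp, hq⟩)
      | (exfalso; exact w2 ⟨hq, hr⟩)
      | (exfalso; exact w3 ⟨hr, hp⟩)
      | (exfalso; have := z1 hp; linarith)
      | (exfalso; have := z2 hq; linarith)
      | (exfalso; have := z3 hr; linarith)
      | (simp [hp, hq, hr, hp.le, hq.le, hr.le, hp.not_gt, hq.not_gt, hr.not_gt, hp.not_ge, hq.not_ge, hr.not_ge])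
      | (simp [hp, hq, hr, hq.le, hr.le, hq.not_gt, hr.not_gt, hq.not_ge, hr.not_ge])
      | (simp [hp, hq, hr, hp.le, hr.le, hp.not_gt, hr.not_gt, hp.not_ge, hr.not_ge])
      | (simp [hp, hq, hr, hp.le, hq.le, hp.not_gt, hq.not_gt, hp.not_ge, hq.not_ge])

open scoped Classical in
/-- Regrouping the corners into faces. -/
theorem regroup [Fintype V] (hC : Comb F c) (hU : Upper F Fp c s I E) {n1 n2 n3 : V}
    (hn : (n1, n2, n3) ∈ F) (hN : Nt c n1 n2 n3) {A1 A2 B1 B2 : V → V}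
    (hA : ∀ v, Aslot F c v (A1 v) (A2 v)) (hB : ∀ v, Bslot F c v (B1 v) (B2 v))
    (uA : ∀ {v a b}, Aslot F c v a b → A1 v = a ∧ A2 v = b)
    (uB : ∀ {v a b}, Bslot F c v a b → B1 v = a ∧ B2 v = b)
    (g : V → V → V → ℝ) :
    ∑ t : V × V × V with t ∈ Fp, g t.1 t.2.1 t.2.2 =
      (∑ v : V with v ∈ I, (g v (A1 v) (A2 v) + g (A1 v) (A2 v) v + g (A2 v) v (A1 v))) +
      (∑ v : V with (v ∈ I ∨ v ∈ E) ∧ ¬ Nt c v (B1 v) (B2 v),
        (g v (B1 v) (B2 v) + g (B1 v) (B2 v) v + g (B2 v) v (B1 v))) +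
      (g n1 n2 n3 + g n2 n3 n1 + g n3 n1 n2) := by
  set G : V → V → V → ℝ := fun a b x => g a b x + g b x a + g x a b with hG
  set w := wt F c (n1, n2, n3) with hw
  have h1 : ∑ t : V × V × V with t ∈ Fp, g t.1 t.2.1 t.2.2 =
      ∑ t : V × V × V with t ∈ Fp, w t.1 t.2.1 t.2.2 * G t.1 t.2.1 t.2.2 := by
    have e1 := sum_rot hU (fun a b x => g x a b * w a b x)
    have e3 := sum_rot hU (fun a b x => g a b x * w x a b)
    calc ∑ t : V × V × V with t ∈ Fp, g t.1 t.2.1 t.2.2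
        = ∑ t : V × V × V with t ∈ Fp, (g t.1 t.2.1 t.2.2 * w t.1 t.2.1 t.2.2 +
            g t.1 t.2.1 t.2.2 * w t.2.1 t.2.2 t.1 + g t.1 t.2.1 t.2.2 * w t.2.2 t.1 t.2.1) := by
          refine Finset.sum_congr rfl ?_
          rintro ⟨a, b, x⟩ ht
          simp only [Finset.mem_filter, Finset.mem_univ, true_and] at ht
          have := wt_sum hC hU hn hN ht
          simp only [hw]
          rw [← mul_add, ← mul_add, this, mul_one]
      _ = _ := by
          rw [Finset.sum_add_distrib, Finset.sum_add_distrib, e1, ← e3,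
            ← Finset.sum_add_distrib, ← Finset.sum_add_distrib]
          refine Finset.sum_congr rfl ?_
          rintro ⟨a, b, x⟩ ht
          simp only [hG]; ring
  rw [h1]
  have h2 : ∀ t : V × V × V, w t.1 t.2.1 t.2.2 * G t.1 t.2.1 t.2.2 =
      (if Aslot F c t.1 t.2.1 t.2.2 then G t.1 t.2.1 t.2.2 else 0) +
      (if Bslot F c t.1 t.2.1 t.2.2 ∧ ¬ Nt c t.1 t.2.1 t.2.2 then G t.1 t.2.1 t.2.2 else 0) +
      (if t = (n1, n2, n3) then G t.1 t.2.1 t.2.2 else 0) := by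
    intro t
    simp only [hw, wt, add_mul, ite_mul, one_mul, zero_mul]
  simp only [h2]
  rw [Finset.sum_add_distrib, Finset.sum_add_distrib]
  congr 1
  · congr 1
    · rw [← Finset.sum_filter]
      refine Finset.sum_nbij (fun t => t.1) ?_ ?_ ?_ ?_
      · rintro ⟨v, a, b⟩ ht
        simp only [Finset.mem_filter, Finset.mem_univ, true_and] at ht ⊢
        rcases hU.mem ht.1 with h | h
        · exact h
        · exact (hU.EA h ht.2 ht.1).elim
      · rintro ⟨v, a, b⟩ ht ⟨v', a', b'⟩ ht' hh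
        simp only [Finset.coe_filter, Finset.mem_filter, Finset.mem_univ, true_and,
          Set.mem_ofPred_eq] at ht ht' hh
        subst hh
        rw [← (uA ht.2).1, ← (uA ht'.2).1, ← (uA ht.2).2, ← (uA ht'.2).2]
      · rintro v hv
        simp only [Finset.coe_filter, Finset.mem_univ, true_and, Set.mem_ofPred_eq] at hv
        refine ⟨(v, A1 v, A2 v), ?_, rfl⟩
        simp only [Finset.coe_filter, Finset.mem_filter, Finset.mem_univ, true_and,
          Set.mem_ofPred_eq]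
        exact ⟨hU.Iall hv (hA v).1, hA v⟩
      · rintro ⟨v, a, b⟩ ht
        simp only [Finset.mem_filter, Finset.mem_univ, true_and] at ht
        simp only [hG]
        rw [(uA ht.2).1, (uA ht.2).2]
    · rw [← Finset.sum_filter]
      refine Finset.sum_nbij (fun t => t.1) ?_ ?_ ?_ ?_
      · rintro ⟨v, a, b⟩ ht
        simp only [Finset.mem_filter, Finset.mem_univ, true_and] at ht ⊢
        rw [(uB ht.2.1).1, (uB ht.2.1).2]
        exact ⟨hU.mem ht.1, ht.2.2⟩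
      · rintro ⟨v, a, b⟩ ht ⟨v', a', b'⟩ ht' hh
        simp only [Finset.coe_filter, Finset.mem_filter, Finset.mem_univ, true_and,
          Set.mem_ofPred_eq] at ht ht' hh
        subst hh
        rw [← (uB ht.2.1).1, ← (uB ht'.2.1).1, ← (uB ht.2.1).2, ← (uB ht'.2.1).2]
      · rintro v hv
        simp only [Finset.coe_filter, Finset.mem_univ, true_and, Set.mem_ofPred_eq] at hv
        refine ⟨(v, B1 v, B2 v), ?_, rfl⟩
        simp only [Finset.coe_filter, Finset.mem_filter, Finset.mem_univ, true_and,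
          Set.mem_ofPred_eq]
        refine ⟨?_, hB v, hv.2⟩
        rcases hv.1 with h | h
        · exact hU.Iall h (hB v).1
        · exact hU.EB h (hB v)
      · rintro ⟨v, a, b⟩ ht
        simp only [Finset.mem_filter, Finset.mem_univ, true_and] at ht
        simp only [hG]
        rw [(uB ht.2.1).1, (uB ht.2.1).2]
  · rw [Finset.sum_ite_eq' _ (n1, n2, n3)]
    rw [if_pos]
    simp only [Finset.mem_filter, Finset.mem_univ, true_and]
    exact hU.top hn hN

end Pool.Agent.Work.MP_e680c3_co
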