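import Pool.Agent.Work.MP_e680c3_co.Geo2

/-!
# Combinatorial facts about a ray triangulation
-/

open Filter Topology

namespace Pool.Agent.Work.MP_e680c3_co

variable {V : Type*} {F : Set (V × V × V)} {P : V → Fin 3 → ℝ}

theorem par_of_crs {a b : Fin 3 → ℝ} (hb : b ≠ 0) (h : crs a b = 0) :
    a = (dt a b / dt b b) • b := by
  have h1 := dt_self_pos hb
  have c0 : a 1 * b 2 - a 2 * b 1 = 0 := by simpa [crs] using congrFun h 0
  have c1 : a 2 * b 0 - a 0 * b 2 = 0 := by simpa [crs] using congrFun h 1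
  have c2 : a 0 * b 1 - a 1 * b 0 = 0 := by simpa [crs] using congrFun h 2
  have h2 : dt b b • a = dt a b • b := by
    ext i
    fin_cases i
    · simp only [dt, Pi.smul_apply, smul_eq_mul, Fin.zero_eta]
      linear_combination (b 1) * c2 - (b 2) * c1
    · simp only [dt, Pi.smul_apply, smul_eq_mul, Fin.mk_one]
      linear_combination (b 2) * c0 - (b 0) * c2
    · simp only [dt, Pi.smul_apply, smul_eq_mul, Fin.reduceFinMk]
      linear_combination (b 0) * c1 - (b 1) * c0
  have h3 : a = (dt b b)⁻¹ • (dt b b • a) := by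
    rw [smul_smul, inv_mul_cancel₀ (ne_of_gt h1), one_smul]
  rw [h2, smul_smul] at h3
  rw [div_eq_inv_mul]
  exact h3

theorem RT.rot' (h : RT F P) {a b x : V} (hf : (a, b, x) ∈ F) : (x, a, b) ∈ F := h.rot (h.rot hf)

theorem RT.crs_ne (h : RT F P) {a b x : V} (hf : (a, b, x) ∈ F) : crs (P a) (P b) ≠ 0 := by
  intro h0
  have h1 := par_of_crs (h.nz b) h0
  rcases lt_trichotomy (dt (P a) (P b) / dt (P b) (P b)) 0 with h2 | h2 | h2
  · refine h.anti hf (- (dt (P a) (P b) / dt (P b) (P b))) (by linarith) ?_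
    rw [neg_smul, neg_neg]; exact h1
  · rw [h2, zero_smul] at h1
    exact h.nz a h1
  · exact h.ne hf (h.inj a b _ h2 h1)

theorem Cone_left (a b : Fin 3 → ℝ) : Cone a b a := ⟨1, 0, zero_le_one, le_rfl, by simp⟩
theorem Cone_right (a b : Fin 3 → ℝ) : Cone a b b := ⟨0, 1, le_rfl, zero_le_one, by simp⟩

/-- A vertex on an edge is one of its endpoints. -/
theorem RT.vertex_on_edge (h : RT F P) {a b x v : V} (hf : (a, b, x) ∈ F)
    (hv : Cone (P a) (P b) (P v)) : v = a ∨ v = b := by
  obtain ⟨w, y, hw⟩ := h.vert v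
  by_cases he : (a = v ∧ b = w) ∨ (a = w ∧ b = v)
  · rcases he with ⟨h1, _⟩ | ⟨_, h1⟩
    · exact Or.inl h1.symm
    · exact Or.inr h1.symm
  · obtain ⟨v', h1, h2, r, hr, h3⟩ := h.meet hf hw he (h.nz v) hv (Cone_left _ _)
    have := h.inj v v' r hr h3
    rw [this]; exact h1

theorem RT.nd (h : RT F P) {a b x : V} (hf : (a, b, x) ∈ F) : ND (P a) (P b) (P x) := by
  have hab := h.crs_ne hf
  refine ⟨hab, fun h0 => ?_⟩
  have n1 := h.ne hf
  have n2 := h.ne (h.rot hf)
  have n3 := h.ne (h.rot' hf)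
  have hsp := span_of_det hab h0
  set α := det3 (P x) (P b) (crs (P a) (P b)) / det3 (P a) (P b) (crs (P a) (P b))
  set β := det3 (P a) (P x) (crs (P a) (P b)) / det3 (P a) (P b) (crs (P a) (P b))
  by_cases hα : 0 ≤ α
  · exfalso
    by_cases hβ : 0 ≤ β
    · rcases h.vertex_on_edge hf ⟨α, β, hα, hβ, hsp⟩ with h1 | h1
      · exact n3 h1
      · exact n2 h1.symm
    · push Not at hβ
      rcases hα.eq_or_lt with h1 | h1
      · rw [← h1, zero_smul, zero_add] at hsp
        refine h.anti (h.rot hf) (- β⁻¹) (by have := inv_neg''.2 hβ; linarith) ?_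
        rw [hsp, smul_smul, neg_mul, inv_mul_cancel₀ (ne_of_lt hβ)]
        simp
      · have h2 : Cone (P b) (P x) (P a) := by
          refine ⟨- β / α, 1 / α, div_nonneg (by linarith) h1.le, by positivity, ?_⟩
          rw [hsp, smul_add, smul_smul, smul_smul]
          have e1 : 1 / α * α = 1 := by field_simp
          have e2 : 1 / α * β = β / α := by ring
          rw [e1, e2, neg_div]
          module
        rcases h.vertex_on_edge (h.rot hf) h2 with h3 | h3
        · exact n1 h3
        · exact n3 h3.symm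
  · push Not at hα
    by_cases hβ : 0 ≤ β
    · exfalso
      rcases hβ.eq_or_lt with h1 | h1
      · rw [← h1, zero_smul, add_zero] at hsp
        refine h.anti (h.rot' hf) (- α) (by linarith) ?_
        rw [hsp, neg_smul, neg_neg]
      · have h2 : Cone (P x) (P a) (P b) := by
          refine ⟨1 / β, - α / β, by positivity, div_nonneg (by linarith) h1.le, ?_⟩
          rw [hsp, smul_add, smul_smul, smul_smul]
          have e1 : 1 / β * β = 1 := by field_simp
          have e2 : 1 / β * α = α / β := by ring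
          rw [e1, e2, neg_div]
          module
        rcases h.vertex_on_edge (h.rot' hf) h2 with h3 | h3
        · exact n2 h3
        · exact n1 h3.symm
    · push Not at hβ
      refine ⟨-α, -β, 1, by linarith, by linarith, one_pos, ?_⟩
      conv_lhs => rw [hsp]
      module

theorem RT.uniq (h : RT F P) {a b x y : V} (hf : (a, b, x) ∈ F) (hf' : (a, b, y) ∈ F) : x = y := by
  have hpos := det3_crs_pos (h.crs_ne hf)
  have hy : P a + P b = (1 : ℝ) • P a + (1 : ℝ) • P b := by simp
  obtain ⟨ε, h1, h2⟩ := ((left_reg (x := P x) one_pos one_pos hy hpos).and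
    (left_reg (x := P y) one_pos one_pos hy hpos)).exists
  rcases h.disj hf hf' h1 h2 with ⟨_, _, e⟩ | ⟨e, _, _⟩ | ⟨_, e, _⟩
  · exact e.symm
  · exact (h.ne hf e).elim
  · exact (h.ne hf e.symm).elim

theorem Reg_rot {a b x y : Fin 3 → ℝ} (h : Reg a b x y) : Reg b x a y := by
  unfold Reg at h ⊢
  have e1 : det3 b x a = det3 a b x := det3_rot a b x
  have e2 : det3 y x a = det3 a y x := by simp only [det3]; ring
  have e3 : det3 b y a = det3 a b y := by simp only [det3]; ring
  have e4 : det3 b x y = det3 y b x := by simp only [det3]; ring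
  rw [e1, e2, e3, e4]
  tauto

/-- Positive proportionality of the determinants of a hemispherical face. -/
theorem prop_dets {a b x : Fin 3 → ℝ} {l1 l2 l3 : ℝ} (hrel : l1 • a + l2 • b + l3 • x = 0)
    (v : Fin 3 → ℝ) : l1 * det3 a b v = l3 * det3 v b x ∧ l2 * det3 a b v = l3 * det3 a v x := by
  constructor
  · have : det3 (l1 • a + l2 • b + l3 • x) b v = 0 := by rw [hrel, det3_zero1]
    rw [det3_add1, det3_add1, det3_smul1, det3_smul1, det3_smul1, det3_self1] at this
    have h2 : det3 x b v = - det3 v b x := by simp only [det3]; ring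
    rw [h2] at this
    linarith
  · have : det3 a (l1 • a + l2 • b + l3 • x) v = 0 := by rw [hrel, det3_zero2]
    rw [det3_add2, det3_add2, det3_smul2, det3_smul2, det3_smul2, det3_self1] at this
    have h2 : det3 a x v = - det3 a v x := by simp only [det3]; ring
    rw [h2] at this
    linarith

/-- The right side of an edge is not in the region on its left. -/
theorem not_right_reg {a b x : Fin 3 → ℝ} (hnd : ND a b x) :
    ∀ᶠ ε in 𝓝[>] (0 : ℝ), ¬ Reg a b x ((a + b) + ε • (- crs a b)) := by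
  set y := a + b with hy
  set w := - crs a b with hw
  have c1 := continuous_line y w
  have h0 : y + (0 : ℝ) • w = y := by rw [zero_smul, add_zero]
  have hpos := det3_crs_pos hnd.1
  have hD3 : ∀ ε : ℝ, det3 a b (y + ε • w) = - (ε * det3 a b (crs a b)) := by
    intro ε
    rw [det3_add3, hy, det3_add3, det3_smul3, det3_self2, det3_self3, hw]
    have : det3 a b (- crs a b) = - det3 a b (crs a b) := by
      simp only [det3, Pi.neg_apply]; ring
    rw [this]; ring
  have hD3' : ∀ᶠ ε in 𝓝[>] (0 : ℝ), det3 a b (y + ε • w) < 0 := by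
    filter_upwards [self_mem_nhdsWithin] with ε hε
    rw [hD3]
    have := mul_pos (show (0 : ℝ) < ε from hε) hpos
    linarith
  rcases lt_trichotomy (det3 a b x) 0 with hL | hL | hL
  · have k1 : Continuous (fun ε : ℝ => - det3 (y + ε • w) b x) :=
      (continuous_det3 c1 continuous_const continuous_const).neg
    have k2 : Continuous (fun ε : ℝ => - det3 a (y + ε • w) x) :=
      (continuous_det3 continuous_const c1 continuous_const).neg
    have e1 := eventually_pos_of_continuous k1 (by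
      simp only [h0]
      rw [hy, det3_add1, det3_self1]; linarith)
    have e2 := eventually_pos_of_continuous k2 (by
      simp only [h0]
      rw [hy, det3_add2, det3_self1]; linarith)
    filter_upwards [e1, e2, hD3'] with ε q1 q2 q3
    rintro (⟨h, _⟩ | ⟨_, h | h | h⟩) <;> linarith
  · obtain ⟨l1, l2, l3, hl1, hl2, hl3, hrel⟩ := hnd.2 hL
    filter_upwards [hD3'] with ε q3
    obtain ⟨r1, r2⟩ := prop_dets hrel (y + ε • w)
    have m1 := mul_neg_of_pos_of_neg hl1 q3
    have m2 := mul_neg_of_pos_of_neg hl2 q3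
    rintro (⟨h, _⟩ | ⟨_, h | h | h⟩)
    · linarith
    · have := mul_pos hl3 h; linarith
    · have := mul_pos hl3 h; linarith
    · linarith
  · filter_upwards [hD3'] with ε q3
    rintro (⟨_, _, _, h⟩ | ⟨h, _⟩) <;> linarith

theorem RT.symm [Finite V] (h : RT F P) {a b x : V} (hf : (a, b, x) ∈ F) :
    ∃ y, (b, a, y) ∈ F := by
  have hab := h.crs_ne hf
  have hpos := det3_crs_pos hab
  set y0 := P a + P b with hy0
  set w := - crs (P a) (P b) with hw
  have hD3 : ∀ ε : ℝ, det3 (P a) (P b) (y0 + ε • w) = - (ε * det3 (P a) (P b) (crs (P a) (P b))) := by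
    intro ε
    rw [det3_add3, hy0, det3_add3, det3_smul3, det3_self2, det3_self3, hw]
    have : det3 (P a) (P b) (- crs (P a) (P b)) = - det3 (P a) (P b) (crs (P a) (P b)) := by
      simp only [det3, Pi.neg_apply]; ring
    rw [this]; ring
  have hc0 : Cone (P a) (P b) y0 := ⟨1, 1, zero_le_one, zero_le_one, by rw [one_smul, one_smul]⟩
  have hy0n : y0 ≠ 0 := by
    intro h1
    have h2 : det3 (P a) y0 (crs (P a) (P b)) = 0 := by rw [h1, det3_zero2]
    rw [hy0, det3_add2, det3_self1] at h2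
    linarith
  have h1 : ∀ᶠ ε in 𝓝[>] (0 : ℝ), ∃ t : V × V × V, t ∈ F ∧
      (Cone (P t.1) (P t.2.1) (y0 + ε • w) ∨ Reg (P t.1) (P t.2.1) (P t.2.2) (y0 + ε • w)) := by
    filter_upwards [self_mem_nhdsWithin] with ε hε
    have hne : y0 + ε • w ≠ 0 := by
      intro h2
      have h3 := hD3 ε
      rw [h2, det3_zero3] at h3
      have := mul_pos (show (0 : ℝ) < ε from hε) hpos
      linarith
    obtain ⟨a', b', x', hf', hor⟩ := h.cover _ hne
    exact ⟨(a', b', x'), hf', hor⟩
  have h2 : ∃ t : V × V × V, ∃ᶠ ε in 𝓝[>] (0 : ℝ), t ∈ F ∧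
      (Cone (P t.1) (P t.2.1) (y0 + ε • w) ∨ Reg (P t.1) (P t.2.1) (P t.2.2) (y0 + ε • w)) := by
    by_contra hn
    push Not at hn
    have h3 := Filter.eventually_all.2 hn
    obtain ⟨ε, ⟨t, ht, hor⟩, h4⟩ := (h1.and h3).exists
    rcases hor with h5 | h5
    · exact (h4 t ht).1 h5
    · exact (h4 t ht).2 h5
  obtain ⟨⟨a', b', x'⟩, ht⟩ := h2
  obtain ⟨ε, hf', _⟩ := ht.exists
  have ht' : ∃ᶠ ε in 𝓝[>] (0 : ℝ), Cone (P a') (P b') (y0 + ε • w) ∨
      Reg (P a') (P b') (P x') (y0 + ε • w) := ht.mono (fun ε h => h.2)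
  -- an edge through `y0` is `a b`
  have hedge : ∀ {a' b' x' : V}, (a', b', x') ∈ F → Cone (P a') (P b') y0 →
      (a = a' ∧ b = b') ∨ (a = b' ∧ b = a') := by
    intro a' b' x' hf' hc
    by_contra hne
    obtain ⟨v, hv, _, r, hr, he⟩ := h.meet hf hf' hne hy0n hc0 hc
    rcases hv with rfl | rfl
    · have h3 : det3 (P v) y0 (crs (P v) (P b)) = 0 := by
        rw [he, det3_smul2, det3_self1, mul_zero]
      rw [hy0, det3_add2, det3_self1] at h3
      linarith
    · have h3 : det3 y0 (P v) (crs (P a) (P v)) = 0 := by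
        rw [he, det3_smul1, det3_self1, mul_zero]
      rw [hy0, det3_add1, det3_self1] at h3
      linarith
  have hreg : ∀ {a' b' x' : V}, (a', b', x') ∈ F → Cone (P a') (P b') y0 →
      (∃ᶠ ε in 𝓝[>] (0 : ℝ), Reg (P a') (P b') (P x') (y0 + ε • w)) → ∃ y, (b, a, y) ∈ F := by
    intro a' b' x' hf' hc hfr
    rcases hedge hf' hc with ⟨rfl, rfl⟩ | ⟨rfl, rfl⟩
    · exfalso
      obtain ⟨ε, q1, q2⟩ := (hfr.and_eventually (not_right_reg (h.nd hf'))).exists
      exact q2 q1
    · exact ⟨x', hf'⟩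
  rw [Filter.frequently_or_distrib] at ht'
  rcases ht' with h3 | h3
  · exfalso
    have h4 := Cone_closed (h.crs_ne hf') h3
    obtain ⟨ε, q1, q2⟩ := (h3.and_eventually self_mem_nhdsWithin).exists
    have q3 : Cone (P a) (P b) (y0 + ε • w) := by
      rcases hedge hf' h4 with ⟨rfl, rfl⟩ | ⟨rfl, rfl⟩
      · exact q1
      · exact Cone_swap q1
    have q4 := ((Cone_iff hab).1 q3).1
    rw [hD3] at q4
    have := mul_pos (show (0 : ℝ) < ε from q2) hpos
    linarith
  · rcases Reg_closure (h.nd hf') h3 with h4 | h4 | h4 | h4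
    · exact (h.off hf' hf h4 hc0).elim
    · exact hreg hf' h4 h3
    · exact hreg (h.rot hf') h4 (h3.mono (fun ε hε => Reg_rot hε))
    · exact hreg (h.rot' hf') h4 (h3.mono (fun ε hε => Reg_rot (Reg_rot hε)))

end Pool.Agent.Work.MP_e680c3_co
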