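import Pool.Agent.Work.MP_e680c3_co.Init
import Pool.Agent.Work.MP_e680c3_co.CoreD

/-!
# The combinatorial conditions at the initial time
-/

open Filter Topology

namespace Pool.Agent.Work.MP_e680c3_co

variable {V : Type*} {F : Set (V × V × V)} {c : V → ℝ × ℝ} {s : V → ℝ}

/-- A plane is covered by three cones whose generators positively span it. -/
theorem plane_cover {a b x y : Fin 3 → ℝ} (hab : crs a b ≠ 0) {l1 l2 l3 : ℝ} (hl1 : 0 < l1)
    (hl2 : 0 < l2) (hl3 : 0 < l3) (hrel : l1 • a + l2 • b + l3 • x = 0) (hz : det3 a b y = 0) :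
    Cone a b y ∨ Cone b x y ∨ Cone x a y := by
  have hsp := span_of_det hab hz
  set α := det3 y b (crs a b) / det3 a b (crs a b)
  set β := det3 a y (crs a b) / det3 a b (crs a b)
  by_cases h1 : 0 ≤ α ∧ 0 ≤ β
  · left
    exact ⟨α, β, h1.1, h1.2, hsp⟩
  · by_cases h2 : α * l2 ≤ β * l1
    · have hαn : α < 0 := by
        by_contra hh
        push Not at hh
        apply h1
        refine ⟨hh, ?_⟩
        by_contra hb
        push Not at hb
        nlinarith [mul_nonneg hh hl2.le, mul_neg_of_neg_of_pos hb hl1]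
      right; left
      refine ⟨β + (- α / l1) * l2, (- α / l1) * l3, ?_, ?_, ?_⟩
      · have : β + (- α / l1) * l2 = (β * l1 - α * l2) / l1 := by field_simp; ring
        rw [this]
        exact div_nonneg (by linarith) hl1.le
      · exact mul_nonneg (div_nonneg (by linarith) hl1.le) hl3.le
      · have h4 : y = (α • a + β • b) + (- α / l1) • (l1 • a + l2 • b + l3 • x) := by
          rw [hrel, smul_zero, add_zero]; exact hsp
        rw [h4]
        have h5 : (- α / l1) * l1 = - α := by field_simp
        have h6 : (- α / l1) • (l1 • a + l2 • b + l3 • x) =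
            (- α) • a + ((- α / l1) * l2) • b + ((- α / l1) * l3) • x := by
          rw [smul_add, smul_add, smul_smul, smul_smul, smul_smul, h5]
        rw [h6]
        module
    · push Not at h2
      have hβn : β < 0 := by
        by_contra hh
        push Not at hh
        apply h1
        refine ⟨?_, hh⟩
        by_contra hb
        push Not at hb
        nlinarith [mul_nonneg hh hl1.le, mul_neg_of_neg_of_pos hb hl2]
      right; right
      refine ⟨(- β / l2) * l3, α + (- β / l2) * l1, ?_, ?_, ?_⟩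
      · exact mul_nonneg (div_nonneg (by linarith) hl2.le) hl3.le
      · have : α + (- β / l2) * l1 = (α * l2 - β * l1) / l2 := by field_simp; ring
        rw [this]
        exact div_nonneg (by linarith) hl2.le
      · have h4 : y = (α • a + β • b) + (- β / l2) • (l1 • a + l2 • b + l3 • x) := by
          rw [hrel, smul_zero, add_zero]; exact hsp
        rw [h4]
        have h5 : (- β / l2) * l2 = - β := by field_simp
        have h6 : (- β / l2) • (l1 • a + l2 • b + l3 • x) =
            ((- β / l2) * l1) • a + (- β) • b + ((- β / l2) * l3) • x := by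
          rw [smul_add, smul_add, smul_smul, smul_smul, smul_smul, h5]
        rw [h6]
        module

/-- The north pole (`σ = 1`) and the south pole (`σ = -1`). -/
def pole (σ : ℝ) : Fin 3 → ℝ := pt (0, 0) σ

theorem pole_D1 (σ : ℝ) (_a b x : V) :
    det3 (pole σ) (PP c s b) (PP c s x) = σ * X (c b) (c x) := by
  rw [pole, PP, PP, det3_pt]; simp [X]

theorem pole_D2 (σ : ℝ) (a _b x : V) :
    det3 (PP c s a) (pole σ) (PP c s x) = σ * X (c x) (c a) := by
  rw [pole, PP, PP, det3_pt]; simp [X]

theorem pole_D3 (σ : ℝ) (a b _x : V) :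
    det3 (PP c s a) (PP c s b) (pole σ) = σ * X (c a) (c b) := by
  rw [pole, PP, PP, det3_pt]; simp [X]

theorem Reg_pole (σ : ℝ) (a b x : V) : Reg (PP c s a) (PP c s b) (PP c s x) (pole σ) ↔
    (0 < Lf c s a b x ∧ 0 < σ * X (c b) (c x) ∧ 0 < σ * X (c x) (c a) ∧ 0 < σ * X (c a) (c b)) ∨
    (Lf c s a b x ≤ 0 ∧ (0 < σ * X (c b) (c x) ∨ 0 < σ * X (c x) (c a) ∨
      0 < σ * X (c a) (c b))) := by
  unfold Reg
  rw [det3_PP, pole_D1 σ a b x, pole_D2 σ a b x, pole_D3 σ a b x]

theorem reg_north_of_nt {a b x : V} (h : Nt c a b x) :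
    Reg (PP c s a) (PP c s b) (PP c s x) (pole 1) := by
  rw [Reg_pole]
  simp only [one_mul]
  by_cases hL : 0 < Lf c s a b x
  · exact Or.inl ⟨hL, h.2.1, h.2.2, h.1⟩
  · push Not at hL
    exact Or.inr ⟨hL, Or.inl h.2.1⟩

theorem reg_south_of_st {a b x : V} (h : St c a b x) :
    Reg (PP c s a) (PP c s b) (PP c s x) (pole (-1)) := by
  rw [Reg_pole]
  have h1 : 0 < -1 * X (c b) (c x) := by linarith [h.2.1]
  have h2 : 0 < -1 * X (c x) (c a) := by linarith [h.2.2]
  have h3 : 0 < -1 * X (c a) (c b) := by linarith [h.1]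
  by_cases hL : 0 < Lf c s a b x
  · exact Or.inl ⟨hL, h1, h2, h3⟩
  · push Not at hL
    exact Or.inr ⟨hL, Or.inl h1⟩

theorem pole_ne_zero {σ : ℝ} (h : σ ≠ 0) : pole σ ≠ 0 := by
  intro h0
  have := congrFun h0 2
  simp [pole, pt] at this
  exact h this

/-- A hemispherical face containing the north pole winds around it. -/
theorem nt_of_zero (hR : RT F (PP c s)) {a b x : V} (hf : (a, b, x) ∈ F)
    (hL : Lf c s a b x = 0) (hN : Reg (PP c s a) (PP c s b) (PP c s x) (pole 1)) : Nt c a b x := by
  rw [← det3_PP] at hL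
  obtain ⟨l1, l2, l3, hl1, hl2, hl3, hrel⟩ := (hR.nd hf).2 hL
  obtain ⟨r1, r2⟩ := prop_dets hrel (pole 1)
  rw [det3_PP] at hL
  rw [Reg_pole] at hN
  rw [pole_D1 1 a b x, pole_D3 1 a b x] at r1
  rw [pole_D2 1 a b x, pole_D3 1 a b x] at r2
  simp only [one_mul] at r1 r2 hN
  have key : 0 < X (c a) (c b) → Nt c a b x := by
    intro h
    refine ⟨h, ?_, ?_⟩
    · have := mul_pos hl1 h
      rw [r1] at this
      exact (mul_pos_iff_of_pos_left hl3).1 this
    · have := mul_pos hl2 h
      rw [r2] at this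
      exact (mul_pos_iff_of_pos_left hl3).1 this
  rcases hN with ⟨h, _⟩ | ⟨_, h | h | h⟩
  · linarith
  · have := mul_pos hl3 h
    rw [← r1] at this
    exact key ((mul_pos_iff_of_pos_left hl1).1 this)
  · have := mul_pos hl3 h
    rw [← r2] at this
    exact key ((mul_pos_iff_of_pos_left hl2).1 this)
  · exact key h

/-- The face containing the north pole. -/
theorem exists_north_face (hR : RT F (PP c s))
    (hN : ∀ a b x, (a, b, x) ∈ F → ¬ Cone (PP c s a) (PP c s b) (pole 1)) :
    ∃ a b x, (a, b, x) ∈ F ∧ Reg (PP c s a) (PP c s b) (PP c s x) (pole 1) := by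
  obtain ⟨a, b, x, hf, h⟩ := hR.cover (pole 1) (pole_ne_zero one_ne_zero)
  rcases h with h | h
  · exact (hN a b x hf h).elim
  · exact ⟨a, b, x, hf, h⟩

section CaseB

variable (hu : ∀ v, (c v).1 ^ 2 + (c v).2 ^ 2 = 1) (hR : RT F (PP c s))
  (hN : ∀ a b x, (a, b, x) ∈ F → ¬ Cone (PP c s a) (PP c s b) (pole 1))

include hR hN in
theorem antipodal_sum {a b x : V} (hf : (a, b, x) ∈ F) (h : c a = - c b) : s a + s b < 0 := by
  by_contra hn
  push Not at hn
  rcases hn.eq_or_lt with h0 | h0
  · refine hR.anti hf 1 one_pos ?_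
    ext i
    have e0 : (c a).1 = - (c b).1 := by rw [h]; rfl
    have e1 : (c a).2 = - (c b).2 := by rw [h]; rfl
    fin_cases i
    · simp [PP, pt]; exact e0
    · simp [PP, pt]; exact e1
    · simp [PP, pt]; linarith
  · refine hN a b x hf ⟨1 / (s a + s b), 1 / (s a + s b), by positivity, by positivity, ?_⟩
    have e0 : (c a).1 = - (c b).1 := by rw [h]; rfl
    have e1 : (c a).2 = - (c b).2 := by rw [h]; rfl
    have hne := ne_of_gt h0
    ext i
    fin_cases i
    · simp [PP, pt, pole, e0]
    · simp [PP, pt, pole, e1]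
    · simp only [PP, pt, pole, Pi.add_apply, Pi.smul_apply, smul_eq_mul, Fin.reduceFinMk,
        Matrix.cons_val]
      field_simp

include hR hN in
theorem north_face_of_plane {a b x : V} (hf : (a, b, x) ∈ F) (hL : Lf c s a b x = 0)
    (h0 : X (c a) (c b) = 0) : False := by
  rw [← det3_PP] at hL
  obtain ⟨l1, l2, l3, hl1, hl2, hl3, hrel⟩ := (hR.nd hf).2 hL
  have h1 : det3 (PP c s a) (PP c s b) (pole 1) = 0 := by
    rw [pole_D3 1 a b x, h0, mul_zero]
  rcases plane_cover (hR.nd hf).1 hl1 hl2 hl3 hrel h1 with h | h | h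
  · exact hN _ _ _ hf h
  · exact hN _ _ _ (hR.rot hf) h
  · exact hN _ _ _ (hR.rot' hf) h

include hu hR hN in
theorem comb_of_rt [Finite V] {n1 n2 n3 : V} (hn : (n1, n2, n3) ∈ F)
    (hnN : Reg (PP c s n1) (PP c s n2) (PP c s n3) (pole 1)) (hnt : Nt c n1 n2 n3)
    (hnL : 0 ≤ Lf c s n1 n2 n3) : Comb F c where
  unit := hu
  rot := hR.rot
  uniq := hR.uniq
  symm := hR.symm
  vert := hR.vert
  ne := hR.ne
  noN := by
    intro a b x hf h0
    rcases X_zero_unit (hu a) (hu b) h0 with h | h
    · exact Or.inl h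
    · right
      refine ⟨h, ?_⟩
      have hs := antipodal_sum hR hN hf h
      have hL : Lf c s a b x = (s a + s b) * X (c b) (c x) := by
        simp only [Lf, h]
        rw [X_neg_right, X_swap (c x) (c b)]
        rw [X_neg_left, X_self]; ring
      rcases lt_trichotomy (X (c b) (c x)) 0 with h1 | h1 | h1
      · exact h1
      · exfalso
        rw [h1, mul_zero] at hL
        exact north_face_of_plane hR hN hf hL h0
      · exfalso
        have hL' : Lf c s a b x < 0 := by
          rw [hL]; exact mul_neg_of_neg_of_pos hs h1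
        have hreg : Reg (PP c s a) (PP c s b) (PP c s x) (pole 1) := by
          rw [Reg_pole]
          simp only [one_mul]
          exact Or.inr ⟨hL'.le, Or.inl h1⟩
        have hrot := hR.disj hf hn hreg hnN
        have : Lf c s n1 n2 n3 = Lf c s a b x := by
          rcases hrot with ⟨rfl, rfl, rfl⟩ | ⟨rfl, rfl, rfl⟩ | ⟨rfl, rfl, rfl⟩
          · rfl
          · rw [Lf_rot]
          · rw [Lf_rot, Lf_rot]
        linarith
  nuniq := fun hf hNt hf' hNt' =>
    hR.disj hf hf' (reg_north_of_nt hNt) (reg_north_of_nt hNt')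
  nex := ⟨n1, n2, n3, hn, hnt⟩

include hu hR hN in
theorem good_of_rt {n1 n2 n3 : V} (hn : (n1, n2, n3) ∈ F)
    (hnN : Reg (PP c s n1) (PP c s n2) (PP c s n3) (pole 1)) (hnt : Nt c n1 n2 n3) :
    Good F c s := by
  intro a b x hf
  by_cases hL : 0 < Lf c s a b x
  · exact Or.inr (Or.inr hL)
  · push Not at hL
    by_cases hreg : Reg (PP c s a) (PP c s b) (PP c s x) (pole 1)
    · left
      rcases hR.disj hn hf hnN hreg with ⟨rfl, rfl, rfl⟩ | ⟨rfl, rfl, rfl⟩ | ⟨rfl, rfl, rfl⟩
      · exact hnt
      · exact hnt.rot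
      · exact hnt.rot.rot
    · right; left
      have hX : X (c b) (c x) ≤ 0 ∧ X (c x) (c a) ≤ 0 ∧ X (c a) (c b) ≤ 0 := by
        by_contra hcon
        apply hreg
        rw [Reg_pole]
        simp only [one_mul]
        refine Or.inr ⟨hL, ?_⟩
        by_contra h1
        push Not at h1
        exact hcon h1
      have key : ∀ {a b x : V}, (a, b, x) ∈ F → Lf c s a b x ≤ 0 → X (c a) (c b) = 0 →
          X (c b) (c x) ≤ 0 → X (c x) (c a) ≤ 0 → False := by
        intro a b x hf hL h0 h1 h2
        rcases X_zero_unit (hu a) (hu b) h0 with h | h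
        · rw [h, X_swap] at h2
          have h3 : X (c b) (c x) = 0 := by linarith
          have h4 : Lf c s a b x = 0 := by
            simp only [Lf]
            rw [h, X_self, h3, X_swap (c x) (c b), h3]; ring
          exact north_face_of_plane hR hN hf h4 h0
        · have hs := antipodal_sum hR hN hf h
          have hL' : Lf c s a b x = (s a + s b) * X (c b) (c x) := by
            simp only [Lf, h]
            rw [X_neg_right, X_swap (c x) (c b)]
            rw [X_neg_left, X_self]; ring
          rcases h1.eq_or_lt with h3 | h3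
          · rw [h3, mul_zero] at hL'
            exact north_face_of_plane hR hN hf hL' h0
          · have := mul_pos_of_neg_of_neg hs h3
            linarith
      refine ⟨?_, ?_, ?_⟩
      · rcases hX.2.2.eq_or_lt with h | h
        · exact (key hf hL h hX.1 hX.2.1).elim
        · exact h
      · rcases hX.1.eq_or_lt with h | h
        · exact (key (hR.rot hf) (by rw [Lf_rot]; exact hL) h hX.2.1 hX.2.2).elim
        · exact h
      · rcases hX.2.1.eq_or_lt with h | h
        · exact (key (hR.rot' hf) (by rw [Lf_rot, Lf_rot]; exact hL) h hX.2.2 hX.1).elim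
        · exact h

end CaseB

end Pool.Agent.Work.MP_e680c3_co
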