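import Pool.Agent.Work.MP_e680c3_co.Sink

/-!
# The main theorem
-/

open Filter Topology

namespace Pool.Agent.Work.MP_e680c3_co

variable {V : Type*} {F : Set (V × V × V)}

/-! ### Shears -/

/-- A vertical shear of `ℝ³`. -/
def sh (p q : ℝ) (y : Fin 3 → ℝ) : Fin 3 → ℝ := ![y 0, y 1, y 2 + (p * y 0 + q * y 1)]

theorem sh_add (p q : ℝ) (y z : Fin 3 → ℝ) : sh p q (y + z) = sh p q y + sh p q z := by
  ext i; fin_cases i
  · simp [sh]
  · simp [sh]
  · simp [sh]; ring

theorem sh_smul (p q r : ℝ) (y : Fin 3 → ℝ) : sh p q (r • y) = r • sh p q y := by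
  ext i; fin_cases i
  · simp [sh]
  · simp [sh]
  · simp [sh]; ring

theorem sh_neg (p q : ℝ) (y : Fin 3 → ℝ) : sh p q (-y) = - sh p q y := by
  ext i; fin_cases i
  · simp [sh]
  · simp [sh]
  · simp [sh]; ring

theorem sh_inv (p q : ℝ) (y : Fin 3 → ℝ) : sh p q (sh (-p) (-q) y) = y := by
  ext i; fin_cases i
  · simp [sh]
  · simp [sh]
  · simp [sh]; ring

theorem sh_inv' (p q : ℝ) (y : Fin 3 → ℝ) : sh (-p) (-q) (sh p q y) = y := by
  have := sh_inv (-p) (-q) y
  rwa [neg_neg, neg_neg] at this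

theorem sh_inj (p q : ℝ) {y z : Fin 3 → ℝ} (h : sh p q y = sh p q z) : y = z := by
  rw [← sh_inv' p q y, h, sh_inv']

theorem sh_zero (p q : ℝ) : sh p q 0 = 0 := by
  ext i; fin_cases i <;> simp [sh]

theorem det3_sh (p q : ℝ) (a b x : Fin 3 → ℝ) :
    det3 (sh p q a) (sh p q b) (sh p q x) = det3 a b x := by
  simp [det3, sh]; ring

theorem Cone_sh (p q : ℝ) (a b y : Fin 3 → ℝ) :
    Cone (sh p q a) (sh p q b) (sh p q y) ↔ Cone a b y := by
  constructor
  · rintro ⟨α, β, hα, hβ, h⟩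
    refine ⟨α, β, hα, hβ, sh_inj p q ?_⟩
    rw [h, sh_add, sh_smul, sh_smul]
  · rintro ⟨α, β, hα, hβ, h⟩
    exact ⟨α, β, hα, hβ, by rw [h, sh_add, sh_smul, sh_smul]⟩

theorem Reg_sh (p q : ℝ) (a b x y : Fin 3 → ℝ) :
    Reg (sh p q a) (sh p q b) (sh p q x) (sh p q y) ↔ Reg a b x y := by
  unfold Reg
  rw [det3_sh, det3_sh, det3_sh, det3_sh]

theorem RT_sh {P : V → Fin 3 → ℝ} (h : RT F P) (p q : ℝ) : RT F (fun v => sh p q (P v)) where
  nz := fun v h0 => h.nz v (sh_inj p q (by rw [sh_zero]; exact h0))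
  inj := fun v w r hr he => h.inj v w r hr (sh_inj p q (by rw [sh_smul]; exact he))
  rot := h.rot
  ne := h.ne
  vert := h.vert
  anti := fun hf r hr he => h.anti hf r hr (sh_inj p q (by rw [sh_neg, sh_smul]; exact he))
  meet := by
    intro a b x a' b' x' hf hf' hne y hy h1 h2
    rw [← sh_inv p q y, Cone_sh] at h1 h2
    have hy' : sh (-p) (-q) y ≠ 0 := by
      intro h0
      apply hy
      rw [← sh_inv p q y, h0, sh_zero]
    obtain ⟨v, hv1, hv2, r, hr, he⟩ := h.meet hf hf' hne hy' h1 h2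
    refine ⟨v, hv1, hv2, r, hr, ?_⟩
    rw [← sh_inv p q y, he, sh_smul]
  off := by
    intro a b x a' b' x' hf hf' y h1 h2
    rw [← sh_inv p q y] at h1 h2
    exact h.off hf hf' ((Reg_sh _ _ _ _ _ _).1 h1) ((Cone_sh _ _ _ _ _).1 h2)
  disj := by
    intro a b x a' b' x' hf hf' y h1 h2
    rw [← sh_inv p q y] at h1 h2
    exact h.disj hf hf' ((Reg_sh _ _ _ _ _ _).1 h1) ((Reg_sh _ _ _ _ _ _).1 h2)
  cover := by
    intro y hy
    have hy' : sh (-p) (-q) y ≠ 0 := by
      intro h0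
      apply hy
      rw [← sh_inv p q y, h0, sh_zero]
    obtain ⟨a, b, x, hf, h1⟩ := h.cover _ hy'
    refine ⟨a, b, x, hf, ?_⟩
    rw [← sh_inv p q y, Cone_sh, Reg_sh]
    exact h1

theorem PP_shear (c : V → ℝ × ℝ) (s : V → ℝ) (p q : ℝ) (v : V) :
    PP c (fun v => s v + (p * (c v).1 + q * (c v).2)) v = sh p q (PP c s v) := by
  ext i; fin_cases i <;> simp [PP, pt, sh]

theorem RT_shear {c : V → ℝ × ℝ} {s : V → ℝ} (h : RT F (PP c s)) (p q : ℝ) :
    RT F (PP c (fun v => s v + (p * (c v).1 + q * (c v).2))) := by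
  have : PP c (fun v => s v + (p * (c v).1 + q * (c v).2)) = fun v => sh p q (PP c s v) := by
    ext v i
    rw [PP_shear]
  rw [this]
  exact RT_sh h p q

/-- When the face containing the north pole is bigger than a hemisphere, a shear sinks all the
vertices. -/
theorem sink_A0 {c : V → ℝ × ℝ} {s : V → ℝ} (hR : RT F (PP c s)) {a b x : V}
    (hf : (a, b, x) ∈ F) (hL : Lf c s a b x < 0) (hX : 0 < X (c a) (c b)) :
    ∃ p q : ℝ, ∀ v, s v + (p * (c v).1 + q * (c v).2) < 0 := by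
  have hD := vertex_not_reg hR hf (by rw [det3_PP]; exact hL.le)
  obtain ⟨δ, h1, h2⟩ := ((eventually_pos_of_continuous
    (f := fun δ : ℝ => X (c a) (c b) + δ * (X (c b) (c x) + X (c x) (c a))) (by fun_prop)
    (by simp only [zero_mul, add_zero]; exact hX)).and self_mem_nhdsWithin).exists
  have hδ : (0 : ℝ) < δ := h2
  set m := crs (PP c s a) (PP c s b) +
    δ • (crs (PP c s b) (PP c s x) + crs (PP c s x) (PP c s a)) with hm
  have hm2 : m 2 = X (c a) (c b) + δ * (X (c b) (c x) + X (c x) (c a)) := by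
    simp [hm, crs, PP, pt, X]
  have hm0 : 0 < m 2 := by rw [hm2]; exact h1
  have hdt : ∀ y, dt m y = det3 (PP c s a) (PP c s b) y +
      δ * (det3 y (PP c s b) (PP c s x) + det3 (PP c s a) y (PP c s x)) := by
    intro y
    simp [hm, dt, crs, det3]; ring
  refine ⟨m 0 / m 2, m 1 / m 2, fun v => ?_⟩
  rw [← functional_shear (ne_of_gt hm0)]
  apply div_neg_of_neg_of_pos _ hm0
  obtain ⟨d1, d2, d3⟩ := hD v
  rw [hdt]
  by_contra hn
  push Not at hn
  have k1 : δ * (det3 (PP c s v) (PP c s b) (PP c s x) +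
      det3 (PP c s a) (PP c s v) (PP c s x)) ≤ 0 :=
    mul_nonpos_of_nonneg_of_nonpos hδ.le (by linarith)
  have z3 : det3 (PP c s a) (PP c s b) (PP c s v) = 0 := by linarith
  have z12 : δ * (det3 (PP c s v) (PP c s b) (PP c s x) +
      det3 (PP c s a) (PP c s v) (PP c s x)) = 0 := by linarith
  have z12' := (mul_eq_zero.1 z12).resolve_left (ne_of_gt hδ)
  have z1 : det3 (PP c s v) (PP c s b) (PP c s x) = 0 := by linarith
  have z2 : det3 (PP c s a) (PP c s v) (PP c s x) = 0 := by linarith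
  have h5 := cramer (PP c s a) (PP c s b) (PP c s x) (PP c s v)
  rw [z1, z2, z3, zero_smul, zero_smul, zero_smul, add_zero, add_zero, det3_PP] at h5
  rcases smul_eq_zero.1 h5 with h3 | h3
  · exact (ne_of_lt hL) h3
  · exact hR.nz v h3

theorem sink_A {c : V → ℝ × ℝ} {s : V → ℝ} (hR : RT F (PP c s)) {a b x : V}
    (hf : (a, b, x) ∈ F) (hL : Lf c s a b x < 0)
    (hN : Reg (PP c s a) (PP c s b) (PP c s x) (pole 1)) :
    ∃ p q : ℝ, ∀ v, s v + (p * (c v).1 + q * (c v).2) < 0 := by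
  rw [Reg_pole] at hN
  simp only [one_mul] at hN
  rcases hN with ⟨h, _⟩ | ⟨_, h | h | h⟩
  · linarith
  · exact sink_A0 hR (hR.rot hf) (by rw [Lf_rot]; exact hL) h
  · exact sink_A0 hR (hR.rot' hf) (by rw [Lf_rot, Lf_rot]; exact hL) h
  · exact sink_A0 hR hf hL h

/-! ### The path -/

theorem nrm_smul {r : ℝ} (hr : 0 ≤ r) (y : Fin 3 → ℝ) : nrm (r • y) = r * nrm y := by
  simp only [nrm, Pi.smul_apply, smul_eq_mul]
  have : (r * y 0) ^ 2 + (r * y 1) ^ 2 + (r * y 2) ^ 2 = r ^ 2 * (y 0 ^ 2 + y 1 ^ 2 + y 2 ^ 2) := by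
    ring
  rw [this, Real.sqrt_mul (sq_nonneg r), Real.sqrt_sq hr]

theorem nrm_sphere {y : Fin 3 → ℝ} (h : y ∈ Sphere) : nrm y = 1 := by
  have : y 0 ^ 2 + y 1 ^ 2 + y 2 ^ 2 = 1 := h
  rw [nrm, this, Real.sqrt_one]

theorem continuous_nrm : Continuous nrm := by
  unfold nrm
  have e : ∀ i, Continuous (fun y : Fin 3 → ℝ => y i) := fun i => continuous_apply i
  exact ((((e 0).pow 2).add ((e 1).pow 2)).add ((e 2).pow 2)).sqrt

theorem sinkable_of_path {p : V → Fin 3 → ℝ} (hT : IsTriangulation F p)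
    {c : V → ℝ × ℝ} {s s1 : V → ℝ} {ρ : V → ℝ} (hρ : ∀ v, 0 < ρ v)
    (hu : ∀ v, (c v).1 ^ 2 + (c v).2 ^ 2 = 1)
    (hP : ∀ v, PP c s v = (ρ v)⁻¹ • p v)
    (hpath : ∀ t ∈ Set.Icc (0 : ℝ) 1, RT F (PP c (fun v => (1 - t) * s v + t * s1 v)))
    (hneg : ∀ v, s1 v < 0) : Sinkable F p := by
  have hnz : ∀ (r : V → ℝ) v, PP c r v ≠ 0 := by
    intro r v h
    have h0 := congrFun h 0
    have h1 := congrFun h 1
    simp [PP, pt] at h0 h1
    have := hu v
    rw [h0, h1] at this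
    norm_num at this
  refine ⟨fun t v => (nrm (PP c (fun v => (1 - t) * s v + t * s1 v) v))⁻¹ •
    PP c (fun v => (1 - t) * s v + t * s1 v) v, ?_, ?_, ?_, ?_, ?_⟩
  · apply Continuous.continuousOn
    apply continuous_pi
    intro v
    have h1 : Continuous (fun t : ℝ => PP c (fun v => (1 - t) * s v + t * s1 v) v) := by
      apply continuous_pi
      intro i
      fin_cases i
      · simp only [PP, pt, Fin.zero_eta, Matrix.cons_val_zero]; fun_prop
      · simp only [PP, pt, Fin.mk_one, Matrix.cons_val_one, Matrix.cons_val_zero]; fun_prop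
      · simp only [PP, pt, Fin.reduceFinMk, Matrix.cons_val]; fun_prop
    exact ((continuous_nrm.comp h1).inv₀ (fun t => ne_of_gt (nrm_pos (hnz _ v)))).smul h1
  · ext1 v
    have h1 : (fun v => (1 - (0 : ℝ)) * s v + 0 * s1 v) = s := by ext v; ring
    simp only [h1]
    rw [hP, nrm_smul (inv_pos.2 (hρ v)).le, nrm_sphere (hT.mem_sphere v), mul_one, inv_inv,
      smul_smul, mul_inv_cancel₀ (ne_of_gt (hρ v)), one_smul]
  · intro t ht
    exact triangulation_of_rt (hpath t ht)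
  · intro t ht v
    refine ⟨(nrm (PP c (fun v => (1 - t) * s v + t * s1 v) v))⁻¹ * (ρ v)⁻¹,
      mul_pos (inv_pos.2 (nrm_pos (hnz _ v))) (inv_pos.2 (hρ v)), ?_, ?_⟩
    · have h0 : (c v).1 = (ρ v)⁻¹ * p v 0 := by
        have := congrFun (hP v) 0
        simpa [PP, pt] using this
      simp only [Pi.smul_apply, smul_eq_mul, mul_assoc, ← h0]
      rfl
    · have h0 : (c v).2 = (ρ v)⁻¹ * p v 1 := by
        have := congrFun (hP v) 1
        simpa [PP, pt] using this
      simp only [Pi.smul_apply, smul_eq_mul, mul_assoc, ← h0]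
      rfl
  · intro v
    have h1 : (fun v => (1 - (1 : ℝ)) * s v + 1 * s1 v) = s1 := by ext v; ring
    simp only [h1]
    have h2 : PP c s1 v 2 = s1 v := rfl
    rw [Pi.smul_apply, smul_eq_mul, h2]
    exact mul_neg_of_pos_of_neg (inv_pos.2 (nrm_pos (hnz _ v))) (hneg v)

theorem sinkable_of_north [Finite V] {p : V → Fin 3 → ℝ} (hT : IsTriangulation F p)
    (hp : ∀ v, p v 0 ≠ 0 ∨ p v 1 ≠ 0) (hun : HasUncrossedGreatCircle F p)
    (hN : ∀ a b x, (a, b, x) ∈ F → north ∉ arc (p a) (p b)) : Sinkable F p := by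
  set ρ : V → ℝ := fun v => Real.sqrt (p v 0 ^ 2 + p v 1 ^ 2) with hρdef
  have hρ : ∀ v, 0 < ρ v := by
    intro v
    apply Real.sqrt_pos.2
    rcases hp v with h | h
    · have := sq_pos_of_ne_zero h; nlinarith [sq_nonneg (p v 1)]
    · have := sq_pos_of_ne_zero h; nlinarith [sq_nonneg (p v 0)]
  have hρ2 : ∀ v, ρ v ^ 2 = p v 0 ^ 2 + p v 1 ^ 2 := fun v => Real.sq_sqrt (by positivity)
  set c : V → ℝ × ℝ := fun v => ((ρ v)⁻¹ * p v 0, (ρ v)⁻¹ * p v 1) with hc
  set s : V → ℝ := fun v => (ρ v)⁻¹ * p v 2 with hs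
  have hu : ∀ v, (c v).1 ^ 2 + (c v).2 ^ 2 = 1 := by
    intro v
    have h1 := hρ v
    have h2 := hρ2 v
    simp only [hc]
    have : ((ρ v)⁻¹ * p v 0) ^ 2 + ((ρ v)⁻¹ * p v 1) ^ 2 = (ρ v)⁻¹ ^ 2 * (p v 0 ^ 2 + p v 1 ^ 2) := by
      ring
    rw [this, ← h2, ← mul_pow, inv_mul_cancel₀ (ne_of_gt h1), one_pow]
  have hP : ∀ v, PP c s v = (ρ v)⁻¹ • p v := by
    intro v
    ext i; fin_cases i <;> simp [PP, pt, hc, hs]
  have hR : RT F (PP c s) := rt_of_triangulation (fun v => inv_pos.2 (hρ v)) hP hT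
  have hN' : ∀ a b x, (a, b, x) ∈ F → ¬ Cone (PP c s a) (PP c s b) (pole 1) := by
    intro a b x hf h
    apply hN a b x hf
    refine ⟨by simp [Sphere, north], ?_⟩
    rw [hP, hP] at h
    have e1 := Cone_smul (inv_pos.2 (hρ a)) (inv_pos.2 (hρ b)) one_pos (p a) (p b) (pole 1)
    rw [one_smul] at e1
    have h2 := e1.1 h
    have h3 : pole 1 = north := by
      ext i; fin_cases i <;> simp [pole, pt, north]
    rw [h3] at h2
    exact h2
  have hun' : ∃ m : Fin 3 → ℝ, m ≠ 0 ∧ ∀ a b x, (a, b, x) ∈ F →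
      ¬ (0 < dt m (PP c s a) ∧ dt m (PP c s b) < 0) := by
    obtain ⟨n, hn, hcr⟩ := hun
    refine ⟨n, hn, fun a b x hf => ?_⟩
    rintro ⟨h1, h2⟩
    have key : ∀ v, dt n (PP c s v) = (ρ v)⁻¹ * ∑ i, n i * p v i := by
      intro v
      rw [hP, Fin.sum_univ_three]
      simp only [dt, Pi.smul_apply, smul_eq_mul]; ring
    rw [key] at h1 h2
    refine hcr a b x hf ⟨⟨p a, ⟨hT.mem_sphere a, Cone_left _ _⟩, ?_⟩,
      ⟨p b, ⟨hT.mem_sphere b, Cone_right _ _⟩, ?_⟩⟩
    · exact (mul_pos_iff_of_pos_left (inv_pos.2 (hρ a))).1 h1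
    · by_contra hh
      push Not at hh
      have := mul_nonneg (inv_pos.2 (hρ b)).le hh
      linarith
  obtain ⟨n1, n2, n3, hn, hnN⟩ := exists_north_face hR hN'
  rcases lt_or_ge (Lf c s n1 n2 n3) 0 with hL | hL
  · obtain ⟨P, Q, hPQ⟩ := sink_A hR hn hL hnN
    refine sinkable_of_path hT hρ hu hP (s1 := fun v => s v + (P * (c v).1 + Q * (c v).2)) ?_ hPQ
    intro t _
    have h1 : (fun v => (1 - t) * s v + t * (s v + (P * (c v).1 + Q * (c v).2))) =
        fun v => s v + ((t * P) * (c v).1 + (t * Q) * (c v).2) := by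
      ext v; ring
    rw [h1]
    exact RT_shear hR _ _
  · have hnt : Nt c n1 n2 n3 := by
      rcases hL.eq_or_lt with h0 | h0
      · exact nt_of_zero hR hn h0.symm hnN
      · rw [Reg_pole] at hnN
        simp only [one_mul] at hnN
        rcases hnN with ⟨_, h1, h2, h3⟩ | ⟨h, _⟩
        · exact ⟨h3, h1, h2⟩
        · linarith
    have hC := comb_of_rt hu hR hN' hn hnN hnt hL
    have hG := good_of_rt hu hR hN' hn hnN hnt
    obtain ⟨s', hs', hG'⟩ := exists_sink hC hG hR hn hnt hL hun'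
    refine sinkable_of_path hT hρ hu hP (s1 := s') ?_ hs'
    rintro t ⟨ht0, ht1⟩
    apply rt_of_good hC
    intro a b x hf
    rcases hG a b x hf with h | h | h
    · exact Or.inl h
    · exact Or.inr (Or.inl h)
    · rcases hG' a b x hf with h' | h' | h'
      · exact Or.inl h'
      · exact Or.inr (Or.inl h')
      · right; right
        have : Lf c (fun v => (1 - t) * s v + t * s' v) a b x =
            (1 - t) * Lf c s a b x + t * Lf c s' a b x := by simp only [Lf]; ring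
        rw [this]
        rcases ht0.eq_or_lt with h0 | h0
        · rw [← h0]; linarith
        · have := mul_pos h0 h'
          have := mul_nonneg (sub_nonneg.2 ht1) h.le
          linarith

/-- An edge through the north pole prevents sinking. -/
theorem not_sinkable_of_north {p : V → Fin 3 → ℝ}
    (hp : ∀ v, p v 0 ≠ 0 ∨ p v 1 ≠ 0) {a b x : V} (hf : (a, b, x) ∈ F)
    (hN : north ∈ arc (p a) (p b)) : ¬ Sinkable F p := by
  rintro ⟨q, hq, hq0, hqT, hql, hq1⟩
  obtain ⟨_, α, β, hα, hβ, hab⟩ := hN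
  have e0 : 0 = α * p a 0 + β * p b 0 := by simpa [north] using congrFun hab 0
  have e1 : 0 = α * p a 1 + β * p b 1 := by simpa [north] using congrFun hab 1
  have e2 : 1 = α * p a 2 + β * p b 2 := by simpa [north] using congrFun hab 2
  have hα' : 0 < α := by
    rcases hα.eq_or_lt with h | h
    · exfalso
      rw [← h] at e0 e1 e2
      have hβ0 : β ≠ 0 := by rintro rfl; norm_num at e2
      rcases hp b with h1 | h1
      · have : β * p b 0 = 0 := by linarith
        exact (mul_ne_zero hβ0 h1) this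
      · have : β * p b 1 = 0 := by linarith
        exact (mul_ne_zero hβ0 h1) this
    · exact h
  have hβ' : 0 < β := by
    rcases hβ.eq_or_lt with h | h
    · exfalso
      rw [← h] at e0 e1 e2
      rcases hp a with h1 | h1
      · have : α * p a 0 = 0 := by linarith
        exact (mul_ne_zero (ne_of_gt hα') h1) this
      · have : α * p a 1 = 0 := by linarith
        exact (mul_ne_zero (ne_of_gt hα') h1) this
    · exact h
  -- the horizontal direction of `a`
  set u0 := p a 0 with hu0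
  set u1 := p a 1 with hu1
  have hupos : 0 < u0 ^ 2 + u1 ^ 2 := by
    rcases hp a with h | h
    · have := sq_pos_of_ne_zero h; nlinarith [sq_nonneg u1]
    · have := sq_pos_of_ne_zero h; nlinarith [sq_nonneg u0]
  have b0 : p b 0 = - (α / β) * u0 := by field_simp; linarith
  have b1 : p b 1 = - (α / β) * u1 := by field_simp; linarith
  set f : ℝ → ℝ := fun t => q t a 2 * (- (u0 * q t b 0 + u1 * q t b 1)) +
    q t b 2 * (u0 * q t a 0 + u1 * q t a 1) with hfdef
  have hcq : ∀ v i, ContinuousOn (fun t => q t v i) (Set.Icc 0 1) := by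
    intro v i
    exact (continuousOn_pi.1 ((continuousOn_pi.1 hq) v)) i
  have hfc : ContinuousOn f (Set.Icc 0 1) := by
    have a0 := hcq a 0
    have a1 := hcq a 1
    have a2 := hcq a 2
    have b0 := hcq b 0
    have b1 := hcq b 1
    have b2 := hcq b 2
    simp only [hfdef]
    exact (a2.mul (((continuousOn_const.mul b0).add (continuousOn_const.mul b1)).neg)).add
      (b2.mul ((continuousOn_const.mul a0).add (continuousOn_const.mul a1)))
  have hf0 : 0 < f 0 := by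
    simp only [hfdef, hq0]
    rw [b0, b1, ← hu0, ← hu1]
    have : p a 2 * -(u0 * (-(α / β) * u0) + u1 * (-(α / β) * u1)) + p b 2 * (u0 * u0 + u1 * u1) =
        (u0 ^ 2 + u1 ^ 2) / β * (α * p a 2 + β * p b 2) := by
      field_simp
      ring
    rw [this, ← e2, mul_one]
    exact div_pos hupos hβ'
  have hf1 : f 1 < 0 := by
    obtain ⟨r, hr, r0, r1⟩ := hql 1 (by simp) a
    obtain ⟨r', hr', r0', r1'⟩ := hql 1 (by simp) b
    simp only [hfdef]
    rw [r0, r1, r0', r1', b0, b1, ← hu0, ← hu1]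
    have k1 := mul_pos (mul_pos hr' (div_pos hα' hβ')) hupos
    have k2 := mul_pos hr hupos
    have m1 := mul_neg_of_neg_of_pos (hq1 a) k1
    have m2 := mul_neg_of_neg_of_pos (hq1 b) k2
    have : q 1 a 2 * -(u0 * (r' * (-(α / β) * u0)) + u1 * (r' * (-(α / β) * u1))) +
        q 1 b 2 * (u0 * (r * u0) + u1 * (r * u1)) =
        q 1 a 2 * (r' * (α / β) * (u0 ^ 2 + u1 ^ 2)) + q 1 b 2 * (r * (u0 ^ 2 + u1 ^ 2)) := by
      ring
    rw [this]
    linarith
  obtain ⟨t, ht, hft⟩ : ∃ t ∈ Set.Icc (0 : ℝ) 1, f t = 0 := by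
    have := intermediate_value_Icc' (zero_le_one) hfc
    exact this ⟨hf1.le, hf0.le⟩
  obtain ⟨r, hr, r0, r1⟩ := hql t ht a
  obtain ⟨r', hr', r0', r1'⟩ := hql t ht b
  have hTt := hqT t ht
  have sa : (q t a 0) ^ 2 + (q t a 1) ^ 2 + (q t a 2) ^ 2 = 1 := hTt.mem_sphere a
  have sb : (q t b 0) ^ 2 + (q t b 1) ^ 2 + (q t b 2) ^ 2 = 1 := hTt.mem_sphere b
  -- put `k = r' α / β`; then `b = (- k u, zb)` and `a = (r u, za)` with `za k + zb r = 0`
  set k := r' * (α / β) with hk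
  have hkpos : 0 < k := mul_pos hr' (div_pos hα' hβ')
  have qa0 : q t a 0 = r * u0 := r0
  have qa1 : q t a 1 = r * u1 := r1
  have qb0 : q t b 0 = - k * u0 := by rw [r0', b0, hk]; ring
  have qb1 : q t b 1 = - k * u1 := by rw [r1', b1, hk]; ring
  have hrel : q t a 2 * k + q t b 2 * r = 0 := by
    have h1 : f t = (u0 ^ 2 + u1 ^ 2) * (q t a 2 * k + q t b 2 * r) := by
      simp only [hfdef]
      rw [qa0, qa1, qb0, qb1]; ring
    rw [h1] at hft
    exact (mul_eq_zero.1 hft).resolve_left (ne_of_gt hupos)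
  rw [qa0, qa1] at sa
  rw [qb0, qb1] at sb
  have hkr : k = r := by
    have h1 : q t b 2 * r = - (q t a 2 * k) := by linarith
    have h2 : (q t b 2) ^ 2 * r ^ 2 = (q t a 2) ^ 2 * k ^ 2 := by
      have : (q t b 2 * r) ^ 2 = (q t a 2 * k) ^ 2 := by rw [h1]; ring
      rw [mul_pow, mul_pow] at this
      exact this
    have h3 : (q t b 2) ^ 2 = 1 - k ^ 2 * (u0 ^ 2 + u1 ^ 2) := by linarith
    have h4 : (q t a 2) ^ 2 = 1 - r ^ 2 * (u0 ^ 2 + u1 ^ 2) := by linarith
    rw [h3, h4] at h2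
    have h5 : k ^ 2 = r ^ 2 := by linear_combination - h2
    exact (pow_left_inj₀ hkpos.le hr.le two_ne_zero).1 h5
  have hz : q t b 2 = - q t a 2 := by
    rw [hkr] at hrel
    have : (q t a 2 + q t b 2) * r = 0 := by linarith
    have := (mul_eq_zero.1 this).resolve_right (ne_of_gt hr)
    linarith
  apply hTt.not_antipodal a b x hf
  ext i
  fin_cases i
  · simp only [Fin.zero_eta, Pi.neg_apply]
    rw [qa0, qb0, hkr]; ring
  · simp only [Fin.mk_one, Pi.neg_apply]
    rw [qa1, qb1, hkr]; ring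
  · simp only [Fin.reduceFinMk, Pi.neg_apply]
    rw [hz]; ring

theorem main [Finite V] {p : V → Fin 3 → ℝ} (hT : IsTriangulation F p)
    (hp : ∀ v, p v 0 ≠ 0 ∨ p v 1 ≠ 0) (hun : HasUncrossedGreatCircle F p) :
    Sinkable F p ↔ ∀ a b x, (a, b, x) ∈ F → north ∉ arc (p a) (p b) := by
  constructor
  · intro h a b x hf hN
    exact not_sinkable_of_north hp hf hN h
  · exact sinkable_of_north hT hp hun

end Pool.Agent.Work.MP_e680c3_co
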