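import Pool.Agent.Work.MP_e680c3_co.Main

/-!
# An octahedron with an edge through the north pole
-/

namespace Pool.Agent.Work.MP_e680c3_co

/-- The sign of a Boolean. -/
def sg (b : Bool) : ℝ := if b then 1 else -1

theorem sg_mul_self (b : Bool) : sg b * sg b = 1 := by cases b <;> simp [sg]

theorem sg_ne (b : Bool) : sg b ≠ 0 := by cases b <;> simp [sg]

theorem sg_inj {b b' : Bool} {y : ℝ} (h : 0 < sg b * y) (h' : 0 < sg b' * y) : b = b' := by
  cases b <;> cases b' <;> simp [sg] at h h' ⊢ <;> linarith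

/-- The six unit vectors of the axes. -/
def ax (v : Fin 3 × Bool) : Fin 3 → ℝ := fun i => if i = v.1 then sg v.2 else 0

/-- The faces of the octahedron. -/
def FO : Set ((Fin 3 × Bool) × (Fin 3 × Bool) × (Fin 3 × Bool)) :=
  {t | 0 < det3 (ax t.1) (ax t.2.1) (ax t.2.2)}

theorem ax_self (v : Fin 3 × Bool) : ax v v.1 = sg v.2 := by simp [ax]

theorem ax_ne {v : Fin 3 × Bool} {i : Fin 3} (h : i ≠ v.1) : ax v i = 0 := by simp [ax, h]

theorem par_det {a b : Fin 3 × Bool} (h : a.1 = b.1) (y : Fin 3 → ℝ) :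
    det3 (ax a) (ax b) y = 0 := by
  have h1 : ax b = (sg b.2 * sg a.2) • ax a := by
    ext i
    by_cases hi : i = a.1
    · simp only [Pi.smul_apply, smul_eq_mul]
      rw [hi, ax_self, h, ax_self, mul_assoc, sg_mul_self, mul_one]
    · simp only [Pi.smul_apply, smul_eq_mul]
      rw [ax_ne hi, ax_ne (by rw [← h]; exact hi), mul_zero]
  rw [h1, det3_smul2, det3_self1, mul_zero]

theorem FO_ne1 {a b x : Fin 3 × Bool} (h : (a, b, x) ∈ FO) : a.1 ≠ b.1 := by
  intro h0
  have h1 : 0 < det3 (ax a) (ax b) (ax x) := h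
  rw [par_det h0] at h1
  exact lt_irrefl _ h1

theorem FO_rot {a b x : Fin 3 × Bool} (h : (a, b, x) ∈ FO) : (b, x, a) ∈ FO := by
  have h1 : 0 < det3 (ax a) (ax b) (ax x) := h
  have h2 := det3_rot (ax a) (ax b) (ax x)
  show 0 < det3 (ax b) (ax x) (ax a)
  rw [h2]; exact h1

/-- Coordinates of a point of a cone. -/
theorem cone_coord {a b : Fin 3 × Bool} (hab : a.1 ≠ b.1) {y : Fin 3 → ℝ} {α β : ℝ}
    (h : y = α • ax a + β • ax b) : y a.1 = α * sg a.2 ∧ y b.1 = β * sg b.2 ∧
      ∀ k, k ≠ a.1 → k ≠ b.1 → y k = 0 := by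
  refine ⟨?_, ?_, ?_⟩
  · rw [h]; simp only [Pi.add_apply, Pi.smul_apply, smul_eq_mul]
    rw [ax_self, ax_ne hab]; ring
  · rw [h]; simp only [Pi.add_apply, Pi.smul_apply, smul_eq_mul]
    rw [ax_self, ax_ne (Ne.symm hab)]; ring
  · intro k h1 h2
    rw [h]; simp only [Pi.add_apply, Pi.smul_apply, smul_eq_mul]
    rw [ax_ne h1, ax_ne h2]; ring

/-- Signs of the coordinates of a point of a face. -/
theorem reg_sign {a b x : Fin 3 × Bool} (hf : (a, b, x) ∈ FO) {y : Fin 3 → ℝ}
    (h : Reg (ax a) (ax b) (ax x) y) :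
    0 < sg a.2 * y a.1 ∧ 0 < sg b.2 * y b.1 ∧ 0 < sg x.2 * y x.1 := by
  have hL : 0 < det3 (ax a) (ax b) (ax x) := hf
  have n1 := FO_ne1 hf
  have n2 := FO_ne1 (FO_rot hf)
  have n3 := FO_ne1 (FO_rot (FO_rot hf))
  rcases h with ⟨_, d1, d2, d3⟩ | ⟨h, _⟩
  · have hc := cramer (ax a) (ax b) (ax x) y
    have e : ∀ i, det3 (ax a) (ax b) (ax x) * y i = det3 y (ax b) (ax x) * ax a i +
        det3 (ax a) y (ax x) * ax b i + det3 (ax a) (ax b) y * ax x i := by
      intro i
      have := congrFun hc i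
      simpa using this
    have ea := e a.1
    have eb := e b.1
    have ex := e x.1
    rw [ax_self, ax_ne n1, ax_ne (Ne.symm n3)] at ea
    rw [ax_self, ax_ne (Ne.symm n1), ax_ne n2] at eb
    rw [ax_self, ax_ne n3, ax_ne (Ne.symm n2)] at ex
    have sa := sg_mul_self a.2
    have sb := sg_mul_self b.2
    have sx := sg_mul_self x.2
    refine ⟨?_, ?_, ?_⟩
    · have : det3 (ax a) (ax b) (ax x) * (sg a.2 * y a.1) = det3 y (ax b) (ax x) := by
        calc det3 (ax a) (ax b) (ax x) * (sg a.2 * y a.1)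
            = sg a.2 * (det3 (ax a) (ax b) (ax x) * y a.1) := by ring
          _ = det3 y (ax b) (ax x) := by rw [ea]; linear_combination (det3 y (ax b) (ax x)) * sa
      rw [← this] at d1
      exact (mul_pos_iff_of_pos_left hL).1 d1
    · have : det3 (ax a) (ax b) (ax x) * (sg b.2 * y b.1) = det3 (ax a) y (ax x) := by
        calc det3 (ax a) (ax b) (ax x) * (sg b.2 * y b.1)
            = sg b.2 * (det3 (ax a) (ax b) (ax x) * y b.1) := by ring
          _ = det3 (ax a) y (ax x) := by rw [eb]; linear_combination (det3 (ax a) y (ax x)) * sb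
      rw [← this] at d2
      exact (mul_pos_iff_of_pos_left hL).1 d2
    · have : det3 (ax a) (ax b) (ax x) * (sg x.2 * y x.1) = det3 (ax a) (ax b) y := by
        calc det3 (ax a) (ax b) (ax x) * (sg x.2 * y x.1)
            = sg x.2 * (det3 (ax a) (ax b) (ax x) * y x.1) := by ring
          _ = det3 (ax a) (ax b) y := by rw [ex]; linear_combination (det3 (ax a) (ax b) y) * sx
      rw [← this] at d3
      exact (mul_pos_iff_of_pos_left hL).1 d3
  · linarith

theorem axis_cases {i j k l : Fin 3} (h1 : i ≠ j) (h2 : j ≠ k) (h3 : k ≠ i) :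
    l = i ∨ l = j ∨ l = k := by
  revert h1 h2 h3; revert i j k l; decide

/-- The sign vertex of a coordinate. -/
noncomputable def vx (y : Fin 3 → ℝ) (i : Fin 3) : Fin 3 × Bool := (i, decide (0 ≤ y i))

theorem vx_sign (y : Fin 3 → ℝ) (i : Fin 3) : |y i| * sg (vx y i).2 = y i := by
  by_cases h : 0 ≤ y i
  · simp [vx, sg, h, abs_of_nonneg h]
  · have h' : y i < 0 := not_le.1 h
    simp [vx, sg, h, abs_of_neg h']

theorem vx_sum (y : Fin 3 → ℝ) :
    y = |y 0| • ax (vx y 0) + |y 1| • ax (vx y 1) + |y 2| • ax (vx y 2) := by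
  ext i
  have h := vx_sign y i
  simp only [Pi.add_apply, Pi.smul_apply, smul_eq_mul]
  fin_cases i
  · have e0 : ax (vx y 0) 0 = sg (vx y 0).2 := ax_self (vx y 0)
    have e1 : ax (vx y 1) 0 = 0 := ax_ne (by simp [vx])
    have e2 : ax (vx y 2) 0 = 0 := ax_ne (by simp [vx])
    simp only [Fin.zero_eta] at h ⊢
    rw [e0, e1, e2, h]; ring
  · have e0 : ax (vx y 0) 1 = 0 := ax_ne (by simp [vx])
    have e1 : ax (vx y 1) 1 = sg (vx y 1).2 := ax_self (vx y 1)
    have e2 : ax (vx y 2) 1 = 0 := ax_ne (by simp [vx])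
    simp only [Fin.mk_one] at h ⊢
    rw [e0, e1, e2, h]; ring
  · have e0 : ax (vx y 0) 2 = 0 := ax_ne (by simp [vx])
    have e1 : ax (vx y 1) 2 = 0 := ax_ne (by simp [vx])
    have e2 : ax (vx y 2) 2 = sg (vx y 2).2 := ax_self (vx y 2)
    simp only [Fin.reduceFinMk] at h ⊢
    rw [e0, e1, e2, h]; ring

theorem det_ax (b0 b1 b2 : Bool) :
    det3 (ax ((0 : Fin 3), b0)) (ax ((1 : Fin 3), b1)) (ax ((2 : Fin 3), b2)) =
      sg b0 * sg b1 * sg b2 := by
  simp [det3, ax]; ring

theorem sg3 (b0 b1 b2 : Bool) : sg b0 * sg b1 * sg b2 = 1 ∨ sg b0 * sg b1 * sg b2 = -1 := by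
  cases b0 <;> cases b1 <;> cases b2 <;> simp [sg]

/-- Two vertices on different axes form an edge. -/
theorem FO_edge {a b : Fin 3 × Bool} (h : a.1 ≠ b.1) : ∃ x, (a, b, x) ∈ FO := by
  obtain ⟨i, bi⟩ := a
  obtain ⟨j, bj⟩ := b
  simp only at h
  have key : ∀ (i j k : Fin 3) (bi bj : Bool), i ≠ j → j ≠ k → k ≠ i →
      det3 (ax (i, bi)) (ax (j, bj)) (ax (k, true)) ≠ 0 := by
    intro i j k bi bj h1 h2 h3
    fin_cases i <;> fin_cases j <;> fin_cases k <;> simp at h1 h2 h3 <;>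
      cases bi <;> cases bj <;> simp [det3, ax, sg]
  obtain ⟨k, hk1, hk2⟩ : ∃ k : Fin 3, j ≠ k ∧ k ≠ i := by
    revert h; revert i j; decide
  have h1 := key i j k bi bj h hk1 hk2
  rcases lt_or_gt_of_ne h1 with h2 | h2
  · refine ⟨(k, false), ?_⟩
    show 0 < det3 (ax (i, bi)) (ax (j, bj)) (ax (k, false))
    have : ax (k, false) = (-1 : ℝ) • ax (k, true) := by
      ext l; by_cases hl : l = k <;> simp [ax, sg, hl]
    rw [this, det3_smul3]; linarith
  · exact ⟨(k, true), h2⟩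

theorem FO_cover (y : Fin 3 → ℝ) :
    ∃ a b x, (a, b, x) ∈ FO ∧ (Cone (ax a) (ax b) y ∨ Reg (ax a) (ax b) (ax x) y) := by
  have hs := vx_sum y
  by_cases h0 : y 0 = 0
  · obtain ⟨x, hx⟩ := FO_edge (a := vx y 1) (b := vx y 2) (by simp [vx])
    refine ⟨_, _, x, hx, Or.inl ⟨|y 1|, |y 2|, abs_nonneg _, abs_nonneg _, ?_⟩⟩
    rw [h0, abs_zero, zero_smul, zero_add] at hs
    exact hs
  by_cases h1 : y 1 = 0
  · obtain ⟨x, hx⟩ := FO_edge (a := vx y 0) (b := vx y 2) (by simp [vx])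
    refine ⟨_, _, x, hx, Or.inl ⟨|y 0|, |y 2|, abs_nonneg _, abs_nonneg _, ?_⟩⟩
    rw [h1, abs_zero, zero_smul, add_zero] at hs
    exact hs
  by_cases h2 : y 2 = 0
  · obtain ⟨x, hx⟩ := FO_edge (a := vx y 0) (b := vx y 1) (by simp [vx])
    refine ⟨_, _, x, hx, Or.inl ⟨|y 0|, |y 1|, abs_nonneg _, abs_nonneg _, ?_⟩⟩
    rw [h2, abs_zero, zero_smul, add_zero] at hs
    exact hs
  have p0 : 0 < |y 0| := abs_pos.2 h0
  have p1 : 0 < |y 1| := abs_pos.2 h1
  have p2 : 0 < |y 2| := abs_pos.2 h2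
  have hdet : det3 (ax (vx y 0)) (ax (vx y 1)) (ax (vx y 2)) =
      sg (vx y 0).2 * sg (vx y 1).2 * sg (vx y 2).2 := det_ax _ _ _
  set A := ax (vx y 0) with hA
  set B := ax (vx y 1) with hB
  set D := ax (vx y 2) with hD
  rcases sg3 (vx y 0).2 (vx y 1).2 (vx y 2).2 with h | h
  · rw [h] at hdet
    refine ⟨vx y 0, vx y 1, vx y 2, ?_, Or.inr (Or.inl ⟨?_, ?_, ?_, ?_⟩)⟩
    · show 0 < det3 A B D
      rw [hdet]; exact one_pos
    · rw [hdet]; exact one_pos
    · have : det3 y B D = |y 0| := by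
        conv_lhs => rw [hs]
        rw [det3_add1, det3_add1, det3_smul1, det3_smul1, det3_smul1, hdet, det3_self1, det3_self2]
        ring
      rw [this]; exact p0
    · have : det3 A y D = |y 1| := by
        conv_lhs => rw [hs]
        rw [det3_add2, det3_add2, det3_smul2, det3_smul2, det3_smul2, hdet, det3_self1, det3_self3]
        ring
      rw [this]; exact p1
    · have : det3 A B y = |y 2| := by
        conv_lhs => rw [hs]
        rw [det3_add3, det3_add3, det3_smul3, det3_smul3, det3_smul3, hdet, det3_self2, det3_self3]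
        ring
      rw [this]; exact p2
  · rw [h] at hdet
    have hdet' : det3 B A D = 1 := by rw [det3_swap12, hdet]; norm_num
    refine ⟨vx y 1, vx y 0, vx y 2, ?_, Or.inr (Or.inl ⟨?_, ?_, ?_, ?_⟩)⟩
    · show 0 < det3 B A D
      rw [hdet']; exact one_pos
    · rw [hdet']; exact one_pos
    · have : det3 y A D = |y 1| := by
        conv_lhs => rw [hs]
        rw [det3_add1, det3_add1, det3_smul1, det3_smul1, det3_smul1, hdet', det3_self1, det3_self2]
        ring
      rw [this]; exact p1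
    · have : det3 B y D = |y 0| := by
        conv_lhs => rw [hs]
        rw [det3_add2, det3_add2, det3_smul2, det3_smul2, det3_smul2, hdet', det3_self1, det3_self3]
        ring
      rw [this]; exact p0
    · have : det3 B A y = |y 2| := by
        conv_lhs => rw [hs]
        rw [det3_add3, det3_add3, det3_smul3, det3_smul3, det3_smul3, hdet', det3_self2, det3_self3]
        ring
      rw [this]; exact p2

theorem RT_octa : RT FO ax where
  nz := by
    intro v h
    have := congrFun h v.1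
    rw [ax_self] at this
    exact sg_ne _ this
  inj := by
    intro v w r hr h
    have h1 := congrFun h v.1
    simp only [Pi.smul_apply, smul_eq_mul] at h1
    rw [ax_self] at h1
    by_cases hvw : v.1 = w.1
    · rw [hvw, ax_self] at h1
      have h2 : v.2 = w.2 := by
        apply sg_inj (y := sg v.2)
        · rw [sg_mul_self]; exact one_pos
        · rw [h1]
          have : sg w.2 * (r * sg w.2) = r * (sg w.2 * sg w.2) := by ring
          rw [this, sg_mul_self]; linarith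
      exact Prod.ext hvw h2
    · rw [ax_ne hvw, mul_zero] at h1
      exact (sg_ne _ h1).elim
  rot := FO_rot
  ne := fun hf h => FO_ne1 hf (by rw [h])
  vert := by
    intro v
    obtain ⟨j, hj⟩ : ∃ j : Fin 3, v.1 ≠ j := by
      rcases v with ⟨i, b⟩
      revert i; simp only; decide
    obtain ⟨x, hx⟩ := FO_edge (a := v) (b := (j, true)) hj
    exact ⟨_, x, hx⟩
  anti := by
    intro a b x hf r hr h
    have h1 := congrFun h a.1
    simp only [Pi.neg_apply, Pi.smul_apply, smul_eq_mul] at h1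
    rw [ax_self, ax_ne (FO_ne1 hf), mul_zero, neg_zero] at h1
    exact sg_ne _ h1
  meet := by
    intro a b x a' b' x' hf hf' hne y hy h1 h2
    obtain ⟨α, β, hα, hβ, e⟩ := h1
    obtain ⟨α', β', hα', hβ', e'⟩ := h2
    have n := FO_ne1 hf
    have n' := FO_ne1 hf'
    obtain ⟨c1, c2, c3⟩ := cone_coord n e
    obtain ⟨c1', c2', c3'⟩ := cone_coord n' e'
    -- a vertex with positive coefficient in both
    have hsame : ∀ {v v' : Fin 3 × Bool} {r r' : ℝ}, 0 < r → 0 ≤ r' → v.1 = v'.1 →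
        y v.1 = r * sg v.2 → y v'.1 = r' * sg v'.2 → v = v' := by
      intro v v' r r' hr hr' h3 h4 h5
      have hr'' : 0 < r' := by
        rcases hr'.eq_or_lt with h6 | h6
        · rw [← h6, zero_mul, ← h3, h4] at h5
          exact ((mul_ne_zero (ne_of_gt hr) (sg_ne _)) h5).elim
        · exact h6
      refine Prod.ext h3 (sg_inj (y := y v.1) ?_ ?_)
      · rw [h4]
        have : sg v.2 * (r * sg v.2) = r * (sg v.2 * sg v.2) := by ring
        rw [this, sg_mul_self]; linarith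
      · rw [h3, h5]
        have : sg v'.2 * (r' * sg v'.2) = r' * (sg v'.2 * sg v'.2) := by ring
        rw [this, sg_mul_self]; linarith
    have hin : ∀ {v : Fin 3 × Bool} {r : ℝ}, 0 < r → y v.1 = r * sg v.2 → v = a' ∨ v = b' := by
      intro v r hr h3
      by_cases h4 : v.1 = a'.1
      · exact Or.inl (hsame hr hα' h4 h3 c1')
      · by_cases h5 : v.1 = b'.1
        · exact Or.inr (hsame hr hβ' h5 h3 c2')
        · have := c3' v.1 h4 h5
          rw [h3] at this
          exact ((mul_ne_zero (ne_of_gt hr) (sg_ne _)) this).elim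
    rcases hα.eq_or_lt with z1 | z1
    · rcases hβ.eq_or_lt with z2 | z2
      · rw [← z1, ← z2, zero_smul, zero_smul, add_zero] at e
        exact (hy e).elim
      · refine ⟨b, Or.inr rfl, hin z2 c2, β, z2, ?_⟩
        rw [← z1, zero_smul, zero_add] at e
        exact e
    · rcases hβ.eq_or_lt with z2 | z2
      · refine ⟨a, Or.inl rfl, hin z1 c1, α, z1, ?_⟩
        rw [← z2, zero_smul, add_zero] at e
        exact e
      · exfalso
        apply hne
        rcases hin z1 c1 with h3 | h3 <;> rcases hin z2 c2 with h4 | h4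
        · exact (n (by rw [h3, h4])).elim
        · exact Or.inl ⟨h3, h4⟩
        · exact Or.inr ⟨h3, h4⟩
        · exact (n (by rw [h3, h4])).elim
  off := by
    intro a b x a' b' x' hf hf' y h1 h2
    obtain ⟨s1, s2, s3⟩ := reg_sign hf h1
    obtain ⟨α, β, _, _, e⟩ := h2
    obtain ⟨_, _, c3⟩ := cone_coord (FO_ne1 hf') e
    have n2' := FO_ne1 (FO_rot hf')
    have n3' := FO_ne1 (FO_rot (FO_rot hf'))
    have hz : y x'.1 = 0 := c3 x'.1 n3' (Ne.symm n2')
    rcases axis_cases (l := x'.1) (FO_ne1 hf) (FO_ne1 (FO_rot hf)) (FO_ne1 (FO_rot (FO_rot hf)))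
      with h | h | h
    · rw [← h, hz, mul_zero] at s1; exact lt_irrefl _ s1
    · rw [← h, hz, mul_zero] at s2; exact lt_irrefl _ s2
    · rw [← h, hz, mul_zero] at s3; exact lt_irrefl _ s3
  disj := by
    intro a b x a' b' x' hf hf' y h1 h2
    obtain ⟨s1, s2, s3⟩ := reg_sign hf h1
    obtain ⟨s1', s2', s3'⟩ := reg_sign hf' h2
    have hmem : ∀ v : Fin 3 × Bool, 0 < sg v.2 * y v.1 → v = a ∨ v = b ∨ v = x := by
      intro v hv
      rcases axis_cases (l := v.1) (FO_ne1 hf) (FO_ne1 (FO_rot hf)) (FO_ne1 (FO_rot (FO_rot hf)))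
        with h | h | h
      · exact Or.inl (Prod.ext h (sg_inj hv (by rw [h]; exact s1)))
      · exact Or.inr (Or.inl (Prod.ext h (sg_inj hv (by rw [h]; exact s2))))
      · exact Or.inr (Or.inr (Prod.ext h (sg_inj hv (by rw [h]; exact s3))))
    have n1 := FO_ne1 hf'
    have n2 := FO_ne1 (FO_rot hf')
    have n3 := FO_ne1 (FO_rot (FO_rot hf'))
    have q : 0 < det3 (ax a) (ax b) (ax x) := hf
    have q' : 0 < det3 (ax a') (ax b') (ax x') := hf'
    rcases hmem a' s1' with h3 | h3 | h3 <;> rcases hmem b' s2' with h4 | h4 | h4 <;>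
      rcases hmem x' s3' with h5 | h5 | h5 <;>
      first
      | exact absurd (congrArg Prod.fst (h3.trans h4.symm)) n1
      | exact absurd (congrArg Prod.fst (h4.trans h5.symm)) n2
      | exact absurd (congrArg Prod.fst (h5.trans h3.symm)) n3
      | exact Or.inl ⟨h3, h4, h5⟩
      | exact Or.inr (Or.inl ⟨h3, h4, h5⟩)
      | exact Or.inr (Or.inr ⟨h3, h4, h5⟩)
      | (exfalso
         rw [h3, h4, h5] at q'
         have : det3 (ax a) (ax x) (ax b) = - det3 (ax a) (ax b) (ax x) := by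
           simp only [det3]; ring
         have : det3 (ax b) (ax a) (ax x) = - det3 (ax a) (ax b) (ax x) := by
           simp only [det3]; ring
         have : det3 (ax x) (ax b) (ax a) = - det3 (ax a) (ax b) (ax x) := by
           simp only [det3]; ring
         linarith)
  cover := fun y _ => FO_cover y

/-! ### The rotated octahedron -/

/-- A rotation (up to scale) taking two vertices to both sides of the north pole. -/
def Mo (y : Fin 3 → ℝ) : Fin 3 → ℝ := ![y 0 - y 1, - y 2, y 0 + y 1]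

/-- The inverse of `Mo`. -/
noncomputable def Mi (y : Fin 3 → ℝ) : Fin 3 → ℝ := ![(y 0 + y 2) / 2, (y 2 - y 0) / 2, - y 1]

theorem Mo_add (y z : Fin 3 → ℝ) : Mo (y + z) = Mo y + Mo z := by
  ext i; fin_cases i
  · simp [Mo]; ring
  · simp [Mo]; ring
  · simp [Mo]; ring

theorem Mo_smul (r : ℝ) (y : Fin 3 → ℝ) : Mo (r • y) = r • Mo y := by
  ext i; fin_cases i
  · simp [Mo]; ring
  · simp [Mo]
  · simp [Mo]; ring

theorem Mo_neg (y : Fin 3 → ℝ) : Mo (-y) = - Mo y := by
  ext i; fin_cases i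
  · simp [Mo]; ring
  · simp [Mo]
  · simp [Mo]; ring

theorem Mo_Mi (y : Fin 3 → ℝ) : Mo (Mi y) = y := by
  ext i; fin_cases i
  · simp [Mo, Mi]; ring
  · simp [Mo, Mi]
  · simp [Mo, Mi]; ring

theorem Mi_Mo (y : Fin 3 → ℝ) : Mi (Mo y) = y := by
  ext i; fin_cases i
  · simp [Mo, Mi]
  · simp [Mo, Mi]
  · simp [Mo, Mi]

theorem Mo_inj {y z : Fin 3 → ℝ} (h : Mo y = Mo z) : y = z := by
  rw [← Mi_Mo y, h, Mi_Mo]

theorem Mo_zero : Mo 0 = 0 := by
  ext i; fin_cases i <;> simp [Mo]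

theorem det3_Mo (a b x : Fin 3 → ℝ) : det3 (Mo a) (Mo b) (Mo x) = 2 * det3 a b x := by
  simp [det3, Mo]; ring

theorem Cone_Mo (a b y : Fin 3 → ℝ) : Cone (Mo a) (Mo b) (Mo y) ↔ Cone a b y := by
  constructor
  · rintro ⟨α, β, hα, hβ, h⟩
    refine ⟨α, β, hα, hβ, Mo_inj ?_⟩
    rw [h, Mo_add, Mo_smul, Mo_smul]
  · rintro ⟨α, β, hα, hβ, h⟩
    exact ⟨α, β, hα, hβ, by rw [h, Mo_add, Mo_smul, Mo_smul]⟩

theorem Reg_Mo (a b x y : Fin 3 → ℝ) : Reg (Mo a) (Mo b) (Mo x) (Mo y) ↔ Reg a b x y := by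
  unfold Reg
  rw [det3_Mo, det3_Mo, det3_Mo, det3_Mo]
  have k : ∀ t : ℝ, 0 < 2 * t ↔ 0 < t := fun t => mul_pos_iff_of_pos_left two_pos
  have j : ∀ t : ℝ, 2 * t ≤ 0 ↔ t ≤ 0 := fun t => by rw [← not_lt, k, not_lt]
  simp only [k, j]

theorem RT_Mo {V : Type*} {F : Set (V × V × V)} {P : V → Fin 3 → ℝ} (h : RT F P) :
    RT F (fun v => Mo (P v)) where
  nz := fun v h0 => h.nz v (Mo_inj (by rw [Mo_zero]; exact h0))
  inj := fun v w r hr he => h.inj v w r hr (Mo_inj (by rw [Mo_smul]; exact he))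
  rot := h.rot
  ne := h.ne
  vert := h.vert
  anti := fun hf r hr he => h.anti hf r hr (Mo_inj (by rw [Mo_neg, Mo_smul]; exact he))
  meet := by
    intro a b x a' b' x' hf hf' hne y hy h1 h2
    rw [← Mo_Mi y, Cone_Mo] at h1 h2
    have hy' : Mi y ≠ 0 := by
      intro h0
      apply hy
      rw [← Mo_Mi y, h0, Mo_zero]
    obtain ⟨v, hv1, hv2, r, hr, he⟩ := h.meet hf hf' hne hy' h1 h2
    refine ⟨v, hv1, hv2, r, hr, ?_⟩
    rw [← Mo_Mi y, he, Mo_smul]
  off := by
    intro a b x a' b' x' hf hf' y h1 h2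
    rw [← Mo_Mi y] at h1 h2
    exact h.off hf hf' ((Reg_Mo _ _ _ _).1 h1) ((Cone_Mo _ _ _).1 h2)
  disj := by
    intro a b x a' b' x' hf hf' y h1 h2
    rw [← Mo_Mi y] at h1 h2
    exact h.disj hf hf' ((Reg_Mo _ _ _ _).1 h1) ((Reg_Mo _ _ _ _).1 h2)
  cover := by
    intro y hy
    have hy' : Mi y ≠ 0 := by
      intro h0
      apply hy
      rw [← Mo_Mi y, h0, Mo_zero]
    obtain ⟨a, b, x, hf, h1⟩ := h.cover _ hy'
    refine ⟨a, b, x, hf, ?_⟩
    rw [← Mo_Mi y, Cone_Mo, Reg_Mo]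
    exact h1

/-- The rotated octahedron. -/
noncomputable def po (v : Fin 3 × Bool) : Fin 3 → ℝ := (nrm (Mo (ax v)))⁻¹ • Mo (ax v)

theorem octa_tri : IsTriangulation FO po := triangulation_of_rt (RT_Mo RT_octa)

theorem po_pos (v : Fin 3 × Bool) : 0 < (nrm (Mo (ax v)))⁻¹ :=
  inv_pos.2 (nrm_pos ((RT_Mo RT_octa).nz v))

theorem octa_poles (v : Fin 3 × Bool) : po v 0 ≠ 0 ∨ po v 1 ≠ 0 := by
  have h := po_pos v
  obtain ⟨i, b⟩ := v
  simp only [po, Pi.smul_apply, smul_eq_mul]
  fin_cases i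
  · left
    refine mul_ne_zero (ne_of_gt h) ?_
    cases b <;> simp [Mo, ax, sg]
  · left
    refine mul_ne_zero (ne_of_gt h) ?_
    cases b <;> simp [Mo, ax, sg]
  · right
    refine mul_ne_zero (ne_of_gt h) ?_
    cases b <;> simp [Mo, ax, sg]

theorem octa_uncrossed : HasUncrossedGreatCircle FO po := by
  refine ⟨![0, 1, 0], ?_, ?_⟩
  · intro h
    have := congrFun h 1
    simp at this
  · rintro a b x hf ⟨⟨y, ⟨_, α, β, hα, hβ, hy⟩, h1⟩, ⟨y', ⟨_, α', β', hα', hβ', hy'⟩, h2⟩⟩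
    rw [Fin.sum_univ_three] at h1 h2
    simp only [Matrix.cons_val_zero, Matrix.cons_val_one, Matrix.cons_val, zero_mul, one_mul,
      zero_add, add_zero] at h1 h2
    have hc : ∀ v : Fin 3 × Bool, v.1 ≠ 2 → po v 1 = 0 := by
      intro v hv
      simp only [po, Pi.smul_apply, smul_eq_mul]
      have : Mo (ax v) 1 = - ax v 2 := by simp [Mo]
      rw [this, ax_ne (Ne.symm hv)]; simp
    rw [hy] at h1
    rw [hy'] at h2
    simp only [Pi.add_apply, Pi.smul_apply, smul_eq_mul] at h1 h2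
    by_cases ha : a.1 = 2
    · have hb : b.1 ≠ 2 := fun h => FO_ne1 hf (by rw [ha, h])
      rw [hc b hb] at h1 h2
      simp only [mul_zero, add_zero] at h1 h2
      have : 0 < po a 1 := by
        by_contra hn
        push Not at hn
        have := mul_nonpos_of_nonneg_of_nonpos hα hn
        linarith
      have := mul_nonneg hα' this.le
      linarith
    · rw [hc a ha] at h1 h2
      simp only [mul_zero, zero_add] at h1 h2
      have : 0 < po b 1 := by
        by_contra hn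
        push Not at hn
        have := mul_nonpos_of_nonneg_of_nonpos hβ hn
        linarith
      have := mul_nonneg hβ' this.le
      linarith

theorem octa_not_sinkable : ¬ Sinkable FO po := by
  have hf : (((0 : Fin 3), true), ((1 : Fin 3), true), ((2 : Fin 3), true)) ∈ FO := by
    show 0 < det3 (ax ((0 : Fin 3), true)) (ax ((1 : Fin 3), true)) (ax ((2 : Fin 3), true))
    rw [det_ax]; simp [sg]
  refine not_sinkable_of_north octa_poles hf ⟨by simp [Sphere, north], ?_⟩
  have e1 := Cone_smul (po_pos ((0 : Fin 3), true)) (po_pos ((1 : Fin 3), true)) one_pos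
    (Mo (ax ((0 : Fin 3), true))) (Mo (ax ((1 : Fin 3), true))) north
  rw [one_smul] at e1
  refine e1.2 ⟨1 / 2, 1 / 2, by norm_num, by norm_num, ?_⟩
  ext i
  fin_cases i
  · simp [north, Mo, ax, sg]
  · simp [north, Mo, ax]
  · simp [north, Mo, ax, sg]; norm_num

end Pool.Agent.Work.MP_e680c3_co
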