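import Pool.Agent.Work.MP_e680c3_co.Defs
import Pool.Agent.Work.MP_e680c3_co.Geo1

/-!
# Ray triangulations
-/

open Filter Topology

namespace Pool.Agent.Work.MP_e680c3_co

/-- `y` is in the region of the face `a b x` (rays). -/
def Reg (a b x y : Fin 3 → ℝ) : Prop :=
  (0 < det3 a b x ∧ 0 < det3 y b x ∧ 0 < det3 a y x ∧ 0 < det3 a b y) ∨
    (det3 a b x ≤ 0 ∧ (0 < det3 y b x ∨ 0 < det3 a y x ∨ 0 < det3 a b y))

/-- `y` is in the closed cone of `a` and `b`. -/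
def Cone (a b y : Fin 3 → ℝ) : Prop := ∃ α β : ℝ, 0 ≤ α ∧ 0 ≤ β ∧ y = α • a + β • b

theorem det3_smul1 (r : ℝ) (a b x : Fin 3 → ℝ) : det3 (r • a) b x = r * det3 a b x := by
  simp only [det3, Pi.smul_apply, smul_eq_mul]; ring

theorem det3_smul2 (r : ℝ) (a b x : Fin 3 → ℝ) : det3 a (r • b) x = r * det3 a b x := by
  simp only [det3, Pi.smul_apply, smul_eq_mul]; ring

theorem det3_smul3 (r : ℝ) (a b x : Fin 3 → ℝ) : det3 a b (r • x) = r * det3 a b x := by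
  simp only [det3, Pi.smul_apply, smul_eq_mul]; ring

theorem det3_rot (a b x : Fin 3 → ℝ) : det3 b x a = det3 a b x := by
  simp only [det3]; ring

theorem Reg_smul {r1 r2 r3 r4 : ℝ} (h1 : 0 < r1) (h2 : 0 < r2) (h3 : 0 < r3) (h4 : 0 < r4)
    (a b x y : Fin 3 → ℝ) : Reg (r1 • a) (r2 • b) (r3 • x) (r4 • y) ↔ Reg a b x y := by
  unfold Reg
  simp only [det3_smul1, det3_smul2, det3_smul3]
  have k1 : ∀ t : ℝ, 0 < r1 * t ↔ 0 < t := fun t => mul_pos_iff_of_pos_left h1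
  have k2 : ∀ t : ℝ, 0 < r2 * t ↔ 0 < t := fun t => mul_pos_iff_of_pos_left h2
  have k3 : ∀ t : ℝ, 0 < r3 * t ↔ 0 < t := fun t => mul_pos_iff_of_pos_left h3
  have k4 : ∀ t : ℝ, 0 < r4 * t ↔ 0 < t := fun t => mul_pos_iff_of_pos_left h4
  have j1 : ∀ t : ℝ, r1 * t ≤ 0 ↔ t ≤ 0 := fun t => by rw [← not_lt, k1, not_lt]
  have j2 : ∀ t : ℝ, r2 * t ≤ 0 ↔ t ≤ 0 := fun t => by rw [← not_lt, k2, not_lt]
  have j3 : ∀ t : ℝ, r3 * t ≤ 0 ↔ t ≤ 0 := fun t => by rw [← not_lt, k3, not_lt]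
  simp only [k1, k2, k3, k4, j1, j2, j3]

theorem Cone_smul {r1 r2 r4 : ℝ} (h1 : 0 < r1) (h2 : 0 < r2) (h4 : 0 < r4)
    (a b y : Fin 3 → ℝ) : Cone (r1 • a) (r2 • b) (r4 • y) ↔ Cone a b y := by
  constructor
  · rintro ⟨α, β, hα, hβ, h⟩
    refine ⟨r4⁻¹ * (α * r1), r4⁻¹ * (β * r2), by positivity, by positivity, ?_⟩
    have : y = r4⁻¹ • (r4 • y) := by rw [smul_smul, inv_mul_cancel₀ (ne_of_gt h4), one_smul]
    rw [this, h, smul_add, smul_smul, smul_smul, smul_smul, smul_smul]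
    ring_nf
  · rintro ⟨α, β, hα, hβ, h⟩
    refine ⟨r4 * (α / r1), r4 * (β / r2), by positivity, by positivity, ?_⟩
    rw [h, smul_add, smul_smul, smul_smul, smul_smul, smul_smul]
    congr 2
    · field_simp
    · field_simp

variable {V : Type*} {F : Set (V × V × V)}

/-- The ray version of `IsTriangulation`. -/
structure RT (F : Set (V × V × V)) (P : V → Fin 3 → ℝ) : Prop where
  nz : ∀ v, P v ≠ 0
  inj : ∀ v w (r : ℝ), 0 < r → P v = r • P w → v = w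
  rot : ∀ {a b x}, (a, b, x) ∈ F → (b, x, a) ∈ F
  ne : ∀ {a b x}, (a, b, x) ∈ F → a ≠ b
  vert : ∀ v, ∃ a b, (v, a, b) ∈ F
  anti : ∀ {a b x}, (a, b, x) ∈ F → ∀ r : ℝ, 0 < r → P a ≠ - (r • P b)
  meet : ∀ {a b x a' b' x'}, (a, b, x) ∈ F → (a', b', x') ∈ F →
    ¬ ((a = a' ∧ b = b') ∨ (a = b' ∧ b = a')) →
    ∀ {y}, y ≠ 0 → Cone (P a) (P b) y → Cone (P a') (P b') y →
      ∃ v, (v = a ∨ v = b) ∧ (v = a' ∨ v = b') ∧ ∃ r : ℝ, 0 < r ∧ y = r • P v
  off : ∀ {a b x a' b' x'}, (a, b, x) ∈ F → (a', b', x') ∈ F →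
    ∀ {y}, Reg (P a) (P b) (P x) y → ¬ Cone (P a') (P b') y
  disj : ∀ {a b x a' b' x'}, (a, b, x) ∈ F → (a', b', x') ∈ F →
    ∀ {y}, Reg (P a) (P b) (P x) y → Reg (P a') (P b') (P x') y → Rot3 a b x a' b' x'
  cover : ∀ y, y ≠ 0 → ∃ a b x, (a, b, x) ∈ F ∧ (Cone (P a) (P b) y ∨ Reg (P a) (P b) (P x) y)

theorem sphere_ne_zero {y : Fin 3 → ℝ} (h : y ∈ Sphere) : y ≠ 0 := by
  rintro rfl
  simp [Sphere] at h

/-- The norm of a vector. -/
noncomputable def nrm (y : Fin 3 → ℝ) : ℝ := Real.sqrt (y 0 ^ 2 + y 1 ^ 2 + y 2 ^ 2)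

theorem nrm_pos {y : Fin 3 → ℝ} (h : y ≠ 0) : 0 < nrm y := by
  apply Real.sqrt_pos.2
  by_contra hn
  push Not at hn
  apply h
  have h0 : y 0 = 0 := by nlinarith [sq_nonneg (y 0), sq_nonneg (y 1), sq_nonneg (y 2)]
  have h1 : y 1 = 0 := by nlinarith [sq_nonneg (y 0), sq_nonneg (y 1), sq_nonneg (y 2)]
  have h2 : y 2 = 0 := by nlinarith [sq_nonneg (y 0), sq_nonneg (y 1), sq_nonneg (y 2)]
  ext i
  fin_cases i
  · exact h0
  · exact h1
  · exact h2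

theorem nrm_sq (y : Fin 3 → ℝ) : nrm y ^ 2 = y 0 ^ 2 + y 1 ^ 2 + y 2 ^ 2 :=
  Real.sq_sqrt (by positivity)

theorem normalized_mem {y : Fin 3 → ℝ} (h : y ≠ 0) : (nrm y)⁻¹ • y ∈ Sphere := by
  have h1 := nrm_pos h
  have h2 := nrm_sq y
  simp only [Sphere, Set.mem_ofPred_eq, Pi.smul_apply, smul_eq_mul]
  field_simp
  linarith

theorem sphere_smul_eq {y w : Fin 3 → ℝ} (hy : y ∈ Sphere) (hw : w ∈ Sphere) {r : ℝ} (hr : 0 < r)
    (h : y = r • w) : r = 1 := by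
  simp only [Sphere, Set.mem_ofPred_eq] at hy hw
  rw [h] at hy
  simp only [Pi.smul_apply, smul_eq_mul] at hy
  have : r ^ 2 = 1 := by nlinarith
  nlinarith

theorem det3_zero1 (b x : Fin 3 → ℝ) : det3 0 b x = 0 := by simp [det3]
theorem det3_zero2 (b x : Fin 3 → ℝ) : det3 b 0 x = 0 := by simp [det3]
theorem det3_zero3 (b x : Fin 3 → ℝ) : det3 b x 0 = 0 := by simp [det3]

theorem Reg.ne_zero {a b x y : Fin 3 → ℝ} (h : Reg a b x y) : y ≠ 0 := by
  rintro rfl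
  unfold Reg at h
  rw [det3_zero1, det3_zero2, det3_zero3] at h
  rcases h with ⟨_, h, _⟩ | ⟨_, h | h | h⟩ <;> exact lt_irrefl _ h

/-- From a triangulation of the sphere to rays. -/
theorem rt_of_triangulation {p P : V → Fin 3 → ℝ} {r : V → ℝ} (hr : ∀ v, 0 < r v)
    (hP : ∀ v, P v = r v • p v) (h : IsTriangulation F p) : RT F P := by
  have key1 : ∀ {a b : V} {y : Fin 3 → ℝ}, y ≠ 0 →
      (Cone (P a) (P b) y ↔ (nrm y)⁻¹ • y ∈ arc (p a) (p b)) := by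
    intro a b y hy
    have hpos : 0 < (nrm y)⁻¹ := inv_pos.2 (nrm_pos hy)
    have h1 : Cone (P a) (P b) y ↔ Cone (p a) (p b) ((nrm y)⁻¹ • y) := by
      rw [hP, hP]
      have e1 := Cone_smul (hr a) (hr b) one_pos (p a) (p b) y
      rw [one_smul] at e1
      have e2 := Cone_smul one_pos one_pos hpos (p a) (p b) y
      rw [one_smul, one_smul] at e2
      rw [e1, e2]
    rw [h1]
    exact ⟨fun h => ⟨normalized_mem hy, h⟩, fun h => h.2⟩
  have key2 : ∀ {a b x : V} {y : Fin 3 → ℝ}, y ≠ 0 →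
      (Reg (P a) (P b) (P x) y ↔ (nrm y)⁻¹ • y ∈ region (p a) (p b) (p x)) := by
    intro a b x y hy
    have hpos : 0 < (nrm y)⁻¹ := inv_pos.2 (nrm_pos hy)
    have h1 : Reg (P a) (P b) (P x) y ↔ Reg (p a) (p b) (p x) ((nrm y)⁻¹ • y) := by
      rw [hP, hP, hP]
      have e1 := Reg_smul (hr a) (hr b) (hr x) one_pos (p a) (p b) (p x) y
      rw [one_smul] at e1
      have e2 := Reg_smul one_pos one_pos one_pos hpos (p a) (p b) (p x) y
      rw [one_smul, one_smul, one_smul] at e2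
      rw [e1, e2]
    rw [h1]
    exact ⟨fun h => ⟨normalized_mem hy, h⟩, fun h => h.2⟩
  have pn := fun v => sphere_ne_zero (h.mem_sphere v)
  refine ⟨?_, ?_, fun hf => h.rotate _ _ _ hf, fun hf => h.ne _ _ _ hf, h.vertex, ?_, ?_, ?_, ?_,
    ?_⟩
  · intro v
    rw [hP]
    exact smul_ne_zero (ne_of_gt (hr v)) (pn v)
  · intro v w t ht he
    rw [hP, hP, smul_smul] at he
    have h1 : p v = ((r v)⁻¹ * (t * r w)) • p w := by
      rw [← smul_smul, ← he, smul_smul, inv_mul_cancel₀ (ne_of_gt (hr v)), one_smul]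
    have h2 : 0 < (r v)⁻¹ * (t * r w) := mul_pos (inv_pos.2 (hr v)) (mul_pos ht (hr w))
    have h3 := sphere_smul_eq (h.mem_sphere v) (h.mem_sphere w) h2 h1
    rw [h3, one_smul] at h1
    exact h.injective h1
  · intro a b x hf t ht he
    rw [hP, hP] at he
    have h1 : p a = ((r a)⁻¹ * (t * r b)) • (- p b) := by
      have : (r a)⁻¹ • (r a • p a) = (r a)⁻¹ • (-(t • r b • p b)) := by rw [he]
      rw [smul_smul, inv_mul_cancel₀ (ne_of_gt (hr a)), one_smul] at this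
      rw [this, smul_neg, smul_neg, smul_smul, smul_smul, mul_assoc]
    have h2 : 0 < (r a)⁻¹ * (t * r b) := mul_pos (inv_pos.2 (hr a)) (mul_pos ht (hr b))
    have h4 : - p b ∈ Sphere := by
      have := h.mem_sphere b
      simp only [Sphere, Set.mem_ofPred_eq, Pi.neg_apply, neg_sq] at this ⊢
      exact this
    have h3 := sphere_smul_eq (h.mem_sphere a) h4 h2 h1
    rw [h3, one_smul] at h1
    exact h.not_antipodal _ _ _ hf h1
  · intro a b x a' b' x' hf hf' hne y hy h1 h2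
    obtain ⟨v, hv1, hv2, hv⟩ := h.edges_meet _ _ _ _ _ _ hf hf' hne _
      ((key1 hy).1 h1) ((key1 hy).1 h2)
    refine ⟨v, hv1, hv2, nrm y * (r v)⁻¹, mul_pos (nrm_pos hy) (inv_pos.2 (hr v)), ?_⟩
    rw [hP, smul_smul, mul_assoc, inv_mul_cancel₀ (ne_of_gt (hr v)), mul_one, ← hv, smul_smul,
      mul_inv_cancel₀ (ne_of_gt (nrm_pos hy)), one_smul]
  · intro a b x a' b' x' hf hf' y h1 h2
    have hy := h1.ne_zero
    exact h.face_edge _ _ _ _ _ _ hf hf' _ ((key2 hy).1 h1) ((key1 hy).1 h2)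
  · intro a b x a' b' x' hf hf' y h1 h2
    have hy := h1.ne_zero
    exact h.face_face _ _ _ _ _ _ hf hf' _ ((key2 hy).1 h1) ((key2 hy).1 h2)
  · intro y hy
    obtain ⟨a, b, x, hf, h1⟩ := h.cover _ (normalized_mem hy)
    refine ⟨a, b, x, hf, ?_⟩
    rcases h1 with h1 | h1
    · exact Or.inl ((key1 hy).2 h1)
    · exact Or.inr ((key2 hy).2 h1)

/-- From rays to a triangulation of the sphere. -/
theorem triangulation_of_rt {P : V → Fin 3 → ℝ} (h : RT F P) :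
    IsTriangulation F (fun v => (nrm (P v))⁻¹ • P v) := by
  have hr : ∀ v, 0 < (nrm (P v))⁻¹ := fun v => inv_pos.2 (nrm_pos (h.nz v))
  have key1 : ∀ {a b : V} {y : Fin 3 → ℝ}, y ∈ arc ((nrm (P a))⁻¹ • P a) ((nrm (P b))⁻¹ • P b) →
      Cone (P a) (P b) y := by
    rintro a b y ⟨_, hy⟩
    have e1 := Cone_smul (hr a) (hr b) one_pos (P a) (P b) y
    rw [one_smul] at e1
    exact e1.1 hy
  have key2 : ∀ {a b x : V} {y : Fin 3 → ℝ},
      y ∈ region ((nrm (P a))⁻¹ • P a) ((nrm (P b))⁻¹ • P b) ((nrm (P x))⁻¹ • P x) →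
      Reg (P a) (P b) (P x) y := by
    rintro a b x y ⟨_, hy⟩
    have e1 := Reg_smul (hr a) (hr b) (hr x) one_pos (P a) (P b) (P x) y
    rw [one_smul] at e1
    exact e1.1 hy
  refine ⟨fun v => normalized_mem (h.nz v), ?_, fun _ _ _ hf => h.rot hf,
    fun _ _ _ hf => h.ne hf, h.vert, ?_, ?_, ?_, ?_, ?_⟩
  · intro v w he
    simp only at he
    refine h.inj v w (nrm (P v) * (nrm (P w))⁻¹) (mul_pos (nrm_pos (h.nz v)) (hr w)) ?_
    rw [← smul_smul, ← he, smul_smul, mul_inv_cancel₀ (ne_of_gt (nrm_pos (h.nz v))), one_smul]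
  · intro a b x hf he
    refine h.anti hf (nrm (P a) * (nrm (P b))⁻¹) (mul_pos (nrm_pos (h.nz a)) (hr b)) ?_
    rw [← smul_smul, ← smul_neg, ← he, smul_smul, mul_inv_cancel₀ (ne_of_gt (nrm_pos (h.nz a))),
      one_smul]
  · intro a b x a' b' x' hf hf' hne y h1 h2
    obtain ⟨v, hv1, hv2, r, hr0, hv⟩ := h.meet hf hf' hne (sphere_ne_zero h1.1) (key1 h1) (key1 h2)
    refine ⟨v, hv1, hv2, ?_⟩
    have e1 : y = (r * nrm (P v)) • ((nrm (P v))⁻¹ • P v) := by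
      rw [smul_smul, mul_assoc, mul_inv_cancel₀ (ne_of_gt (nrm_pos (h.nz v))), mul_one, hv]
    have e2 := sphere_smul_eq h1.1 (normalized_mem (h.nz v))
      (mul_pos hr0 (nrm_pos (h.nz v))) e1
    rw [e2, one_smul] at e1
    exact e1
  · intro a b x a' b' x' hf hf' y h1 h2
    exact h.off hf hf' (key2 h1) (key1 h2)
  · intro a b x a' b' x' hf hf' y h1 h2
    exact h.disj hf hf' (key2 h1) (key2 h2)
  · intro y hy
    obtain ⟨a, b, x, hf, h1⟩ := h.cover y (sphere_ne_zero hy)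
    refine ⟨a, b, x, hf, ?_⟩
    rcases h1 with h1 | h1
    · left
      refine ⟨hy, ?_⟩
      have e1 := Cone_smul (hr a) (hr b) one_pos (P a) (P b) y
      rw [one_smul] at e1
      exact e1.2 h1
    · right
      refine ⟨hy, ?_⟩
      have e1 := Reg_smul (hr a) (hr b) (hr x) one_pos (P a) (P b) (P x) y
      rw [one_smul] at e1
      exact e1.2 h1

end Pool.Agent.Work.MP_e680c3_co
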