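import Pool.Agent.Work.MP_e680c3_co.Init2

/-!
# The final positions
-/

open Filter Topology

namespace Pool.Agent.Work.MP_e680c3_co

variable {V : Type*} {F : Set (V × V × V)} {c : V → ℝ × ℝ} {s : V → ℝ}

theorem Lf_shear (p q : ℝ) (a b x : V) :
    Lf c (fun v => s v + (p * (c v).1 + q * (c v).2)) a b x = Lf c s a b x := by
  simp only [Lf, X]; ring

theorem functional_shear {m : Fin 3 → ℝ} (hm : m 2 ≠ 0) (v : V) :
    dt m (PP c s v) / m 2 = s v + (m 0 / m 2 * (c v).1 + m 1 / m 2 * (c v).2) := by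
  simp only [dt, PP, pt, Matrix.cons_val]
  field_simp
  ring

theorem Lf_functional {m : Fin 3 → ℝ} (hm : m 2 ≠ 0) (a b x : V) :
    Lf c (fun v => dt m (PP c s v) / m 2) a b x = Lf c s a b x := by
  have : (fun v => dt m (PP c s v) / m 2) =
      fun v => s v + (m 0 / m 2 * (c v).1 + m 1 / m 2 * (c v).2) := by
    ext v; exact functional_shear hm v
  rw [this, Lf_shear]

/-- Being good is an open condition. -/
theorem good_perturb [Finite V] (hG : Good F c s) (δ : V → ℝ) :
    ∀ᶠ ε in 𝓝[>] (0 : ℝ), Good F c (fun v => s v + ε * δ v) := by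
  have h1 : ∀ t : V × V × V, ∀ᶠ ε in 𝓝[>] (0 : ℝ), t ∈ F → Nt c t.1 t.2.1 t.2.2 ∨
      St c t.1 t.2.1 t.2.2 ∨ 0 < Lf c (fun v => s v + ε * δ v) t.1 t.2.1 t.2.2 := by
    rintro ⟨a, b, x⟩
    by_cases hf : (a, b, x) ∈ F
    · rcases hG a b x hf with h | h | h
      · exact Filter.Eventually.of_forall (fun ε _ => Or.inl h)
      · exact Filter.Eventually.of_forall (fun ε _ => Or.inr (Or.inl h))
      · have h2 := eventually_pos_of_continuous
          (f := fun ε => Lf c (fun v => s v + ε * δ v) a b x) (by unfold Lf; fun_prop)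
          (by simp only [zero_mul, add_zero]; exact h)
        filter_upwards [h2] with ε hε _ using Or.inr (Or.inr hε)
    · exact Filter.Eventually.of_forall (fun ε h => (hf h).elim)
  filter_upwards [Filter.eventually_all.2 h1] with ε hε a b x hf using hε (a, b, x) hf

/-- No vertex is in the region of a face. -/
theorem vertex_not_reg {P : V → Fin 3 → ℝ} (hR : RT F P) {a b x : V} (hf : (a, b, x) ∈ F)
    (hL : det3 (P a) (P b) (P x) ≤ 0) (v : V) : det3 (P v) (P b) (P x) ≤ 0 ∧
      det3 (P a) (P v) (P x) ≤ 0 ∧ det3 (P a) (P b) (P v) ≤ 0 := by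
  obtain ⟨w, y, hw⟩ := hR.vert v
  have h1 : ¬ Reg (P a) (P b) (P x) (P v) := fun h => hR.off hf hw h (Cone_left _ _)
  by_contra hcon
  apply h1
  refine Or.inr ⟨hL, ?_⟩
  by_contra h2
  push Not at h2
  exact hcon h2

/-- The north face is a hemisphere. -/
theorem sink_i [Finite V] (hG : Good F c s) (hR : RT F (PP c s)) {a b x : V}
    (hf : (a, b, x) ∈ F) (hnt : Nt c a b x) (hL : Lf c s a b x = 0) :
    ∃ s' : V → ℝ, (∀ v, s' v < 0) ∧ Good F c s' := by
  set m := crs (PP c s a) (PP c s b) with hm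
  have hm2 : m 2 = X (c a) (c b) := by simp [hm, crs, PP, pt, X]
  have hm0 : 0 < m 2 := by rw [hm2]; exact hnt.1
  set s0 : V → ℝ := fun v => dt m (PP c s v) / m 2 with hs0
  have hle : ∀ v, s0 v ≤ 0 := by
    intro v
    have h1 := (vertex_not_reg hR hf (by rw [det3_PP, hL]) v).2.2
    rw [det3_eq_dt] at h1
    exact div_nonpos_of_nonpos_of_nonneg h1 hm0.le
  have hG0 : Good F c s0 := by
    intro a' b' x' hf'
    rw [hs0, Lf_functional (ne_of_gt hm0)]
    exact hG a' b' x' hf'
  obtain ⟨ε, h1, h2⟩ := ((good_perturb hG0 (fun _ => -1)).and self_mem_nhdsWithin).exists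
  refine ⟨_, fun v => ?_, h1⟩
  have h3 : (0 : ℝ) < ε := h2
  have := hle v
  linarith

theorem Rot3_mem_iff {a b x a' b' x' : V} (h : Rot3 a b x a' b' x') :
    (a' = a ∨ a' = b ∨ a' = x) ∧ (b' = a ∨ b' = b ∨ b' = x) := by
  rcases h with ⟨rfl, rfl, rfl⟩ | ⟨rfl, rfl, rfl⟩ | ⟨rfl, rfl, rfl⟩ <;> simp

/-- There is a big or hemispherical face around the south pole. -/
theorem sink_ii [Finite V] (hC : Comb F c) (hG : Good F c s) (hR : RT F (PP c s))
    {n1 n2 n3 : V} (hn : (n1, n2, n3) ∈ F) (hnt : Nt c n1 n2 n3) (hnL : 0 < Lf c s n1 n2 n3)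
    {a b x : V} (hf : (a, b, x) ∈ F) (hst : St c a b x) (hL : Lf c s a b x ≤ 0) :
    ∃ s' : V → ℝ, (∀ v, s' v < 0) ∧ Good F c s' := by
  set m := crs (PP c s b) (PP c s x) + crs (PP c s x) (PP c s a) + crs (PP c s a) (PP c s b)
    with hm
  have hm2 : m 2 = X (c b) (c x) + X (c x) (c a) + X (c a) (c b) := by
    simp [hm, crs, PP, pt, X]
  have hm0 : m 2 < 0 := by rw [hm2]; linarith [hst.1, hst.2.1, hst.2.2]
  have hdt : ∀ y, dt m y = det3 y (PP c s b) (PP c s x) + det3 (PP c s a) y (PP c s x) +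
      det3 (PP c s a) (PP c s b) y := by
    intro y
    simp [hm, dt, crs, det3]; ring
  set r : V → ℝ := fun v => dt m (PP c s v) / m 2 with hr
  have hLr : ∀ a b x, Lf c r a b x = Lf c s a b x := by
    intro a b x
    rw [hr, Lf_functional (ne_of_lt hm0)]
  have hGr : Good F c r := by
    intro a' b' x' hf'
    rw [hLr]
    exact hG a' b' x' hf'
  have hD := vertex_not_reg hR hf (by rw [det3_PP]; exact hL)
  have hnn : ∀ v, 0 ≤ r v := by
    intro v
    have h1 := hD v
    apply div_nonneg_of_nonpos _ hm0.le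
    rw [hdt]; linarith
  have hpos : ∀ v, v ≠ a → v ≠ b → v ≠ x → 0 < r v := by
    intro v ha hb hx
    rcases (hnn v).eq_or_lt with h0 | h0
    · exfalso
      obtain ⟨d1, d2, d3⟩ := hD v
      have h1 : dt m (PP c s v) = 0 := by
        have : r v * m 2 = dt m (PP c s v) := div_mul_cancel₀ _ (ne_of_lt hm0)
        rw [← this, ← h0, zero_mul]
      rw [hdt] at h1
      have z1 : det3 (PP c s v) (PP c s b) (PP c s x) = 0 := by linarith
      have z2 : det3 (PP c s a) (PP c s v) (PP c s x) = 0 := by linarith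
      have z3 : det3 (PP c s a) (PP c s b) (PP c s v) = 0 := by linarith
      rcases hL.eq_or_lt with hL0 | hL0
      · obtain ⟨l1, l2, l3, hl1, hl2, hl3, hrel⟩ := (hR.nd hf).2 (by rw [det3_PP]; exact hL0)
        rcases plane_cover (hR.nd hf).1 hl1 hl2 hl3 hrel z3 with h | h | h
        · rcases hR.vertex_on_edge hf h with h2 | h2
          · exact ha h2
          · exact hb h2
        · rcases hR.vertex_on_edge (hR.rot hf) h with h2 | h2
          · exact hb h2
          · exact hx h2
        · rcases hR.vertex_on_edge (hR.rot' hf) h with h2 | h2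
          · exact hx h2
          · exact ha h2
      · have h2 := cramer (PP c s a) (PP c s b) (PP c s x) (PP c s v)
        rw [z1, z2, z3, zero_smul, zero_smul, zero_smul, add_zero, add_zero, det3_PP] at h2
        rcases smul_eq_zero.1 h2 with h3 | h3
        · exact (ne_of_lt hL0) h3
        · exact hR.nz v h3
    · exact h0
  have hLn : ∀ {a' b' x' : V}, (a', b', x') ∈ F → Nt c a' b' x' → 0 < Lf c s a' b' x' := by
    intro a' b' x' hf' hN'
    rcases hC.nuniq hn hnt hf' hN' with ⟨rfl, rfl, rfl⟩ | ⟨rfl, rfl, rfl⟩ | ⟨rfl, rfl, rfl⟩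
    · exact hnL
    · rw [Lf_rot]; exact hnL
    · rw [Lf_rot, Lf_rot]; exact hnL
  have hSu : ∀ {a' b' x' : V}, (a', b', x') ∈ F → St c a' b' x' → Rot3 a b x a' b' x' :=
    fun hf' hS' => hR.disj hf hf' (reg_south_of_st hst) (reg_south_of_st hS')
  have hRotSt : ∀ {a' b' x' : V}, Rot3 a b x a' b' x' → St c a' b' x' := by
    rintro a' b' x' (⟨rfl, rfl, rfl⟩ | ⟨rfl, rfl, rfl⟩ | ⟨rfl, rfl, rfl⟩)
    · exact hst
    · exact hst.rot
    · exact hst.rot.rot
  -- the lower slot of a vertex of the south face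
  have hAslot : ∀ {v w y : V}, (v, w, y) ∈ F → St c v w y → Aslot F c v w y := by
    intro v w y h1 h2
    exact ⟨h1, h2.1, by rw [X_swap]; linarith [h2.2.2]⟩
  have hU : Upper F {t : V × V × V | t ∈ F ∧ ¬ Rot3 a b x t.1 t.2.1 t.2.2} c r
      {v | v ≠ a ∧ v ≠ b ∧ v ≠ x} {v | v = a ∨ v = b ∨ v = x} := by
    refine ⟨?_, ?_, ?_, ?_, ?_, ?_, ?_, ?_, ?_, ?_, ?_, ?_⟩
    · intro a' b' x' h; exact h.1
    · intro a' b' x' h
      refine ⟨hC.rot h.1, fun h2 => h.2 ?_⟩
      simp only at h2 ⊢
      exact h2.trans (Or.inr (Or.inr ⟨rfl, rfl, rfl⟩))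
    · intro a' b' x' h
      rw [hLr]
      rcases hG a' b' x' h.1 with h2 | h2 | h2
      · exact hLn h.1 h2
      · exact (h.2 (hSu h.1 h2)).elim
      · exact h2
    · intro a' b' x' h h2
      refine ⟨h, fun h3 => ?_⟩
      have := (hRotSt h3).1
      linarith [h2.1]
    · intro a' b' x' _
      by_cases h1 : a' = a
      · exact Or.inr (Or.inl h1)
      · by_cases h2 : a' = b
        · exact Or.inr (Or.inr (Or.inl h2))
        · by_cases h3 : a' = x
          · exact Or.inr (Or.inr (Or.inr h3))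
          · exact Or.inl ⟨h1, h2, h3⟩
    · rintro v ⟨h1, h2, h3⟩ (h | h | h)
      · exact h1 h
      · exact h2 h
      · exact h3 h
    · rintro v ⟨h1, h2, h3⟩; exact hpos v h1 h2 h3
    · rintro v w y ⟨h1, h2, h3⟩ h
      refine ⟨h, fun h4 => ?_⟩
      rcases (Rot3_mem_iff h4).1 with h5 | h5 | h5
      · exact h1 h5
      · exact h2 h5
      · exact h3 h5
    · intro v _; exact hnn v
    · intro v w y hv hA hp
      apply hp.2
      simp only
      have h2 : ∀ {v1 v2 v3 : V}, Rot3 a b x v1 v2 v3 → v = v1 → Rot3 a b x v w y := by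
        rintro v1 v2 v3 h3 rfl
        have h4 := hAslot (h3.mem hC hf) (hRotSt h3)
        obtain ⟨e1, e2⟩ := A_unique hC hG hA h4
        rw [e1, e2]; exact h3
      rcases hv with h | h | h
      · exact h2 (Or.inl ⟨rfl, rfl, rfl⟩) h
      · exact h2 (Or.inr (Or.inl ⟨rfl, rfl, rfl⟩)) h
      · exact h2 (Or.inr (Or.inr ⟨rfl, rfl, rfl⟩)) h
    · intro v w y _ hB
      refine ⟨hB.1, fun h => ?_⟩
      have := (hRotSt h).1
      simp only at this
      linarith [hB.2.1]
    · intro a' b' x' y _ h2 h3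
      have h4 : Rot3 a b x b' a' y := by
        by_contra h5
        exact h3 ⟨h2, h5⟩
      have h5 := Rot3_mem_iff h4
      refine ⟨h5.2, h5.1, ?_⟩
      rw [X_swap]
      linarith [(hRotSt h4).1]
  obtain ⟨h, hh1, hh2⟩ := core hC hGr hU
  refine ⟨fun v => - h v, fun v => ?_, ?_⟩
  · have : 0 < h v := by
      apply hh1
      by_cases h1 : v = a
      · exact Or.inr (Or.inl h1)
      · by_cases h2 : v = b
        · exact Or.inr (Or.inr (Or.inl h2))
        · by_cases h3 : v = x
          · exact Or.inr (Or.inr (Or.inr h3))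
          · exact Or.inl ⟨h1, h2, h3⟩
    simp only
    linarith
  · intro a' b' x' hf'
    by_cases h1 : Nt c a' b' x'
    · exact Or.inl h1
    · by_cases h2 : St c a' b' x'
      · exact Or.inr (Or.inl h2)
      · right; right
        have h3 := hh2 a' b' x' ⟨hf', fun h4 => h2 (hRotSt h4)⟩ h1
        have : Lf c (fun v => - h v) a' b' x' = - Lf c h a' b' x' := by simp only [Lf]; ring
        rw [this]; linarith

/-- All faces are small: this is where the uncrossed great circle is used. -/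
theorem sink_iii [Finite V] (hC : Comb F c)
    {n1 n2 n3 : V} (hn : (n1, n2, n3) ∈ F) (hnt : Nt c n1 n2 n3)
    (hall : ∀ a b x, (a, b, x) ∈ F → 0 < Lf c s a b x)
    (hun : ∃ m : Fin 3 → ℝ, m ≠ 0 ∧ ∀ a b x, (a, b, x) ∈ F →
      ¬ (0 < dt m (PP c s a) ∧ dt m (PP c s b) < 0)) :
    ∃ s' : V → ℝ, (∀ v, s' v < 0) ∧ Good F c s' := by
  obtain ⟨m0, hm0, hcr0⟩ := hun
  have hcr0' : ∀ a b x, (a, b, x) ∈ F → ¬ (dt m0 (PP c s a) < 0 ∧ 0 < dt m0 (PP c s b)) := by
    intro a b x hf ⟨h1, h2⟩
    obtain ⟨y, hy⟩ := hC.symm hf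
    exact hcr0 _ _ _ hy ⟨h2, h1⟩
  have hLn := hall _ _ _ hn
  -- the circle does not pass through the north pole
  have hrel : ∀ m : Fin 3 → ℝ, X (c n2) (c n3) * dt m (PP c s n1) +
      X (c n3) (c n1) * dt m (PP c s n2) + X (c n1) (c n2) * dt m (PP c s n3) =
      Lf c s n1 n2 n3 * m 2 := by
    intro m
    simp only [dt, PP, pt, Matrix.cons_val, Lf, X]; ring
  have hm2 : m0 2 ≠ 0 := by
    intro h0
    have h1 := hrel m0
    rw [h0, mul_zero] at h1
    obtain ⟨k1, k2, k3⟩ := hnt
    have e1 := hcr0 _ _ _ hn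
    have e2 := hcr0 _ _ _ (hC.rot hn)
    have e3 := hcr0 _ _ _ (hC.rot' hn)
    have f1 := hcr0' _ _ _ hn
    have f2 := hcr0' _ _ _ (hC.rot hn)
    have f3 := hcr0' _ _ _ (hC.rot' hn)
    set A := dt m0 (PP c s n1) with hA
    set B := dt m0 (PP c s n2) with hB
    set D := dt m0 (PP c s n3) with hD
    have hzero : A = 0 ∧ B = 0 ∧ D = 0 := by
      have hA0 : ¬ 0 < A := by
        intro h
        have hB' : 0 ≤ B := by by_contra hh; exact e1 ⟨h, not_le.1 hh⟩
        have hD' : 0 ≤ D := by by_contra hh; exact f3 ⟨not_le.1 hh, h⟩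
        have := mul_pos k2 h; have := mul_nonneg k3.le hB'; have := mul_nonneg k1.le hD'
        linarith
      have hA1 : ¬ A < 0 := by
        intro h
        have hB' : B ≤ 0 := by by_contra hh; exact f1 ⟨h, not_le.1 hh⟩
        have hD' : D ≤ 0 := by by_contra hh; exact e3 ⟨not_le.1 hh, h⟩
        have := mul_neg_of_pos_of_neg k2 h; have := mul_nonpos_of_nonneg_of_nonpos k3.le hB'
        have := mul_nonpos_of_nonneg_of_nonpos k1.le hD'
        linarith
      have hAz : A = 0 := le_antisymm (not_lt.1 hA0) (not_lt.1 hA1)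
      have hB0 : ¬ 0 < B := by
        intro h
        have hD' : 0 ≤ D := by by_contra hh; exact e2 ⟨h, not_le.1 hh⟩
        have := mul_pos k3 h; have := mul_nonneg k1.le hD'
        rw [hAz] at h1; linarith
      have hB1 : ¬ B < 0 := by
        intro h
        have hD' : D ≤ 0 := by by_contra hh; exact f2 ⟨h, not_le.1 hh⟩
        have := mul_neg_of_pos_of_neg k3 h
        have := mul_nonpos_of_nonneg_of_nonpos k1.le hD'
        rw [hAz] at h1; linarith
      have hBz : B = 0 := le_antisymm (not_lt.1 hB0) (not_lt.1 hB1)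
      refine ⟨hAz, hBz, ?_⟩
      rw [hAz, hBz, mul_zero, mul_zero, zero_add, zero_add] at h1
      exact (mul_eq_zero.1 h1).resolve_left (ne_of_gt k1)
    apply hm0
    -- `m0` is orthogonal to three independent vectors
    have hcram : Lf c s n1 n2 n3 * dt m0 m0 = 0 := by
      have h2 := cramer (PP c s n1) (PP c s n2) (PP c s n3) m0
      rw [det3_PP] at h2
      have h3 : dt m0 (Lf c s n1 n2 n3 • m0) = Lf c s n1 n2 n3 * dt m0 m0 := by
        simp only [dt, Pi.smul_apply, smul_eq_mul]; ring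
      rw [← h3, h2]
      have h4 : ∀ r1 r2 r3 : ℝ, dt m0 (r1 • PP c s n1 + r2 • PP c s n2 + r3 • PP c s n3) =
          r1 * A + r2 * B + r3 * D := by
        intro r1 r2 r3
        simp only [hA, hB, hD, dt, Pi.add_apply, Pi.smul_apply, smul_eq_mul]; ring
      rw [h4, hzero.1, hzero.2.1, hzero.2.2]; ring
    by_contra hne
    exact (mul_pos hLn (dt_self_pos hne)).ne' hcram
  -- normalize: the new heights
  set r : V → ℝ := fun v => dt m0 (PP c s v) / m0 2 with hr
  have hLr : ∀ a b x, Lf c r a b x = Lf c s a b x := by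
    intro a b x
    rw [hr, Lf_functional hm2]
  have hallr : ∀ a b x, (a, b, x) ∈ F → 0 < Lf c r a b x := by
    intro a b x hf; rw [hLr]; exact hall a b x hf
  have hGr : Good F c r := fun a b x hf => Or.inr (Or.inr (hallr a b x hf))
  have hcross : ∀ a b x, (a, b, x) ∈ F → ¬ (0 < r a ∧ r b < 0) := by
    rintro a b x hf ⟨h1, h2⟩
    have e1 : dt m0 (PP c s a) = r a * m0 2 := (div_mul_cancel₀ _ hm2).symm
    have e2 : dt m0 (PP c s b) = r b * m0 2 := (div_mul_cancel₀ _ hm2).symm
    rcases lt_or_gt_of_ne hm2 with h3 | h3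
    · apply hcr0' _ _ _ hf
      rw [e1, e2]
      exact ⟨mul_neg_of_pos_of_neg h1 h3, mul_pos_of_neg_of_neg h2 h3⟩
    · apply hcr0 _ _ _ hf
      rw [e1, e2]
      exact ⟨mul_pos h1 h3, mul_neg_of_neg_of_pos h2 h3⟩
  have hcross' : ∀ a b x, (a, b, x) ∈ F → 0 < r a → 0 ≤ r b ∧ 0 ≤ r x := by
    intro a b x hf h
    constructor
    · by_contra hh
      exact hcross _ _ _ hf ⟨h, not_le.1 hh⟩
    · by_contra hh
      obtain ⟨y, hy⟩ := next_mem hC hf
      exact hcross _ _ _ hy ⟨h, not_le.1 hh⟩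
  have hcross'' : ∀ a b x, (a, b, x) ∈ F → r a < 0 → r b ≤ 0 ∧ r x ≤ 0 := by
    intro a b x hf h
    constructor
    · by_contra hh
      obtain ⟨y, hy⟩ := hC.symm hf
      exact hcross _ _ _ hy ⟨not_le.1 hh, h⟩
    · by_contra hh
      exact hcross _ _ _ (hC.rot' hf) ⟨not_le.1 hh, h⟩
  have hU : Upper F {t : V × V × V | t ∈ F ∧ 0 ≤ r t.1 ∧ 0 ≤ r t.2.1 ∧ 0 ≤ r t.2.2} c r
      {v | 0 < r v} {v | r v = 0} := by
    refine ⟨?_, ?_, ?_, ?_, ?_, ?_, ?_, ?_, ?_, ?_, ?_, ?_⟩
    · intro a b x h; exact h.1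
    · intro a b x h; exact ⟨hC.rot h.1, h.2.2.1, h.2.2.2, h.2.1⟩
    · intro a b x h; exact hallr _ _ _ h.1
    · intro a b x hf hN
      have hL := hallr _ _ _ hf
      have hsome : 0 < r a ∨ 0 < r b ∨ 0 < r x := by
        by_contra hh
        push Not at hh
        simp only [Lf] at hL
        have := mul_nonpos_of_nonpos_of_nonneg hh.1 hN.2.1.le
        have := mul_nonpos_of_nonpos_of_nonneg hh.2.1 hN.2.2.le
        have := mul_nonpos_of_nonpos_of_nonneg hh.2.2 hN.1.le
        linarith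
      rcases hsome with h | h | h
      · have := hcross' _ _ _ hf h
        exact ⟨hf, h.le, this.1, this.2⟩
      · have := hcross' _ _ _ (hC.rot hf) h
        exact ⟨hf, this.2, h.le, this.1⟩
      · have := hcross' _ _ _ (hC.rot' hf) h
        exact ⟨hf, this.1, this.2, h.le⟩
    · intro a b x h
      rcases h.2.1.eq_or_lt with h1 | h1
      · exact Or.inr h1.symm
      · exact Or.inl h1
    · intro v h1 h2
      simp only [Set.mem_ofPred_eq] at h1 h2
      linarith
    · intro v h; exact h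
    · intro v a b h hf
      have h' : 0 < r v := h
      have := hcross' _ _ _ hf h'
      exact ⟨hf, h'.le, this.1, this.2⟩
    · intro v h; exact (show r v = 0 from h).ge
    · intro v a b h hA hp
      have h0 : r v = 0 := h
      have hL := hallr _ _ _ hA.1
      simp only [Lf, h0] at hL
      have e1 := hp.2.2.1
      have e2 := hp.2.2.2
      simp only at e1 e2
      have k1 : r a * X (c b) (c v) ≤ 0 :=
        mul_nonpos_of_nonneg_of_nonpos e1 (by rw [X_swap]; linarith [hA.2.2])
      have k2 : r b * X (c v) (c a) ≤ 0 := mul_nonpos_of_nonneg_of_nonpos e2 hA.2.1.le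
      linarith
    · intro v a b h hB
      have h0 : r v = 0 := h
      have hL := hallr _ _ _ hB.1
      simp only [Lf, h0] at hL
      have hsome : 0 < r a ∨ 0 < r b := by
        by_contra hh
        push Not at hh
        have k1 : r a * X (c b) (c v) ≤ 0 :=
          mul_nonpos_of_nonpos_of_nonneg hh.1 (by rw [X_swap]; linarith [hB.2.2])
        have k2 : r b * X (c v) (c a) ≤ 0 := mul_nonpos_of_nonpos_of_nonneg hh.2 hB.2.1.le
        linarith
      rcases hsome with h1 | h1
      · have := hcross' _ _ _ (hC.rot hB.1) h1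
        exact ⟨hB.1, h0.ge, h1.le, this.1⟩
      · have := hcross' _ _ _ (hC.rot' hB.1) h1
        exact ⟨hB.1, h0.ge, this.2, h1.le⟩
    · intro a b x y h1 h2 h3
      have hy : r y < 0 := by
        by_contra hh
        exact h3 ⟨h2, h1.2.2.1, h1.2.1, not_lt.1 hh⟩
      have h4 := hcross'' _ _ _ (hC.rot' h2) hy
      have ea : r a = 0 := le_antisymm h4.2 h1.2.1
      have eb : r b = 0 := le_antisymm h4.1 h1.2.2.1
      refine ⟨ea, eb, ?_⟩
      have hL := hallr _ _ _ h1.1
      simp only [Lf, ea, eb, zero_mul, zero_add] at hL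
      have hx := h1.2.2.2
      simp only at hx
      by_contra hh
      push Not at hh
      have := mul_nonpos_of_nonneg_of_nonpos hx hh
      linarith
  obtain ⟨h, hh1, hh2⟩ := core hC hGr hU
  classical
  set s' : ℝ → V → ℝ := fun ε v => if 0 ≤ r v then - (ε * h v) else r v with hs'
  have hcase : ∀ t : V × V × V, ∀ᶠ ε in 𝓝[>] (0 : ℝ), t ∈ F → Nt c t.1 t.2.1 t.2.2 ∨
      St c t.1 t.2.1 t.2.2 ∨ 0 < Lf c (s' ε) t.1 t.2.1 t.2.2 := by
    rintro ⟨a, b, x⟩
    by_cases hf : (a, b, x) ∈ F
    · by_cases hN : Nt c a b x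
      · exact Filter.Eventually.of_forall (fun ε _ => Or.inl hN)
      · by_cases hp : 0 ≤ r a ∧ 0 ≤ r b ∧ 0 ≤ r x
        · have h1 := hh2 a b x ⟨hf, hp⟩ hN
          filter_upwards [self_mem_nhdsWithin] with ε hε _
          right; right
          have : Lf c (s' ε) a b x = ε * (- Lf c h a b x) := by
            simp only [Lf, hs', if_pos hp.1, if_pos hp.2.1, if_pos hp.2.2]; ring
          rw [this]
          exact mul_pos hε (by linarith)
        · have hsome : r a < 0 ∨ r b < 0 ∨ r x < 0 := by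
            by_contra hh
            push Not at hh
            exact hp hh
          have hle : r a ≤ 0 ∧ r b ≤ 0 ∧ r x ≤ 0 := by
            rcases hsome with h1 | h1 | h1
            · exact ⟨h1.le, hcross'' _ _ _ hf h1⟩
            · have := hcross'' _ _ _ (hC.rot hf) h1
              exact ⟨this.2, h1.le, this.1⟩
            · have := hcross'' _ _ _ (hC.rot' hf) h1
              exact ⟨this.1, this.2, h1.le⟩
          have hz : ∀ v, r v ≤ 0 → s' 0 v = r v := by
            intro v hv
            simp only [hs']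
            by_cases h1 : 0 ≤ r v
            · rw [if_pos h1]; linarith
            · rw [if_neg h1]
          have hcont : Continuous (fun ε => Lf c (s' ε) a b x) := by
            have h1 : ∀ v, Continuous (fun ε => s' ε v) := by
              intro v
              simp only [hs']
              by_cases h1 : 0 ≤ r v
              · simp only [if_pos h1]; fun_prop
              · simp only [if_neg h1]; fun_prop
            unfold Lf
            have e1 := h1 a
            have e2 := h1 b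
            have e3 := h1 x
            fun_prop
          have h2 := eventually_pos_of_continuous hcont (by
            have : Lf c (s' 0) a b x = Lf c r a b x := by
              simp only [Lf, hz a hle.1, hz b hle.2.1, hz x hle.2.2]
            rw [this]; exact hallr a b x hf)
          filter_upwards [h2] with ε hε _ using Or.inr (Or.inr hε)
    · exact Filter.Eventually.of_forall (fun ε h => (hf h).elim)
  obtain ⟨ε, h1, h2⟩ := ((Filter.eventually_all.2 hcase).and self_mem_nhdsWithin).exists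
  refine ⟨s' ε, fun v => ?_, fun a b x hf => h1 (a, b, x) hf⟩
  have hε : (0 : ℝ) < ε := h2
  simp only [hs']
  by_cases h3 : 0 ≤ r v
  · rw [if_pos h3]
    have h4 : 0 < h v := by
      apply hh1
      rcases h3.eq_or_lt with h5 | h5
      · exact Or.inr h5.symm
      · exact Or.inl h5
    have := mul_pos hε h4
    linarith
  · rw [if_neg h3]
    exact not_le.1 h3

/-- The final positions, when the north face is not bigger than a hemisphere. -/
theorem exists_sink [Finite V] (hC : Comb F c) (hG : Good F c s) (hR : RT F (PP c s))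
    {n1 n2 n3 : V} (hn : (n1, n2, n3) ∈ F) (hnt : Nt c n1 n2 n3) (hnL : 0 ≤ Lf c s n1 n2 n3)
    (hun : ∃ m : Fin 3 → ℝ, m ≠ 0 ∧ ∀ a b x, (a, b, x) ∈ F →
      ¬ (0 < dt m (PP c s a) ∧ dt m (PP c s b) < 0)) :
    ∃ s' : V → ℝ, (∀ v, s' v < 0) ∧ Good F c s' := by
  rcases hnL.eq_or_lt with h0 | h0
  · exact sink_i hG hR hn hnt h0.symm
  · by_cases hS : ∃ a b x, (a, b, x) ∈ F ∧ St c a b x ∧ Lf c s a b x ≤ 0
    · obtain ⟨a, b, x, hf, hst, hL⟩ := hS
      exact sink_ii hC hG hR hn hnt h0 hf hst hL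
    · push Not at hS
      refine sink_iii hC hn hnt (fun a b x hf => ?_) hun
      rcases hG a b x hf with h | h | h
      · rcases hC.nuniq hn hnt hf h with ⟨rfl, rfl, rfl⟩ | ⟨rfl, rfl, rfl⟩ | ⟨rfl, rfl, rfl⟩
        · exact h0
        · rw [Lf_rot]; exact h0
        · rw [Lf_rot, Lf_rot]; exact h0
      · exact hS a b x hf h
      · exact h

end Pool.Agent.Work.MP_e680c3_co
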