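import Pool.Agent.Work.MP_e680c3_co.Chain

/-!
# The faces directly above and directly below a vertex
-/

open Filter Topology

namespace Pool.Agent.Work.MP_e680c3_co

variable {V : Type*} {F : Set (V × V × V)} {c : V → ℝ × ℝ} {s : V → ℝ} {d : ℝ × ℝ}

/-- `v a b` is the face directly above `v`. -/
def Bslot (F : Set (V × V × V)) (c : V → ℝ × ℝ) (v a b : V) : Prop :=
  (v, a, b) ∈ F ∧ 0 < X (c v) (c a) ∧ X (c v) (c b) ≤ 0

/-- `v a b` is the face directly below `v`. -/
def Aslot (F : Set (V × V × V)) (c : V → ℝ × ℝ) (v a b : V) : Prop :=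
  (v, a, b) ∈ F ∧ X (c v) (c a) < 0 ∧ 0 ≤ X (c v) (c b)

/-- Slope at `v` of the edge `v a`. -/
noncomputable def slope (c : V → ℝ × ℝ) (s : V → ℝ) (v a : V) : ℝ :=
  (s a - s v * ((c v).1 * (c a).1 + (c v).2 * (c a).2)) / X (c v) (c a)

theorem slope_sub (hu : ∀ v, (c v).1 ^ 2 + (c v).2 ^ 2 = 1) {v a b : V} (ha : X (c v) (c a) ≠ 0)
    (hb : X (c v) (c b) ≠ 0) :
    slope c s v b - slope c s v a = Lf c s v a b / (X (c v) (c a) * X (c v) (c b)) := by
  rw [slope, slope, div_sub_div _ _ hb ha, div_eq_div_iff (mul_ne_zero hb ha) (mul_ne_zero ha hb)]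
  have h := hu v
  simp only [Lf, X]
  linear_combination ((s v * ((c a).1 * (c b).2 - (c a).2 * (c b).1)) *
    (((c v).1 * (c b).2 - (c v).2 * (c b).1) * ((c v).1 * (c a).2 - (c v).2 * (c a).1))) * h

theorem lf_pos_of_same (hG : Good F c s) {v a b : V} (hf : (v, a, b) ∈ F)
    (h : 0 < X (c v) (c a) * X (c v) (c b)) : 0 < Lf c s v a b := by
  rcases hG v a b hf with h1 | h1 | h1
  · exfalso
    have h2 := h1.2.2
    rw [X_swap] at h2
    nlinarith [h1.1]
  · exfalso
    have h2 := h1.2.2
    rw [X_swap] at h2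
    nlinarith [h1.1]
  · exact h1

theorem lf_pos_of_zero (hG : Good F c s) {v a b : V} (hf : (v, a, b) ∈ F)
    (h : X (c v) (c a) = 0 ∨ X (c v) (c b) = 0) : 0 < Lf c s v a b := by
  rcases hG v a b hf with h1 | h1 | h1
  · exfalso
    rcases h with h | h
    · linarith [h1.1]
    · have h2 := h1.2.2
      rw [X_swap, h] at h2; linarith
  · exfalso
    rcases h with h | h
    · linarith [h1.1]
    · have h2 := h1.2.2
      rw [X_swap, h] at h2; linarith
  · exact h1

theorem next_mem (hC : Comb F c) {v a b : V} (hf : (v, a, b) ∈ F) : ∃ y, (v, b, y) ∈ F :=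
  hC.symm (hC.rot' hf)

/-- After a neighbour directly above or below `v` there is one on the corresponding side. -/
theorem next_of_zero (hC : Comb F c) (hG : Good F c s) {v a b : V} (hf : (v, a, b) ∈ F)
    (ha : X (c v) (c a) = 0) : (c a = c v ∧ 0 < (s v - s a) * X (c v) (c b)) ∨
      (c a = - c v ∧ 0 < X (c v) (c b)) := by
  have hL := lf_pos_of_zero hG hf (Or.inl ha)
  rcases hC.noN hf ha with h1 | ⟨h1, h2⟩
  · left
    refine ⟨h1.symm, ?_⟩
    have : Lf c s v a b = (s v - s a) * X (c v) (c b) := by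
      simp only [Lf]; rw [← h1]; simp only [X]; ring
    rwa [this] at hL
  · right
    refine ⟨by rw [h1, neg_neg], ?_⟩
    rw [h1]
    have : X (-c a) (c b) = - X (c a) (c b) := by
      simp only [X, Prod.fst_neg, Prod.snd_neg]; ring
    rw [this]; linarith

theorem prev_of_zero (hC : Comb F c) (hG : Good F c s) {v a b : V} (hf : (v, a, b) ∈ F)
    (hb : X (c v) (c b) = 0) : (c b = c v ∧ 0 < (s b - s v) * X (c v) (c a)) ∨
      (c b = - c v ∧ X (c v) (c a) < 0) := by
  have hL := lf_pos_of_zero hG hf (Or.inr hb)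
  have hb' : X (c b) (c v) = 0 := by rw [X_swap, hb, neg_zero]
  rcases hC.noN (hC.rot' hf) hb' with h1 | ⟨h1, h2⟩
  · left
    refine ⟨h1, ?_⟩
    have : Lf c s v a b = (s b - s v) * X (c v) (c a) := by
      simp only [Lf]; rw [h1]; simp only [X]; ring
    rwa [this] at hL
  · right
    exact ⟨h1, h2⟩

theorem exists_B_of_east [Finite V] (hC : Comb F c) (hG : Good F c s) (v : V) :
    ∀ a, (∃ b, (v, a, b) ∈ F) → 0 < X (c v) (c a) → ∃ a' b', Bslot F c v a' b' := by
  have hwf : WellFounded (fun a a' : V => slope c s v a' < slope c s v a) := by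
    have : IsTrans V (fun a a' : V => slope c s v a' < slope c s v a) :=
      ⟨fun a b x h1 h2 => lt_trans h2 h1⟩
    have : Std.Irrefl (fun a a' : V => slope c s v a' < slope c s v a) :=
      ⟨fun a h => lt_irrefl _ h⟩
    exact Finite.wellFounded_of_trans_of_irrefl _
  intro a
  induction a using hwf.induction with
  | _ a ih =>
    rintro ⟨b, hf⟩ ha
    by_cases hb : X (c v) (c b) ≤ 0
    · exact ⟨a, b, hf, ha, hb⟩
    · push Not at hb
      refine ih b ?_ (next_mem hC hf) hb
      have h1 := slope_sub (s := s) hC.unit (ne_of_gt ha) (ne_of_gt hb)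
      have h2 := lf_pos_of_same hG hf (mul_pos ha hb)
      have h3 : 0 < Lf c s v a b / (X (c v) (c a) * X (c v) (c b)) := div_pos h2 (mul_pos ha hb)
      linarith

theorem exists_A_of_west [Finite V] (hC : Comb F c) (hG : Good F c s) (v : V) :
    ∀ a, (∃ b, (v, a, b) ∈ F) → X (c v) (c a) < 0 → ∃ a' b', Aslot F c v a' b' := by
  have hwf : WellFounded (fun a a' : V => slope c s v a' < slope c s v a) := by
    have : IsTrans V (fun a a' : V => slope c s v a' < slope c s v a) :=
      ⟨fun a b x h1 h2 => lt_trans h2 h1⟩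
    have : Std.Irrefl (fun a a' : V => slope c s v a' < slope c s v a) :=
      ⟨fun a h => lt_irrefl _ h⟩
    exact Finite.wellFounded_of_trans_of_irrefl _
  intro a
  induction a using hwf.induction with
  | _ a ih =>
    rintro ⟨b, hf⟩ ha
    by_cases hb : 0 ≤ X (c v) (c b)
    · exact ⟨a, b, hf, ha, hb⟩
    · push Not at hb
      refine ih b ?_ (next_mem hC hf) hb
      have h1 := slope_sub (s := s) hC.unit (ne_of_lt ha) (ne_of_lt hb)
      have h2 := lf_pos_of_same hG hf (mul_pos_of_neg_of_neg ha hb)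
      have h3 : 0 < Lf c s v a b / (X (c v) (c a) * X (c v) (c b)) :=
        div_pos h2 (mul_pos_of_neg_of_neg ha hb)
      linarith

theorem exists_B_of_A [Finite V] (hC : Comb F c) (hG : Good F c s) {v a b : V}
    (h : Aslot F c v a b) : ∃ a' b', Bslot F c v a' b' := by
  obtain ⟨hf, ha, hb⟩ := h
  rcases hb.eq_or_lt with h0 | h0
  · obtain ⟨y, hy⟩ := next_mem hC hf
    have hpos : 0 < X (c v) (c y) := by
      rcases next_of_zero hC hG hy h0.symm with ⟨h1, h2⟩ | ⟨h1, h2⟩
      · rcases prev_of_zero hC hG hf h0.symm with ⟨h3, h4⟩ | ⟨h3, h4⟩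
        · have : s b - s v < 0 := by nlinarith
          nlinarith
        · exfalso
          have h5 : c v = - c v := by rw [← h3, h1]
          have h6 := hC.unit v
          have h7 : (c v).1 = 0 := by
            have := congrArg Prod.fst h5; simp only [Prod.fst_neg] at this; linarith
          have h8 : (c v).2 = 0 := by
            have := congrArg Prod.snd h5; simp only [Prod.snd_neg] at this; linarith
          rw [h7, h8] at h6; norm_num at h6
      · exact h2
    exact exists_B_of_east hC hG v y (next_mem hC hy) hpos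
  · exact exists_B_of_east hC hG v b (next_mem hC hf) h0

theorem exists_A_of_B [Finite V] (hC : Comb F c) (hG : Good F c s) {v a b : V}
    (h : Bslot F c v a b) : ∃ a' b', Aslot F c v a' b' := by
  obtain ⟨hf, ha, hb⟩ := h
  rcases hb.eq_or_lt with h0 | h0
  · obtain ⟨y, hy⟩ := next_mem hC hf
    have hpos : X (c v) (c y) < 0 := by
      rcases prev_of_zero hC hG hf h0 with ⟨h3, h4⟩ | ⟨h3, h4⟩
      · have h5 : 0 < s b - s v := by
          by_contra hn
          push Not at hn
          nlinarith [mul_nonneg (neg_nonneg.2 hn) ha.le]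
        rcases next_of_zero hC hG hy h0 with ⟨h1, h2⟩ | ⟨h1, h2⟩
        · by_contra hn
          push Not at hn
          nlinarith [mul_nonneg h5.le hn]
        · exfalso
          have h5 : c v = - c v := by rw [← h1, h3]
          have h6 := hC.unit v
          have h7 : (c v).1 = 0 := by
            have := congrArg Prod.fst h5; simp only [Prod.fst_neg] at this; linarith
          have h8 : (c v).2 = 0 := by
            have := congrArg Prod.snd h5; simp only [Prod.snd_neg] at this; linarith
          rw [h7, h8] at h6; norm_num at h6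
      · exfalso; linarith
    exact exists_A_of_west hC hG v y (next_mem hC hy) hpos
  · exact exists_A_of_west hC hG v b (next_mem hC hf) h0

theorem lf_zero_of_par {v a b : V} (h1 : X (c v) (c a) = 0) (h2 : X (c v) (c b) = 0)
    (hu : ∀ v, (c v).1 ^ 2 + (c v).2 ^ 2 = 1) : Lf c s v a b = 0 := by
  have h3 : X (c a) (c b) = 0 := by
    rcases X_zero_unit (hu v) (hu a) h1 with h | h
    · rw [← h]; exact h2
    · rw [h] at h2
      have : X (-c a) (c b) = - X (c a) (c b) := by
        simp only [X, Prod.fst_neg, Prod.snd_neg]; ring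
      rw [this] at h2; linarith
  have h4 : X (c b) (c v) = 0 := by rw [X_swap, h2, neg_zero]
  simp only [Lf, h1, h3, h4]; ring

theorem exists_slots [Finite V] (hC : Comb F c) (hG : Good F c s) (v : V) :
    (∃ a b, Aslot F c v a b) ∧ (∃ a b, Bslot F c v a b) := by
  obtain ⟨a, b, hf⟩ := hC.vert v
  have key : ∀ a, (∃ b, (v, a, b) ∈ F) → X (c v) (c a) ≠ 0 →
      (∃ a b, Aslot F c v a b) ∧ (∃ a b, Bslot F c v a b) := by
    intro a ha h0
    rcases lt_or_gt_of_ne h0 with h | h
    · obtain ⟨a', b', h1⟩ := exists_A_of_west hC hG v a ha h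
      exact ⟨⟨a', b', h1⟩, exists_B_of_A hC hG h1⟩
    · obtain ⟨a', b', h1⟩ := exists_B_of_east hC hG v a ha h
      exact ⟨exists_A_of_B hC hG h1, ⟨a', b', h1⟩⟩
  by_cases h0 : X (c v) (c a) = 0
  · by_cases h1 : X (c v) (c b) = 0
    · exfalso
      have := lf_pos_of_zero hG hf (Or.inl h0)
      rw [lf_zero_of_par h0 h1 hC.unit] at this
      exact lt_irrefl _ this
    · exact key b (next_mem hC hf) h1
  · exact key a ⟨b, hf⟩ h0

/-! ### Directions close to a vertex -/

/-- A direction slightly east (`ε > 0`) or west (`ε < 0`) of `v`. -/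
def near (c : V → ℝ × ℝ) (v : V) (ε : ℝ) : ℝ × ℝ :=
  ((c v).1 - ε * (c v).2, (c v).2 + ε * (c v).1)

theorem near_zero (v : V) : near c v 0 = c v := by simp [near]

theorem continuous_near (v : V) : Continuous (near c v) := by
  unfold near; fun_prop

theorem X_near (hu : ∀ v, (c v).1 ^ 2 + (c v).2 ^ 2 = 1) (v : V) (ε : ℝ) :
    X (c v) (near c v ε) = ε := by
  have := hu v
  simp only [X, near]
  linear_combination ε * this

theorem continuous_X : Continuous (fun p : (ℝ × ℝ) × (ℝ × ℝ) => X p.1 p.2) := by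
  unfold X; fun_prop

theorem tendsto_near (v : V) (σ : ℝ) : Tendsto (fun ε => near c v (σ * ε)) (𝓝[>] 0) (𝓝 (c v)) := by
  have h : Continuous (fun ε => near c v (σ * ε)) := (continuous_near v).comp (by fun_prop)
  have h1 := h.tendsto 0
  simp only [mul_zero, near_zero] at h1
  exact h1.mono_left nhdsWithin_le_nhds

theorem tendsto_H (s : V → ℝ) (a b : V) {v : V} (σ : ℝ) :
    Tendsto (fun ε => H c s (near c v (σ * ε)) a b) (𝓝[>] 0) (𝓝 (H c s (c v) a b)) := by
  have h : Continuous (fun d => H c s d a b) := by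
    unfold H X; fun_prop
  exact (h.tendsto (c v)).comp (tendsto_near v σ)

theorem eventually_gen [Finite V] (hu : ∀ v, (c v).1 ^ 2 + (c v).2 ^ 2 = 1) (v : V) {σ : ℝ}
    (hσ : σ ≠ 0) : ∀ᶠ ε in 𝓝[>] (0 : ℝ), Gen c (near c v (σ * ε)) := by
  have : ∀ w : V, ∀ᶠ ε in 𝓝[>] (0 : ℝ), X (c w) (near c v (σ * ε)) ≠ 0 := by
    intro w
    by_cases h0 : X (c w) (c v) = 0
    · filter_upwards [self_mem_nhdsWithin] with ε hε
      have hε' : σ * ε ≠ 0 := mul_ne_zero hσ (ne_of_gt hε)
      rcases X_zero_unit (hu w) (hu v) h0 with h | h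
      · rw [h, X_near hu]; exact hε'
      · rw [h]
        have : X (-c v) (near c v (σ * ε)) = - (σ * ε) := by
          have h9 := X_near hu v (σ * ε)
          simp only [X, Prod.fst_neg, Prod.snd_neg] at h9 ⊢
          linarith
        rw [this]; exact neg_ne_zero.2 hε'
    · have h1 : Tendsto (fun ε => X (c w) (near c v (σ * ε))) (𝓝[>] 0) (𝓝 (X (c w) (c v))) := by
        have h2 : Continuous (fun d => X (c w) d) := by unfold X; fun_prop
        exact (h2.tendsto (c v)).comp (tendsto_near v σ)
      exact h1.eventually_ne h0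
  exact Filter.eventually_all.2 this

theorem eventually_X_left (v w : V) {σ : ℝ} (h : 0 < X (c w) (c v)) :
    ∀ᶠ ε in 𝓝[>] (0 : ℝ), 0 < X (c w) (near c v (σ * ε)) := by
  have h1 : Tendsto (fun ε => X (c w) (near c v (σ * ε))) (𝓝[>] 0) (𝓝 (X (c w) (c v))) := by
    have h2 : Continuous (fun d => X (c w) d) := by unfold X; fun_prop
    exact (h2.tendsto (c v)).comp (tendsto_near v σ)
  exact h1.eventually_const_lt h

theorem eventually_X_right (v w : V) {σ : ℝ} (h : 0 < X (c v) (c w)) :
    ∀ᶠ ε in 𝓝[>] (0 : ℝ), 0 < X (near c v (σ * ε)) (c w) := by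
  have h1 : Tendsto (fun ε => X (near c v (σ * ε)) (c w)) (𝓝[>] 0) (𝓝 (X (c v) (c w))) := by
    have h2 : Continuous (fun d => X d (c w)) := by unfold X; fun_prop
    exact (h2.tendsto (c v)).comp (tendsto_near v σ)
  exact h1.eventually_const_lt h

theorem H_at_west {v a : V} (h : X (c v) (c a) ≠ 0) : H c s (c v) v a = s v := by
  rw [H, X_self, mul_zero, add_zero, mul_div_cancel_right₀ _ h]

theorem H_at_east {v a : V} (h : X (c a) (c v) ≠ 0) : H c s (c v) a v = s v := by
  rw [H, X_self, mul_zero, zero_add, mul_div_cancel_right₀ _ h]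

theorem H_opp {v a b : V} (h : X (c b) (c a) ≠ 0) :
    H c s (c v) b a = s v + Lf c s v a b / X (c b) (c a) := by
  rw [H, div_eq_iff h, add_mul, div_mul_cancel₀ _ h]
  simp only [Lf, X]; ring

theorem H_opp' {v a b : V} (h : X (c a) (c b) ≠ 0) :
    H c s (c v) a b = s v - Lf c s v a b / X (c a) (c b) := by
  rw [H, div_eq_iff h, sub_mul, div_mul_cancel₀ _ h]
  simp only [Lf, X]; ring

theorem B_unique_aux [Finite V] (hC : Comb F c) (hG : Good F c s) {v a b a' b' : V}
    (h : Bslot F c v a b) (h' : Bslot F c v a' b') : ∀ᶠ ε in 𝓝[>] (0 : ℝ),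
      Up F c (near c v (1 * ε)) (v, a) (b, a) →
      H c s (near c v (1 * ε)) v a' < H c s (near c v (1 * ε)) b a := by
  by_cases hba : X (c b) (c a) ≤ 0
  · filter_upwards with ε hup
    obtain ⟨x, hf, hcr, (⟨h1, h2⟩ | ⟨h1, h2⟩)⟩ := hup
    · have := h2.2.2
      have hx := hC.uniq hf h.1
      subst hx
      simp only at this
      linarith
    · exfalso
      have hx := hC.uniq hf h.1
      have h3 := (Prod.mk.inj h1).1
      subst hx
      have h4 := h2.2.2
      simp only at h4
      linarith [h.2.2]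
  · push Not at hba
    have hL : 0 < Lf c s v a b := by
      rcases hG v a b h.1 with h1 | h1 | h1
      · exfalso; have := h1.2.1; rw [X_swap] at this; linarith
      · exfalso; linarith [h1.1, h.2.1]
      · exact h1
    have h1 := tendsto_H (c := c) s v a' (v := v) 1
    have h2 := tendsto_H (c := c) s b a (v := v) 1
    rw [H_at_west (ne_of_gt h'.2.1)] at h1
    rw [H_opp (ne_of_gt hba)] at h2
    have h3 : s v < s v + Lf c s v a b / X (c b) (c a) := by
      have := div_pos hL hba; linarith
    filter_upwards [h1.eventually_lt h2 h3] with ε hε _ using hε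

theorem B_unique [Finite V] (hC : Comb F c) (hG : Good F c s) {v a b a' b' : V}
    (h : Bslot F c v a b) (h' : Bslot F c v a' b') : a = a' ∧ b = b' := by
  have main : a = a' := by
    by_contra hne
    have e1 := B_unique_aux hC hG h h'
    have e2 := B_unique_aux hC hG h' h
    have e3 := eventually_gen hC.unit v (one_ne_zero)
    have e4 := eventually_X_right (c := c) v a (σ := 1) h.2.1
    have e5 := eventually_X_right (c := c) v a' (σ := 1) h'.2.1
    obtain ⟨ε, h1, h2, h3, h4, h5, h6⟩ :=
      (e1.and (e2.and (e3.and (e4.and (e5.and self_mem_nhdsWithin))))).exists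
    have h7 : 0 < X (c v) (near c v (1 * ε)) := by
      rw [X_near hC.unit, one_mul]; exact h6
    set d := near c v (1 * ε) with hd
    have m1 : (v, a) ∈ Ed F c d := ⟨⟨h7, h4, h.2.1⟩, b, h.1⟩
    have m2 : (v, a') ∈ Ed F c d := ⟨⟨h7, h5, h'.2.1⟩, b', h'.1⟩
    have key : ∀ {a b a' b' : V}, Bslot F c v a b → a ≠ a' →
        (Up F c d (v, a) (b, a) → H c s d v a' < H c s d b a) →
        Relation.ReflTransGen (Up F c d) (v, a) (v, a') → False := by
      intro a b a' b' h hne h1 hr
      rcases Relation.ReflTransGen.cases_head hr with h8 | ⟨g, h8, h9⟩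
      · exact hne (Prod.mk.inj h8).2
      · have hg : g = (b, a) := by
          obtain ⟨x, hf, hcr, (⟨h10, h11⟩ | ⟨h10, h11⟩)⟩ := h8
          · have hx := hC.uniq hf h.1
            rw [h10, hx]
          · exfalso
            have hx := hC.uniq hf h.1
            subst hx
            have := h11.2.2
            simp only at this
            linarith [h.2.2]
        subst hg
        have := reach_le hG h9
        simp only at this
        linarith [h1 h8]
    rcases chain_total hC hG h3 m1 m2 with hr | hr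
    · exact key (b' := b') h hne h1 hr
    · exact key (b' := b) h' (Ne.symm hne) h2 hr
  subst main
  exact ⟨rfl, hC.uniq h.1 h'.1⟩

theorem A_unique_aux (hG : Good F c s) {v a b a' b' : V}
    (h : Aslot F c v a b) (h' : Aslot F c v a' b') : ∀ᶠ ε in 𝓝[>] (0 : ℝ),
      0 < X (c a) (c b) →
      H c s (near c v ((-1) * ε)) a b < H c s (near c v ((-1) * ε)) a' v := by
  by_cases hba : X (c a) (c b) ≤ 0
  · filter_upwards with ε hup
    exfalso; linarith
  · push Not at hba
    have hL : 0 < Lf c s v a b := by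
      rcases hG v a b h.1 with h1 | h1 | h1
      · exfalso; linarith [h1.1, h.2.1]
      · exfalso; linarith [h1.2.1]
      · exact h1
    have hav : 0 < X (c a') (c v) := by rw [X_swap]; linarith [h'.2.1]
    have h1 := tendsto_H (c := c) s a' v (v := v) (-1)
    have h2 := tendsto_H (c := c) s a b (v := v) (-1)
    rw [H_at_east (ne_of_gt hav)] at h1
    rw [H_opp' (ne_of_gt hba)] at h2
    have h3 : s v - Lf c s v a b / X (c a) (c b) < s v := by
      have := div_pos hL hba; linarith
    filter_upwards [h2.eventually_lt h1 h3] with ε hε _ using hε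

theorem A_unique [Finite V] (hC : Comb F c) (hG : Good F c s) {v a b a' b' : V}
    (h : Aslot F c v a b) (h' : Aslot F c v a' b') : a = a' ∧ b = b' := by
  have main : a = a' := by
    by_contra hne
    have hva : 0 < X (c a) (c v) := by rw [X_swap]; linarith [h.2.1]
    have hva' : 0 < X (c a') (c v) := by rw [X_swap]; linarith [h'.2.1]
    have e1 := A_unique_aux hG h h'
    have e2 := A_unique_aux hG h' h
    have e3 := eventually_gen hC.unit v (σ := -1) (by norm_num)
    have e4 := eventually_X_left (c := c) v a (σ := -1) hva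
    have e5 := eventually_X_left (c := c) v a' (σ := -1) hva'
    obtain ⟨ε, h1, h2, h3, h4, h5, h6⟩ :=
      (e1.and (e2.and (e3.and (e4.and (e5.and self_mem_nhdsWithin))))).exists
    have h7 : 0 < X (near c v ((-1) * ε)) (c v) := by
      rw [X_swap, X_near hC.unit]
      have : (0 : ℝ) < ε := h6
      linarith
    set d := near c v ((-1) * ε) with hd
    obtain ⟨y, hy⟩ := hC.symm h.1
    obtain ⟨y', hy'⟩ := hC.symm h'.1
    have m1 : (a, v) ∈ Ed F c d := ⟨⟨h4, h7, hva⟩, y, hy⟩
    have m2 : (a', v) ∈ Ed F c d := ⟨⟨h5, h7, hva'⟩, y', hy'⟩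
    have key : ∀ {a b a' b' : V}, Aslot F c v a' b' → a ≠ a' →
        (0 < X (c a') (c b') → H c s d a' b' < H c s d a v) →
        Relation.ReflTransGen (Up F c d) (a, v) (a', v) → False := by
      intro a b a' b' h hne h1 hr
      rcases Relation.ReflTransGen.cases_tail hr with h8 | ⟨g, h8, h9⟩
      · exact hne (Prod.mk.inj h8).1.symm
      · obtain ⟨x, hf, hcr, (⟨h10, h11⟩ | ⟨h10, h11⟩)⟩ := h9
        · obtain ⟨h12, h13⟩ := Prod.mk.inj h10
          rw [← h12, ← h13] at hf
          have := hC.uniq (hC.rot hf) h.1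
          have h14 := hcr.2.2
          rw [this, ← h13, X_swap] at h14
          linarith [h.2.2]
        · obtain ⟨h12, h13⟩ := Prod.mk.inj h10
          rw [← h12, ← h13] at hf
          have h15 := hC.uniq (hC.rot' hf) h.1
          have h14 := hcr.2.2
          rw [h15, ← h12] at h14
          have h16 := reach_le hG h8
          rw [h15, ← h12] at h16
          simp only at h16
          linarith [h1 h14]
    rcases chain_total hC hG h3 m1 m2 with hr | hr
    · exact key (b := b) h' hne h2 hr
    · exact key (b := b') h (Ne.symm hne) h1 hr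
  subst main
  exact ⟨rfl, hC.uniq h.1 h'.1⟩

end Pool.Agent.Work.MP_e680c3_co
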