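import Pool.Agent.Work.MP_e680c3_co.Rays

/-!
# Vectors, cones and regions
-/

open Filter Topology

namespace Pool.Agent.Work.MP_e680c3_co

/-- Cross product. -/
def crs (a b : Fin 3 → ℝ) : Fin 3 → ℝ :=
  ![a 1 * b 2 - a 2 * b 1, a 2 * b 0 - a 0 * b 2, a 0 * b 1 - a 1 * b 0]

/-- Euclidean inner product. -/
def dt (a b : Fin 3 → ℝ) : ℝ := a 0 * b 0 + a 1 * b 1 + a 2 * b 2

theorem det3_eq_dt (a b y : Fin 3 → ℝ) : det3 a b y = dt (crs a b) y := by
  simp [det3, crs, dt]; ring

theorem dt_self_pos {a : Fin 3 → ℝ} (h : a ≠ 0) : 0 < dt a a := by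
  by_contra hn
  simp only [dt] at hn
  push Not at hn
  apply h
  have h0 : a 0 = 0 := by nlinarith [mul_self_nonneg (a 0), mul_self_nonneg (a 1), mul_self_nonneg (a 2)]
  have h1 : a 1 = 0 := by nlinarith [mul_self_nonneg (a 0), mul_self_nonneg (a 1), mul_self_nonneg (a 2)]
  have h2 : a 2 = 0 := by nlinarith [mul_self_nonneg (a 0), mul_self_nonneg (a 1), mul_self_nonneg (a 2)]
  ext i
  fin_cases i
  · exact h0
  · exact h1
  · exact h2

theorem det3_crs_pos {a b : Fin 3 → ℝ} (h : crs a b ≠ 0) : 0 < det3 a b (crs a b) := by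
  rw [det3_eq_dt]; exact dt_self_pos h

theorem det3_add3 (a b x y : Fin 3 → ℝ) : det3 a b (x + y) = det3 a b x + det3 a b y := by
  simp only [det3, Pi.add_apply]; ring

theorem det3_add2 (a b x y : Fin 3 → ℝ) : det3 a (x + y) b = det3 a x b + det3 a y b := by
  simp only [det3, Pi.add_apply]; ring

theorem det3_add1 (a b x y : Fin 3 → ℝ) : det3 (x + y) a b = det3 x a b + det3 y a b := by
  simp only [det3, Pi.add_apply]; ring

theorem det3_self1 (a b : Fin 3 → ℝ) : det3 a a b = 0 := by simp only [det3]; ring
theorem det3_self2 (a b : Fin 3 → ℝ) : det3 a b a = 0 := by simp only [det3]; ring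
theorem det3_self3 (a b : Fin 3 → ℝ) : det3 b a a = 0 := by simp only [det3]; ring

theorem det3_swap12 (a b x : Fin 3 → ℝ) : det3 b a x = - det3 a b x := by
  simp only [det3]; ring

theorem det3_swap23 (a b x : Fin 3 → ℝ) : det3 a x b = - det3 a b x := by
  simp only [det3]; ring

theorem crs_swap (a b : Fin 3 → ℝ) : crs b a = - crs a b := by
  ext i; fin_cases i <;> simp [crs] <;> ring

theorem crs_swap_ne {a b : Fin 3 → ℝ} (h : crs a b ≠ 0) : crs b a ≠ 0 := by
  rw [crs_swap]; exact neg_ne_zero.2 h

/-- Cramer's rule. -/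
theorem cramer (a b x y : Fin 3 → ℝ) :
    det3 a b x • y = det3 y b x • a + det3 a y x • b + det3 a b y • x := by
  ext i
  fin_cases i <;> simp [det3] <;> ring

theorem continuous_det3 {f g h : ℝ → Fin 3 → ℝ} (hf : Continuous f) (hg : Continuous g)
    (hh : Continuous h) : Continuous (fun t => det3 (f t) (g t) (h t)) := by
  unfold det3
  have e1 : ∀ i, Continuous (fun t => f t i) := fun i => (continuous_apply i).comp hf
  have e2 : ∀ i, Continuous (fun t => g t i) := fun i => (continuous_apply i).comp hg
  have e3 : ∀ i, Continuous (fun t => h t i) := fun i => (continuous_apply i).comp hh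
  fun_prop

/-- Points of the plane spanned by `a` and `b`. -/
theorem span_of_det {a b y : Fin 3 → ℝ} (h : crs a b ≠ 0) (h0 : det3 a b y = 0) :
    y = (det3 y b (crs a b) / det3 a b (crs a b)) • a +
      (det3 a y (crs a b) / det3 a b (crs a b)) • b := by
  have h1 := det3_crs_pos h
  have h2 := cramer a b (crs a b) y
  rw [h0, zero_smul, add_zero] at h2
  have h3 : y = (det3 a b (crs a b))⁻¹ • (det3 a b (crs a b) • y) := by
    rw [smul_smul, inv_mul_cancel₀ (ne_of_gt h1), one_smul]
  rw [h2, smul_add, smul_smul, smul_smul] at h3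
  rw [h3]
  congr 1
  · congr 1
    rw [← h3, div_eq_inv_mul]
  · congr 1
    rw [← h3, div_eq_inv_mul]

theorem Cone_iff {a b y : Fin 3 → ℝ} (h : crs a b ≠ 0) : Cone a b y ↔
    det3 a b y = 0 ∧ 0 ≤ det3 y b (crs a b) ∧ 0 ≤ det3 a y (crs a b) := by
  have h1 := det3_crs_pos h
  constructor
  · rintro ⟨α, β, hα, hβ, rfl⟩
    refine ⟨?_, ?_, ?_⟩
    · rw [det3_add3, det3_smul3, det3_smul3, det3_self2, det3_self3]; ring
    · rw [det3_add1, det3_smul1, det3_smul1, det3_self1]
      have := mul_nonneg hα h1.le
      linarith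
    · rw [det3_add2, det3_smul2, det3_smul2, det3_self1]
      have := mul_nonneg hβ h1.le
      linarith
  · rintro ⟨h2, h3, h4⟩
    exact ⟨_, _, div_nonneg h3 h1.le, div_nonneg h4 h1.le, span_of_det h h2⟩

theorem Cone_swap {a b y : Fin 3 → ℝ} (h : Cone a b y) : Cone b a y := by
  obtain ⟨α, β, hα, hβ, rfl⟩ := h
  exact ⟨β, α, hβ, hα, add_comm _ _⟩

/-- Values of a function which is frequently nonnegative. -/
theorem nonneg_of_frequently {f : ℝ → ℝ} (hf : Continuous f)
    (h : ∃ᶠ ε in 𝓝[>] (0 : ℝ), 0 ≤ f ε) : 0 ≤ f 0 := by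
  by_contra hn
  push Not at hn
  have h1 : Tendsto f (𝓝[>] 0) (𝓝 (f 0)) := (hf.tendsto 0).mono_left nhdsWithin_le_nhds
  have h2 := h1.eventually_lt_const hn
  obtain ⟨ε, h3, h4⟩ := (h.and_eventually h2).exists
  linarith

theorem eventually_pos_of_continuous {f : ℝ → ℝ} (hf : Continuous f) (h0 : 0 < f 0) :
    ∀ᶠ ε in 𝓝[>] (0 : ℝ), 0 < f ε := by
  have h1 : Tendsto f (𝓝[>] 0) (𝓝 (f 0)) := (hf.tendsto 0).mono_left nhdsWithin_le_nhds
  exact h1.eventually_const_lt h0

theorem continuous_line (y w : Fin 3 → ℝ) : Continuous (fun ε : ℝ => y + ε • w) := by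
  fun_prop

theorem Cone_closed {a b y w : Fin 3 → ℝ} (h : crs a b ≠ 0)
    (hfr : ∃ᶠ ε in 𝓝[>] (0 : ℝ), Cone a b (y + ε • w)) : Cone a b y := by
  have c1 := continuous_line y w
  have hy : y + (0 : ℝ) • w = y := by rw [zero_smul, add_zero]
  rw [Cone_iff h]
  have k1 : Continuous (fun ε : ℝ => det3 a b (y + ε • w)) :=
    continuous_det3 continuous_const continuous_const c1
  have k2 : Continuous (fun ε : ℝ => det3 (y + ε • w) b (crs a b)) :=
    continuous_det3 c1 continuous_const continuous_const
  have k3 : Continuous (fun ε : ℝ => det3 a (y + ε • w) (crs a b)) :=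
    continuous_det3 continuous_const c1 continuous_const
  have e1 := nonneg_of_frequently k1 (hfr.mono (fun ε hε => ((Cone_iff h).1 hε).1.ge))
  have e2 := nonneg_of_frequently k1.neg
    (hfr.mono (fun ε hε => by
      have := ((Cone_iff h).1 hε).1
      simp only [Pi.neg_apply, this, neg_zero, le_refl]))
  have e3 := nonneg_of_frequently k2 (hfr.mono (fun ε hε => ((Cone_iff h).1 hε).2.1))
  have e4 := nonneg_of_frequently k3 (hfr.mono (fun ε hε => ((Cone_iff h).1 hε).2.2))
  simp only [Pi.neg_apply] at e2
  simp only [hy] at e1 e2 e3 e4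
  exact ⟨by linarith, e3, e4⟩

/-- Regions are open. -/
theorem Reg_open {a b x y : Fin 3 → ℝ} (h : Reg a b x y) (w : Fin 3 → ℝ) :
    ∀ᶠ ε in 𝓝[>] (0 : ℝ), Reg a b x (y + ε • w) := by
  have c1 := continuous_line y w
  have hy : y + (0 : ℝ) • w = y := by rw [zero_smul, add_zero]
  have k1 : Continuous (fun ε : ℝ => det3 (y + ε • w) b x) :=
    continuous_det3 c1 continuous_const continuous_const
  have k2 : Continuous (fun ε : ℝ => det3 a (y + ε • w) x) :=
    continuous_det3 continuous_const c1 continuous_const
  have k3 : Continuous (fun ε : ℝ => det3 a b (y + ε • w)) :=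
    continuous_det3 continuous_const continuous_const c1
  rcases h with ⟨h0, h1, h2, h3⟩ | ⟨h0, h | h | h⟩
  · have e1 := eventually_pos_of_continuous k1 (by rw [hy]; exact h1)
    have e2 := eventually_pos_of_continuous k2 (by rw [hy]; exact h2)
    have e3 := eventually_pos_of_continuous k3 (by rw [hy]; exact h3)
    filter_upwards [e1, e2, e3] with ε q1 q2 q3 using Or.inl ⟨h0, q1, q2, q3⟩
  · have e1 := eventually_pos_of_continuous k1 (by rw [hy]; exact h)
    filter_upwards [e1] with ε q1 using Or.inr ⟨h0, Or.inl q1⟩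
  · have e1 := eventually_pos_of_continuous k2 (by rw [hy]; exact h)
    filter_upwards [e1] with ε q1 using Or.inr ⟨h0, Or.inr (Or.inl q1)⟩
  · have e1 := eventually_pos_of_continuous k3 (by rw [hy]; exact h)
    filter_upwards [e1] with ε q1 using Or.inr ⟨h0, Or.inr (Or.inr q1)⟩

/-- Points on the left of an interior point of the edge `a b` are in the region of `a b x`. -/
theorem left_reg {a b x y w : Fin 3 → ℝ} {α β : ℝ} (hα : 0 < α) (hβ : 0 < β)
    (hy : y = α • a + β • b) (hw : 0 < det3 a b w) :
    ∀ᶠ ε in 𝓝[>] (0 : ℝ), Reg a b x (y + ε • w) := by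
  have c1 := continuous_line y w
  have h0 : y + (0 : ℝ) • w = y := by rw [zero_smul, add_zero]
  have hD3 : ∀ ε : ℝ, det3 a b (y + ε • w) = ε * det3 a b w := by
    intro ε
    rw [hy, det3_add3, det3_add3, det3_smul3, det3_smul3, det3_smul3, det3_self2, det3_self3]; ring
  by_cases hL : 0 < det3 a b x
  · have k1 : Continuous (fun ε : ℝ => det3 (y + ε • w) b x) :=
      continuous_det3 c1 continuous_const continuous_const
    have k2 : Continuous (fun ε : ℝ => det3 a (y + ε • w) x) :=
      continuous_det3 continuous_const c1 continuous_const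
    have e1 := eventually_pos_of_continuous k1 (by
      rw [h0, hy, det3_add1, det3_smul1, det3_smul1, det3_self1]
      have := mul_pos hα hL
      linarith)
    have e2 := eventually_pos_of_continuous k2 (by
      rw [h0, hy, det3_add2, det3_smul2, det3_smul2, det3_self1]
      have := mul_pos hβ hL
      linarith)
    filter_upwards [e1, e2, self_mem_nhdsWithin] with ε q1 q2 q3
    exact Or.inl ⟨hL, q1, q2, by rw [hD3]; exact mul_pos q3 hw⟩
  · filter_upwards [self_mem_nhdsWithin] with ε q3
    push Not at hL
    exact Or.inr ⟨hL, Or.inr (Or.inr (by rw [hD3]; exact mul_pos q3 hw))⟩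

/-- Points near an interior point of the edge `a b`, in its plane. -/
theorem along_cone {a b y w : Fin 3 → ℝ} {α β : ℝ} (hα : 0 < α) (hβ : 0 < β)
    (hy : y = α • a + β • b) (hab : crs a b ≠ 0) (hw : det3 a b w = 0) :
    ∀ᶠ ε in 𝓝[>] (0 : ℝ), Cone a b (y + ε • w) := by
  have h1 := span_of_det hab hw
  set α1 := det3 w b (crs a b) / det3 a b (crs a b)
  set β1 := det3 a w (crs a b) / det3 a b (crs a b)
  have e1 := eventually_pos_of_continuous (f := fun ε => α + ε * α1) (by fun_prop)
    (by simp only [zero_mul, add_zero]; exact hα)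
  have e2 := eventually_pos_of_continuous (f := fun ε => β + ε * β1) (by fun_prop)
    (by simp only [zero_mul, add_zero]; exact hβ)
  filter_upwards [e1, e2] with ε q1 q2
  refine ⟨α + ε * α1, β + ε * β1, q1.le, q2.le, ?_⟩
  rw [hy, h1]
  module

/-- A nondegenerate face. -/
def ND (a b x : Fin 3 → ℝ) : Prop :=
  crs a b ≠ 0 ∧ (det3 a b x = 0 → ∃ l1 l2 l3 : ℝ, 0 < l1 ∧ 0 < l2 ∧ 0 < l3 ∧
    l1 • a + l2 • b + l3 • x = 0)

/-- A limit of points of a region is in the region or on one of its sides. -/
theorem Reg_closure {a b x y w : Fin 3 → ℝ} (hnd : ND a b x)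
    (hfr : ∃ᶠ ε in 𝓝[>] (0 : ℝ), Reg a b x (y + ε • w)) :
    Reg a b x y ∨ Cone a b y ∨ Cone b x y ∨ Cone x a y := by
  have c1 := continuous_line y w
  have hy : y + (0 : ℝ) • w = y := by rw [zero_smul, add_zero]
  have k1 : Continuous (fun ε : ℝ => det3 (y + ε • w) b x) :=
    continuous_det3 c1 continuous_const continuous_const
  have k2 : Continuous (fun ε : ℝ => det3 a (y + ε • w) x) :=
    continuous_det3 continuous_const c1 continuous_const
  have k3 : Continuous (fun ε : ℝ => det3 a b (y + ε • w)) :=
    continuous_det3 continuous_const continuous_const c1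
  have hcr := cramer a b x y
  rcases lt_trichotomy (det3 a b x) 0 with hL | hL | hL
  · -- big face
    by_cases hpos : 0 < det3 y b x ∨ 0 < det3 a y x ∨ 0 < det3 a b y
    · exact Or.inl (Or.inr ⟨hL.le, hpos⟩)
    · push Not at hpos
      obtain ⟨p1, p2, p3⟩ := hpos
      have hzero : det3 y b x = 0 ∨ det3 a y x = 0 ∨ det3 a b y = 0 := by
        by_contra hn
        push Not at hn
        have e1 := eventually_pos_of_continuous k1.neg
          (by simp only [Pi.neg_apply, hy]; linarith [lt_of_le_of_ne p1 hn.1])
        have e2 := eventually_pos_of_continuous k2.neg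
          (by simp only [Pi.neg_apply, hy]; linarith [lt_of_le_of_ne p2 hn.2.1])
        have e3 := eventually_pos_of_continuous k3.neg
          (by simp only [Pi.neg_apply, hy]; linarith [lt_of_le_of_ne p3 hn.2.2])
        obtain ⟨ε, hR, q1, q2, q3⟩ := (hfr.and_eventually (e1.and (e2.and e3))).exists
        simp only [Pi.neg_apply] at q1 q2 q3
        rcases hR with ⟨h, _⟩ | ⟨_, h | h | h⟩ <;> linarith
      have h3 : y = (det3 a b x)⁻¹ • (det3 a b x • y) := by
        rw [smul_smul, inv_mul_cancel₀ (ne_of_lt hL), one_smul]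
      rw [hcr, smul_add, smul_add, smul_smul, smul_smul, smul_smul] at h3
      have hinv : (det3 a b x)⁻¹ ≤ 0 := (inv_neg''.2 hL).le
      have n1 := mul_nonneg_of_nonpos_of_nonpos hinv p1
      have n2 := mul_nonneg_of_nonpos_of_nonpos hinv p2
      have n3 := mul_nonneg_of_nonpos_of_nonpos hinv p3
      rcases hzero with h | h | h
      · right; right; left
        refine ⟨_, _, n2, n3, ?_⟩
        rw [h, mul_zero, zero_smul, zero_add] at h3
        exact h3
      · right; right; right
        refine ⟨_, _, n3, n1, ?_⟩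
        rw [h, mul_zero, zero_smul, add_zero, add_comm] at h3
        exact h3
      · right; left
        refine ⟨_, _, n1, n2, ?_⟩
        rw [h, mul_zero, zero_smul, add_zero] at h3
        exact h3
  · -- hemisphere
    obtain ⟨l1, l2, l3, hl1, hl2, hl3, hrel⟩ := hnd.2 hL
    by_cases hpos : 0 < det3 y b x ∨ 0 < det3 a y x ∨ 0 < det3 a b y
    · exact Or.inl (Or.inr ⟨hL.le, hpos⟩)
    · push Not at hpos
      obtain ⟨p1, p2, p3⟩ := hpos
      have r1 : ∀ v, l1 * det3 a b v = l3 * det3 v b x := by
        intro v
        have : det3 (l1 • a + l2 • b + l3 • x) b v = 0 := by rw [hrel, det3_zero1]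
        rw [det3_add1, det3_add1, det3_smul1, det3_smul1, det3_smul1, det3_self1] at this
        have h2 : det3 x b v = - det3 v b x := by simp only [det3]; ring
        rw [h2] at this
        linarith
      have r2 : ∀ v, l2 * det3 a b v = l3 * det3 a v x := by
        intro v
        have : det3 a (l1 • a + l2 • b + l3 • x) v = 0 := by rw [hrel, det3_zero2]
        rw [det3_add2, det3_add2, det3_smul2, det3_smul2, det3_smul2, det3_self1] at this
        have h2 : det3 a x v = - det3 a v x := by simp only [det3]; ring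
        rw [h2] at this
        linarith
      have hz : det3 a b y = 0 := by
        by_contra hn
        have h3 : det3 a b y < 0 := lt_of_le_of_ne p3 hn
        have e3 := eventually_pos_of_continuous k3.neg
          (by simp only [Pi.neg_apply, hy]; linarith)
        obtain ⟨ε, hR, q3⟩ := (hfr.and_eventually e3).exists
        simp only [Pi.neg_apply] at q3
        have s1 := r1 (y + ε • w)
        have s2 := r2 (y + ε • w)
        rcases hR with ⟨h, _⟩ | ⟨_, h | h | h⟩
        · linarith
        · have := mul_pos hl3 h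
          have := mul_pos hl1 q3
          linarith
        · have := mul_pos hl3 h
          have := mul_pos hl2 q3
          linarith
        · linarith
      have hsp := span_of_det hnd.1 hz
      set α := det3 y b (crs a b) / det3 a b (crs a b)
      set β := det3 a y (crs a b) / det3 a b (crs a b)
      by_cases h1 : 0 ≤ α ∧ 0 ≤ β
      · right; left
        exact ⟨α, β, h1.1, h1.2, hsp⟩
      · by_cases h2 : α * l2 ≤ β * l1
        · have hαn : α < 0 := by
            by_contra hh
            push Not at hh
            apply h1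
            refine ⟨hh, ?_⟩
            by_contra hb
            push Not at hb
            nlinarith [mul_nonneg hh hl2.le, mul_neg_of_neg_of_pos hb hl1]
          right; right; left
          refine ⟨β + (- α / l1) * l2, (- α / l1) * l3, ?_, ?_, ?_⟩
          · have : β + (- α / l1) * l2 = (β * l1 - α * l2) / l1 := by field_simp; ring
            rw [this]
            exact div_nonneg (by linarith) hl1.le
          · exact mul_nonneg (div_nonneg (by linarith) hl1.le) hl3.le
          · have h4 : y = (α • a + β • b) + (- α / l1) • (l1 • a + l2 • b + l3 • x) := by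
              rw [hrel, smul_zero, add_zero]; exact hsp
            rw [h4]
            have h5 : (- α / l1) * l1 = - α := by field_simp
            have h6 : (- α / l1) • (l1 • a + l2 • b + l3 • x) =
                (- α) • a + ((- α / l1) * l2) • b + ((- α / l1) * l3) • x := by
              rw [smul_add, smul_add, smul_smul, smul_smul, smul_smul, h5]
            rw [h6]
            module
        · push Not at h2
          have hβn : β < 0 := by
            by_contra hh
            push Not at hh
            apply h1
            refine ⟨?_, hh⟩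
            by_contra hb
            push Not at hb
            nlinarith [mul_nonneg hh hl1.le, mul_neg_of_neg_of_pos hb hl2]
          right; right; right
          refine ⟨(- β / l2) * l3, α + (- β / l2) * l1, ?_, ?_, ?_⟩
          · exact mul_nonneg (div_nonneg (by linarith) hl2.le) hl3.le
          · have : α + (- β / l2) * l1 = (α * l2 - β * l1) / l2 := by field_simp; ring
            rw [this]
            exact div_nonneg (by linarith) hl2.le
          · have h4 : y = (α • a + β • b) + (- β / l2) • (l1 • a + l2 • b + l3 • x) := by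
              rw [hrel, smul_zero, add_zero]; exact hsp
            rw [h4]
            have h5 : (- β / l2) * l2 = - β := by field_simp
            have h6 : (- β / l2) • (l1 • a + l2 • b + l3 • x) =
                ((- β / l2) * l1) • a + (- β) • b + ((- β / l2) * l3) • x := by
              rw [smul_add, smul_add, smul_smul, smul_smul, smul_smul, h5]
            rw [h6]
            module
  · -- small face
    have e1 := nonneg_of_frequently k1 (hfr.mono (fun ε hε => by
      rcases hε with ⟨_, h, _⟩ | ⟨h, _⟩
      · exact h.le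
      · linarith))
    have e2 := nonneg_of_frequently k2 (hfr.mono (fun ε hε => by
      rcases hε with ⟨_, _, h, _⟩ | ⟨h, _⟩
      · exact h.le
      · linarith))
    have e3 := nonneg_of_frequently k3 (hfr.mono (fun ε hε => by
      rcases hε with ⟨_, _, _, h⟩ | ⟨h, _⟩
      · exact h.le
      · linarith))
    rw [hy] at e1 e2 e3
    have h3 : y = (det3 a b x)⁻¹ • (det3 a b x • y) := by
      rw [smul_smul, inv_mul_cancel₀ (ne_of_gt hL), one_smul]
    rw [hcr, smul_add, smul_add, smul_smul, smul_smul, smul_smul] at h3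
    have hinv : 0 ≤ (det3 a b x)⁻¹ := (inv_pos.2 hL).le
    have n1 := mul_nonneg hinv e1
    have n2 := mul_nonneg hinv e2
    have n3 := mul_nonneg hinv e3
    rcases e1.eq_or_lt with h | p1
    · right; right; left
      refine ⟨_, _, n2, n3, ?_⟩
      rw [← h, mul_zero, zero_smul, zero_add] at h3
      exact h3
    · rcases e2.eq_or_lt with h | p2
      · right; right; right
        refine ⟨_, _, n3, n1, ?_⟩
        rw [← h, mul_zero, zero_smul, add_zero, add_comm] at h3
        exact h3
      · rcases e3.eq_or_lt with h | p3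
        · right; left
          refine ⟨_, _, n1, n2, ?_⟩
          rw [← h, mul_zero, zero_smul, add_zero] at h3
          exact h3
        · exact Or.inl (Or.inl ⟨hL, p1, p2, p3⟩)

end Pool.Agent.Work.MP_e680c3_co
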